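import Pool.Agent.Helper92.RE.TmB
import Pool.Agent.Helper92.RECTT.Main

/-!
# Turing machines on the words `F w y`: fast computations are within the bounds
-/

namespace Pool.Agent.Helper92.RE

open Pool.Agent.Helper65.LinSpace Pool.Agent.Helper78.Mpc Pool.Agent.Helper28.Ram
open Pool.Agent.Helper65.OH (letW mv OneHead)
open Pool.Agent.Helper20.MH (MultiHead)
open Pool.Agent.Helper31.TMS (stW idx exists_bound mvW_length AcceptsAt stW_head run_halt)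
open Pool.Agent.Helper28.OHS (Box)
open Pool.Agent.Helper81.Sus2 (Decomp)
open Pool.Agent.Helper50.RECT (lam6 lam3 two_pow_log pos_bd)
open Pool.Agent.Helper92.RECT (fst In Crs Cut Free)
open Pool.Agent.Helper92.RECTT (cut3 within3 vis)

/-- The total time of the simulation. -/
theorem time_le {B C₀ n m t : ℕ} {C : ℝ} (hC₀ : |C| ≤ C₀) (hm : m + 2 ≤ B * (n + 1)) {e j : ℕ}
    {p : ℝ} (hpj : p ≤ j)
    (ht : (t : ℝ) ≤ C * ((m : ℝ) + 1) ^ p / ((Nat.log 2 m : ℝ) + 1) ^ e) :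
    n + 2 + t < 2 ^ ((Nat.log 2 (2 + C₀ * B ^ j) + 2 + j) * (Nat.log 2 n + 1)) := by
  have hm1 : (1 : ℝ) ≤ (m : ℝ) + 1 := by
    have : (0 : ℝ) ≤ (m : ℝ) := Nat.cast_nonneg _
    linarith
  have hlog : (1 : ℝ) ≤ ((Nat.log 2 m : ℝ) + 1) ^ e := by
    refine one_le_pow₀ ?_
    have : (0 : ℝ) ≤ (Nat.log 2 m : ℝ) := Nat.cast_nonneg _
    linarith
  have hmB : (m : ℝ) + 1 ≤ (B : ℝ) * ((n : ℝ) + 1) := by
    have : m + 1 ≤ B * (n + 1) := by omega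
    exact_mod_cast this
  have h1 : (t : ℝ) ≤ C₀ * ((B : ℝ) * ((n : ℝ) + 1)) ^ j := by
    calc (t : ℝ) ≤ C * ((m : ℝ) + 1) ^ p / ((Nat.log 2 m : ℝ) + 1) ^ e := ht
      _ ≤ |C| * ((m : ℝ) + 1) ^ p / ((Nat.log 2 m : ℝ) + 1) ^ e := by
        have := le_abs_self C
        gcongr
      _ ≤ |C| * ((m : ℝ) + 1) ^ p := div_le_self (by positivity) hlog
      _ ≤ |C| * ((m : ℝ) + 1) ^ j := by
        refine mul_le_mul_of_nonneg_left ?_ (abs_nonneg C)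
        have := Real.rpow_le_rpow_of_exponent_le hm1 hpj
        rwa [Real.rpow_natCast] at this
      _ ≤ C₀ * ((B : ℝ) * ((n : ℝ) + 1)) ^ j := by gcongr
  have h2 : t ≤ C₀ * (B * (n + 1)) ^ j := by exact_mod_cast h1
  have h3 : 1 ≤ (n + 1) ^ j := Nat.one_le_pow _ _ (Nat.succ_pos n)
  have h4 : n + 1 ≤ 2 ^ (Nat.log 2 n + 1) := Nat.lt_pow_succ_log_self (by norm_num) n
  have h5 : 2 + C₀ * B ^ j < 2 ^ (Nat.log 2 (2 + C₀ * B ^ j) + 1) :=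
    Nat.lt_pow_succ_log_self (by norm_num) _
  set K := Nat.log 2 (2 + C₀ * B ^ j) with hK
  set l := Nat.log 2 n + 1 with hl
  have hl1 : 1 ≤ l := by omega
  calc n + 2 + t ≤ 2 * (n + 1) + C₀ * (B * (n + 1)) ^ j := by omega
    _ ≤ 2 * ((n + 1) * (n + 1) ^ j) + C₀ * (B * (n + 1)) ^ j := by
      have : (n + 1) * 1 ≤ (n + 1) * (n + 1) ^ j := Nat.mul_le_mul_left _ h3
      omega
    _ ≤ 2 * ((n + 1) * (n + 1) ^ j) + (n + 1) * (C₀ * (B * (n + 1)) ^ j) := by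
      have : 1 * (C₀ * (B * (n + 1)) ^ j) ≤ (n + 1) * (C₀ * (B * (n + 1)) ^ j) :=
        Nat.mul_le_mul_right _ (by omega)
      omega
    _ = (2 + C₀ * B ^ j) * (n + 1) ^ (j + 1) := by
      rw [mul_pow]
      ring
    _ < 2 ^ (K + 1) * (n + 1) ^ (j + 1) := Nat.mul_lt_mul_of_pos_right h5 (by positivity)
    _ ≤ 2 ^ (K + 1) * (2 ^ l) ^ (j + 1) := Nat.mul_le_mul_left _ (Nat.pow_le_pow_left h4 _)
    _ = 2 ^ (K + 1 + l * (j + 1)) := by rw [← pow_mul, ← pow_add]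
    _ ≤ 2 ^ ((K + 2 + j) * l) := by
      refine Nat.pow_le_pow_right (by norm_num) ?_
      have e1 : (K + 2 + j) * l = (K + 1) * l + l * (j + 1) := by ring
      have e2 : K + 1 ≤ (K + 1) * l := Nat.le_mul_of_pos_right _ hl1
      omega

/-- The total time of the simulation, with the logarithms. -/
theorem time_log {B n m t : ℕ} {C : ℝ} (hm : m + 2 ≤ B * (n + 1)) (hnm : n ≤ m) (hB : 1 ≤ B)
    {e : ℕ} (he : e ≤ 6) {p : ℝ} (hp0 : 2 ≤ p) (hp3 : p ≤ 3)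
    (ht : (t : ℝ) ≤ C * ((m : ℝ) + 1) ^ p / ((Nat.log 2 m : ℝ) + 1) ^ e) :
    ((n + 2 + t : ℕ) : ℝ) * ((Nat.log 2 n : ℝ) + 1) ^ e ≤
      (4400 + |C| * (B : ℝ) ^ 3) * ((n : ℝ) + 1) ^ p := by
  have hn0 : (0 : ℝ) ≤ (n : ℝ) := Nat.cast_nonneg _
  have hN1 : (1 : ℝ) ≤ (n : ℝ) + 1 := by linarith
  have hl0 : (0 : ℝ) ≤ (Nat.log 2 n : ℝ) := Nat.cast_nonneg _
  have hl1 : (1 : ℝ) ≤ (Nat.log 2 n : ℝ) + 1 := by linarith
  have hlm : (Nat.log 2 n : ℝ) + 1 ≤ (Nat.log 2 m : ℝ) + 1 := by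
    have : (Nat.log 2 n : ℝ) ≤ Nat.log 2 m := by exact_mod_cast Nat.log_mono_right hnm
    linarith
  have hm0 : (0 : ℝ) < ((Nat.log 2 m : ℝ) + 1) ^ e := by
    have : (0 : ℝ) < (Nat.log 2 m : ℝ) + 1 := by linarith
    positivity
  have hB1 : (1 : ℝ) ≤ (B : ℝ) := by exact_mod_cast hB
  have hmB : (m : ℝ) + 1 ≤ (B : ℝ) * ((n : ℝ) + 1) := by
    have : m + 1 ≤ B * (n + 1) := by omega
    exact_mod_cast this
  have hN2 : ((n : ℝ) + 1) ^ 2 ≤ ((n : ℝ) + 1) ^ p := by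
    have := Real.rpow_le_rpow_of_exponent_le hN1 (by exact_mod_cast hp0 : ((2 : ℕ) : ℝ) ≤ p)
    rwa [Real.rpow_natCast] at this
  have hle : ((Nat.log 2 n : ℝ) + 1) ^ e ≤ 2200 * ((n : ℝ) + 1) :=
    (pow_le_pow_right₀ hl1 he).trans (lam6 n)
  have h1 : ((n : ℝ) + 2) * ((Nat.log 2 n : ℝ) + 1) ^ e ≤ 4400 * ((n : ℝ) + 1) ^ p := by
    calc ((n : ℝ) + 2) * ((Nat.log 2 n : ℝ) + 1) ^ e ≤
        (2 * ((n : ℝ) + 1)) * (2200 * ((n : ℝ) + 1)) := by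
          gcongr
          linarith
      _ = 4400 * ((n : ℝ) + 1) ^ 2 := by ring
      _ ≤ _ := by gcongr
  have h2 : (t : ℝ) * ((Nat.log 2 n : ℝ) + 1) ^ e ≤ |C| * (B : ℝ) ^ 3 * ((n : ℝ) + 1) ^ p := by
    rw [le_div_iff₀ hm0] at ht
    calc (t : ℝ) * ((Nat.log 2 n : ℝ) + 1) ^ e ≤ (t : ℝ) * ((Nat.log 2 m : ℝ) + 1) ^ e := by
          gcongr
      _ ≤ C * ((m : ℝ) + 1) ^ p := ht
      _ ≤ |C| * ((m : ℝ) + 1) ^ p :=
        mul_le_mul_of_nonneg_right (le_abs_self C) (by positivity)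
      _ ≤ |C| * ((B : ℝ) * ((n : ℝ) + 1)) ^ p := by
        refine mul_le_mul_of_nonneg_left ?_ (abs_nonneg C)
        exact Real.rpow_le_rpow (by positivity) hmB (by linarith)
      _ = |C| * ((B : ℝ) ^ p * ((n : ℝ) + 1) ^ p) := by
        rw [Real.mul_rpow (by linarith) (by linarith)]
      _ ≤ |C| * ((B : ℝ) ^ 3 * ((n : ℝ) + 1) ^ p) := by
        have := Real.rpow_le_rpow_of_exponent_le hB1
          (by exact_mod_cast hp3 : p ≤ ((3 : ℕ) : ℝ))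
        rw [Real.rpow_natCast] at this
        gcongr
      _ = _ := by ring
  have e1 : ((n + 2 + t : ℕ) : ℝ) * ((Nat.log 2 n : ℝ) + 1) ^ e =
      ((n : ℝ) + 2) * ((Nat.log 2 n : ℝ) + 1) ^ e +
        (t : ℝ) * ((Nat.log 2 n : ℝ) + 1) ^ e := by
    push_cast
    ring
  have e2 : (4400 + |C| * (B : ℝ) ^ 3) * ((n : ℝ) + 1) ^ p =
      4400 * ((n : ℝ) + 1) ^ p + |C| * (B : ℝ) ^ 3 * ((n : ℝ) + 1) ^ p := by ring
  rw [e1, e2]
  exact add_le_add h1 h2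

theorem len_append {F : List Bool → List Bool} {b κ : ℕ}
    (hlen : ∀ w, (F w).length ≤ b * (w.length + 1)) {w y : List Bool}
    (hy : y.length ≤ κ * w.length) :
    (F w ++ y).length + 2 ≤ (b + κ + 2) * (w.length + 1) := by
  rw [List.length_append]
  have h2 := hlen w
  calc (F w).length + y.length + 2 ≤ b * (w.length + 1) + κ * w.length + 2 := by omega
    _ ≤ (b + κ + 2) * (w.length + 1) := by nlinarith

section multi

variable {k : ℕ} {D : LD} {M : TM k} {code : M.Sym → List Bool} {A : MultiHead 1 k}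

/-- Heads. -/
theorem head_multi (hb : code M.blank = []) (hA : SmL D M code A) {F : List Bool → List Bool}
    (hF : D.Is F) (w y : List Bool) (u : ℕ) (j : Fin k) (i : Fin 1) :
    |(A.conf w y u).h j i| ≤ u := by
  rcases le_or_gt u (w.length + 1) with h | h
  · rw [(sim_cnt hb hA w y h).2.1 j]
    simp
  · obtain ⟨v, rfl⟩ : ∃ v, u = w.length + 1 + v := ⟨u - (w.length + 1), by omega⟩
    rw [(simL hb hA hF w y v).2.1 j]
    refine (run_head M (F w ++ y) v j).trans ?_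
    push_cast
    omega

/-- **Fast computations of machines with several tapes are within the bounds.** -/
theorem within_multi (hb : code M.blank = []) (hA : SmL D M code A)
    {F : List Bool → List Bool} (hF : D.Is F) {b : ℕ}
    (hlen : ∀ w, (F w).length ≤ b * (w.length + 1)) (hle : ∀ w, w.length ≤ (F w).length)
    (E : Decomp) (c κ : ℕ) (C : ℝ) : ∃ C' : ℝ, ∀ w y : List Bool, y.length ≤ κ * w.length →
      InTime M (fun n => C * ((n : ℝ) + 1) ^ (2 : ℝ) / ((Nat.log 2 n : ℝ) + 1) ^ 5) (F w ++ y) →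
      Pool.Agent.Helper31.MHS.Within A E c C' w y := by
  obtain ⟨B, hB⟩ : ∃ B : ℕ, B = b + κ + 2 := ⟨_, rfl⟩
  obtain ⟨K₂, hfit⟩ := fits_multi hb hA hF B
  obtain ⟨C₀, hC₀⟩ := exists_nat_ge |C|
  obtain ⟨K₄, hK₄⟩ : ∃ K : ℕ, K = Nat.log 2 (2 + C₀ * B ^ 2) + 2 + 2 := ⟨_, rfl⟩
  obtain ⟨κ', hκ'⟩ : ∃ x : ℝ, x = ((K₂ : ℝ) + K₄ + 1) * ((K₄ : ℝ) + 1) ^ 4 := ⟨_, rfl⟩
  refine ⟨κ' * (4400 + |C| * (B : ℝ) ^ 3) + κ' * 2200, fun w y hy ⟨t, hacc, ht⟩ => ?_⟩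
  have hx := len_append hlen hy
  rw [← hB] at hx
  have hwx : w.length ≤ (F w ++ y).length := by
    rw [List.length_append]
    exact (hle w).trans (Nat.le_add_right _ _)
  set n := w.length with hn
  set m := (F w ++ y).length with hm
  have ht2 : (t : ℝ) ≤ C * ((m : ℝ) + 1) ^ (2 : ℝ) / ((Nat.log 2 m : ℝ) + 1) ^ 5 := ht
  have hr := time_le (j := 2) hC₀ hx (by norm_num) ht2
  rw [← hK₄] at hr
  have hr5 := time_log hx hwx (by omega) (by norm_num) (by norm_num) (by norm_num) ht2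
  have hl0 : (0 : ℝ) ≤ (Nat.log 2 n : ℝ) := Nat.cast_nonneg _
  set l : ℝ := (Nat.log 2 n : ℝ) + 1 with hl
  have hl1 : 1 ≤ l := by linarith
  have hN1 : (1 : ℝ) ≤ (n : ℝ) + 1 := by
    have : (0 : ℝ) ≤ (n : ℝ) := Nat.cast_nonneg _
    linarith
  have h6 : l ^ 6 ≤ 2200 * ((n : ℝ) + 1) := lam6 n
  have hcl : (((K₂ * (Nat.log 2 n + 1) : ℕ) : ℝ)) = K₂ * l := by
    push_cast
    rw [hl]
  have hcb : (((K₄ * (Nat.log 2 n + 1) : ℕ) : ℝ)) = K₄ * l := by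
    push_cast
    rw [hl]
  have hκ0 : 0 ≤ κ' := by
    rw [hκ']
    positivity
  have hC0 : 0 ≤ |C| * (B : ℝ) ^ 3 := by positivity
  refine ⟨n + 1 + (t + 1), K₂ * (Nat.log 2 n + 1), K₄ * (Nat.log 2 n + 1), 0, n + 2 + t, ?_,
    hfit w y hx hwx _, ?_, ?_, ?_, ?_, ?_⟩
  · obtain ⟨⟨f, d, e1, e2⟩, -⟩ := simL hb hA hF w y (t + 1)
    show (A.conf w y (n + 1 + (t + 1))).q.head? = some true
    rw [e1, stW_head, e2.2 ⟨t, rfl, hacc⟩]
  · intro u hu j i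
    have h1 := abs_le.1 (head_multi hb hA hF w y u j i)
    have h2 : (u : ℤ) < 2 ^ (K₄ * (Nat.log 2 n + 1)) := by
      have : u < 2 ^ (K₄ * (Nat.log 2 n + 1)) := by omega
      exact_mod_cast this
    constructor <;> linarith [h1.1, h1.2]
  · intro u v _ hv _
    omega
  · have e1 : (((1 : ℕ) : ℝ) / (2 * ((1 : ℕ) : ℝ) - 1)) = 1 := by norm_num
    rw [e1, Real.rpow_one, hcl, hcb, show (1 : ℝ) + 1 = 2 by norm_num]
    calc ((n + 2 + t : ℕ) : ℝ) * ((K₂ : ℝ) * l + ((K₄ : ℝ) * l + l)) * ((K₄ : ℝ) * l + l) ^ 4 =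
        κ' * (((n + 2 + t : ℕ) : ℝ) * l ^ 5) := by
          rw [hκ']
          ring
      _ ≤ κ' * ((4400 + |C| * (B : ℝ) ^ 3) * ((n : ℝ) + 1) ^ (2 : ℝ)) :=
        mul_le_mul_of_nonneg_left hr5 hκ0
      _ ≤ (κ' * (4400 + |C| * (B : ℝ) ^ 3) + κ' * 2200) * ((n : ℝ) + 1) ^ (2 : ℝ) := by
        have : 0 ≤ κ' * 2200 * ((n : ℝ) + 1) ^ (2 : ℝ) := by positivity
        linarith
  · rw [hcl, hcb]
    have h3 : l ^ 3 ≤ l ^ 6 := pow_le_pow_right₀ hl1 (by norm_num)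
    have hk4 : (1 : ℝ) ≤ ((K₄ : ℝ) + 1) ^ 2 := by
      refine one_le_pow₀ ?_
      have : (0 : ℝ) ≤ (K₄ : ℝ) := Nat.cast_nonneg _
      linarith
    calc ((K₂ : ℝ) * l + ((K₄ : ℝ) * l + l)) * ((K₄ : ℝ) * l + l) ^ 2 =
        (((K₂ : ℝ) + K₄ + 1) * ((K₄ : ℝ) + 1) ^ 2 * 1) * l ^ 3 := by ring
      _ ≤ (((K₂ : ℝ) + K₄ + 1) * ((K₄ : ℝ) + 1) ^ 2 * ((K₄ : ℝ) + 1) ^ 2) * l ^ 3 := by
        gcongr
      _ = κ' * l ^ 3 := by
        rw [hκ']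
        ring
      _ ≤ κ' * (2200 * ((n : ℝ) + 1)) := mul_le_mul_of_nonneg_left (h3.trans h6) hκ0
      _ ≤ (κ' * (4400 + |C| * (B : ℝ) ^ 3) + κ' * 2200) * ((n : ℝ) + 1) := by
        have : 0 ≤ κ' * (4400 + |C| * (B : ℝ) ^ 3) * ((n : ℝ) + 1) := by positivity
        linarith
  · rw [Nat.cast_zero, zero_mul]
    exact mul_nonneg (add_nonneg (mul_nonneg hκ0 (by linarith)) (by linarith)) (by linarith)

end multi

section one

variable {D : LD} {M : TM 1} {code : M.Sym → List Bool} {A : OneHead 1}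

/-- **Fast computations of machines with one work tape are within the bounds.** -/
theorem within_one (hb : code M.blank = []) (hA : SmL1 D M code A)
    {F : List Bool → List Bool} (hF : D.Is F) {b : ℕ}
    (hlen : ∀ w, (F w).length ≤ b * (w.length + 1)) (hle : ∀ w, w.length ≤ (F w).length)
    (E : Decomp) (c κ : ℕ) (C : ℝ) : ∃ C' : ℝ, ∀ w y : List Bool, y.length ≤ κ * w.length →
      InTime M (fun n => C * ((n : ℝ) + 1) ^ ((5 : ℝ) / 2) / ((Nat.log 2 n : ℝ) + 1) ^ 6)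
        (F w ++ y) → Pool.Agent.Helper92.RECT.Within A E c C' w y := by
  obtain ⟨B, hB⟩ : ∃ B : ℕ, B = b + κ + 2 := ⟨_, rfl⟩
  obtain ⟨K₂, hfit⟩ := fits_one hb hA hF B
  obtain ⟨C₀, hC₀⟩ := exists_nat_ge |C|
  obtain ⟨K₄, hK₄⟩ : ∃ K : ℕ, K = Nat.log 2 (2 + C₀ * B ^ 3) + 2 + 3 := ⟨_, rfl⟩
  obtain ⟨C₁, hC₁⟩ : ∃ x : ℝ, x = 4400 + |C| * (B : ℝ) ^ 3 := ⟨_, rfl⟩
  have hC₁0 : 0 ≤ C₁ := by
    rw [hC₁]
    positivity
  obtain ⟨C', hC'⟩ := within3 A E c (K₂ + 2 * K₄ + 3) (2 * C₁ + 2200)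
  refine ⟨C', fun w y hy ⟨t, hacc, ht⟩ => ?_⟩
  have hx := len_append hlen hy
  rw [← hB] at hx
  have hwx : w.length ≤ (F w ++ y).length := by
    rw [List.length_append]
    exact (hle w).trans (Nat.le_add_right _ _)
  set n := w.length with hn
  set m := (F w ++ y).length with hm
  have ht2 : (t : ℝ) ≤ C * ((m : ℝ) + 1) ^ ((5 : ℝ) / 2) / ((Nat.log 2 m : ℝ) + 1) ^ 6 := ht
  have hr := time_le (j := 3) hC₀ hx (by norm_num) ht2
  have hr6 := time_log hx hwx (by omega) le_rfl (by norm_num) (by norm_num) ht2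
  rw [← hK₄] at hr
  rw [← hC₁] at hr6
  have hl0 : (0 : ℝ) ≤ (Nat.log 2 n : ℝ) := Nat.cast_nonneg _
  set l : ℝ := (Nat.log 2 n : ℝ) + 1 with hl
  have hl1 : 1 ≤ l := by linarith
  have hN1 : (1 : ℝ) ≤ (n : ℝ) + 1 := by
    have : (0 : ℝ) ≤ (n : ℝ) := Nat.cast_nonneg _
    linarith
  have hN0 : (0 : ℝ) < (n : ℝ) + 1 := by linarith
  set N : ℝ := (n : ℝ) + 1 with hN
  have h6 : l ^ 6 ≤ 2200 * N := lam6 n
  have hl3 : (0 : ℝ) < l ^ 3 := by positivity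
  set r : ℕ := n + 2 + t with hrdef
  set ρ : ℝ := N ^ ((3 : ℝ) / 2) / l ^ 3 with hρ
  have hρ0 : 0 < ρ := by positivity
  have hB0 : 0 < ⌈ρ⌉₊ := Nat.ceil_pos.2 hρ0
  have hrK : r ≤ (n + 2) ^ (2 * K₄) := by
    calc r ≤ 2 ^ (K₄ * (Nat.log 2 n + 1)) := hr.le
      _ = (2 ^ (Nat.log 2 n + 1)) ^ K₄ := by rw [mul_comm, pow_mul]
      _ ≤ ((n + 2) ^ 2) ^ K₄ := by
          refine Nat.pow_le_pow_left ?_ _
          have := two_pow_log n
          nlinarith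
      _ = _ := by rw [← pow_mul]
  have hBK : ⌈ρ⌉₊ ≤ (n + 2) ^ 2 := by
    have h1 : ρ ≤ ((n + 1) ^ 2 : ℕ) := by
      have e1 : N ^ ((3 : ℝ) / 2) ≤ N ^ (2 : ℝ) :=
        Real.rpow_le_rpow_of_exponent_le hN1 (by norm_num)
      have e2 : N ^ (2 : ℝ) = N ^ 2 := by
        exact_mod_cast Real.rpow_natCast N 2
      have e3 : ρ ≤ N ^ ((3 : ℝ) / 2) := div_le_self (by positivity) (one_le_pow₀ hl1)
      push_cast
      calc ρ ≤ N ^ 2 := by rw [← e2]; exact e3.trans e1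
        _ = _ := rfl
    calc ⌈ρ⌉₊ ≤ (n + 1) ^ 2 := Nat.ceil_le.2 h1
      _ ≤ (n + 2) ^ 2 := Nat.pow_le_pow_left (by omega) _
  refine hC' w y r (K₄ * (Nat.log 2 n + 1)) 0 (max r (r / ⌈ρ⌉₊)) (2 * (r / ⌈ρ⌉₊) + 1) ?_ ?_ ?_
    ?_ ?_ ?_ ?_ ?_ ?_
  · obtain ⟨⟨f, d, e1, e2⟩, -⟩ := simL1 hb hA hF w y (t + 1)
    have e3 : r = n + 1 + (t + 1) := by omega
    show (A.conf w y r).q.head? = some true
    rw [e3, e1, stW_head, e2.2 ⟨t, rfl, hacc⟩]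
  · exact hrK.trans (Nat.pow_le_pow_right (by omega) (by omega))
  · intro u hu
    obtain ⟨g1, g2, g3⟩ := hfit w y hx hwx r u hu
    have hmono : K₂ * (Nat.log 2 n + 1) ≤ (K₂ + 2 * K₄ + 3) * (Nat.log 2 n + 1) :=
      Nat.mul_le_mul_right _ (by omega)
    exact ⟨g1.trans hmono, g2.trans hmono, fun z => (g3 z).trans hmono⟩
  · exact Nat.mul_le_mul_right _ (by omega)
  · intro u hu i
    have h1 := pos_bd A w y u
    have h2 : fst (A.conf w y u).h = (A.conf w y u).h i := by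
      rw [Pool.Agent.Helper92.RECTT.fst_one]
      exact congrArg _ (Subsingleton.elim _ _)
    rw [h2] at h1
    have h3 : (u : ℤ) < 2 ^ (K₄ * (Nat.log 2 n + 1)) := by
      have : u < 2 ^ (K₄ * (Nat.log 2 n + 1)) := by omega
      exact_mod_cast this
    constructor <;> linarith [h1.1, h1.2]
  · intro u u' _ hu' _ R s h hR
    have hR1 : (n + 2) ^ (2 * K₄) ≤ 2 ^ R :=
      (Nat.pow_le_pow_right (by omega) (by omega)).trans hR
    have hR2 : (n + 2) ^ 2 ≤ 2 ^ R :=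
      (Nat.pow_le_pow_right (by omega) (by omega)).trans hR
    refine cut3 A w y hB0 (hBK.trans hR2) (hrK.trans hR1) hu' ?_ (fun z z' _ _ => ?_) s h
    · exact Nat.lt_mul_div_succ r hB0
    · have h7 : {v : ℕ | u ≤ v ∧ v < u' ∧ z ≤ fst (A.conf w y v).h ∧
          fst (A.conf w y v).h < z'} ⊆ ((Finset.range r : Finset ℕ) : Set ℕ) := by
        rintro v ⟨-, h8, -⟩
        rw [Finset.mem_coe, Finset.mem_range]
        omega
      refine (Set.ncard_le_ncard h7 (Finset.finite_toSet _)).trans ?_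
      rw [Set.ncard_coe_finset, Finset.card_range]
  · have e1 : max r (r / ⌈ρ⌉₊) = r := max_eq_left (Nat.div_le_self _ _)
    rw [e1]
    calc (r : ℝ) * l ^ 6 ≤ C₁ * N ^ ((5 : ℝ) / 2) := hr6
      _ ≤ (2 * C₁ + 2200) * N ^ ((5 : ℝ) / 2) := by
        have : 0 ≤ (C₁ + 2200) * N ^ ((5 : ℝ) / 2) := by positivity
        linarith
  · have e1 : ((r / ⌈ρ⌉₊ : ℕ) : ℝ) ≤ (r : ℝ) / ρ := by
      have g1 : ((r / ⌈ρ⌉₊ : ℕ) : ℝ) ≤ (r : ℝ) / (⌈ρ⌉₊ : ℝ) := Nat.cast_div_le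
      refine g1.trans ?_
      exact div_le_div_of_nonneg_left (Nat.cast_nonneg r) hρ0 (Nat.le_ceil ρ)
    have e2 : (r : ℝ) / ρ * l ^ 3 ≤ C₁ * N := by
      have g1 : (r : ℝ) / ρ * l ^ 3 = (r : ℝ) * l ^ 6 / N ^ ((3 : ℝ) / 2) := by
        rw [hρ]
        field_simp
      have g2 : N * N ^ ((3 : ℝ) / 2) = N ^ ((5 : ℝ) / 2) := by
        nth_rewrite 1 [← Real.rpow_one N]
        rw [← Real.rpow_add hN0]
        norm_num
      rw [g1, div_le_iff₀ (by positivity)]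
      calc (r : ℝ) * l ^ 6 ≤ C₁ * N ^ ((5 : ℝ) / 2) := hr6
        _ = C₁ * N * N ^ ((3 : ℝ) / 2) := by rw [← g2]; ring
    have e3 : l ^ 3 ≤ 2200 * N := (pow_le_pow_right₀ hl1 (by norm_num)).trans h6
    push_cast
    calc (2 * ((r / ⌈ρ⌉₊ : ℕ) : ℝ) + 1) * l ^ 3 = 2 * (((r / ⌈ρ⌉₊ : ℕ) : ℝ) * l ^ 3) + l ^ 3 := by
          ring
      _ ≤ 2 * ((r : ℝ) / ρ * l ^ 3) + l ^ 3 := by gcongr
      _ ≤ 2 * (C₁ * N) + 2200 * N := by linarith
      _ = (2 * C₁ + 2200) * N := by ring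
  · rw [Nat.cast_zero, zero_mul]
    exact mul_nonneg (by linarith) hN0.le

end one

end Pool.Agent.Helper92.RE
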