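import Pool.Agent.Helper92.RE.Sim
import Pool.Agent.Helper31.TMS.Mach
import Pool.Agent.Helper31.TMS.Defs

/-!
# Turing machines on the words `F w y`: the functions of the machines which simulate them
-/

namespace Pool.Agent.Helper92.RE

open Pool.Agent.Helper65.LinSpace Pool.Agent.Helper78.Mpc Pool.Agent.Helper28.Ram
open Pool.Agent.Helper65.OH (letW mv OneHead)
open Pool.Agent.Helper20.MH (MultiHead Conf)
open Pool.Agent.Helper31.TMS (stW idx idx_inj pos sym stW_inj sd_inj letW_inj ls_stW
  ls_pos le_num_stW num_le_sd num_mono_left num_le_append exists_linComp bits_inj)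
open Pool.Agent.Helper81.RP (lett ls_pair)

variable {k : ℕ} (D : LD) (M : TM k)

/-- The number of a state, or of the phase in which the length is computed. -/
noncomputable def idO (σ : Option M.State) : ℕ := σ.elim 0 fun σ => idx M σ + 1

theorem idO_inj {σ σ' : Option M.State} (h : idO M σ = idO M σ') : σ = σ' := by
  rcases σ with _ | σ <;> rcases σ' with _ | σ'
  · rfl
  · exact absurd h (Nat.succ_ne_zero _).symm
  · exact absurd h (Nat.succ_ne_zero _)
  · have h1 : idx M σ + 1 = idx M σ' + 1 := h
    rw [idx_inj M (Nat.succ.inj h1)]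

/-- What the machine sees in a step. -/
abbrev TupL : Type :=
  Bool × (Fin k → Dir) × Option M.State × Option Bool × Option Bool × (Fin k → M.Sym)

/-- The letter with the number `v`. -/
def optL (v : ℕ) : Option Bool := if v = 0 then none else if v = 1 then some false else some true

theorem optL_lett (x : Option Bool) : optL (lett x) = x := by
  rcases x with _ | _ | _ <;> rfl

/-- The new state word if `a` is the letter under the input head. -/
noncomputable def resL (σ : M.State) (a : Option Bool) (s : Fin k → M.Sym) (p n : ℕ) : List Bool :=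
  open Classical in
  match M.step σ a s with
  | none => stW (k := k) (decide (σ ∈ M.accept)) (fun _ => Dir.stay) (idO M (some σ)) (Nat.pair p n)
  | some x => stW false (fun j => (x.2.2 j).2) (idO M (some x.1)) (Nat.pair (pos a x.2.1 p) n)

/-- The letter under the input head. -/
def letL (a b : Option Bool) (p n : ℕ) : Option Bool :=
  if p = 0 then none else optL (ltv D n (p - 1) (lett a + 3 * lett b))

/-- The new state word. -/
noncomputable def outL (t : TupL M) (q : ℕ) : List Bool :=
  match t.2.2.1 with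
  | none => if t.2.2.2.1 = none then
      stW (k := k) false (fun _ => Dir.stay) (idO M (some M.start)) (Nat.pair 0 q.unpair.2)
    else stW (k := k) false (fun _ => Dir.stay) (idO M none) (Nat.pair 0 (q.unpair.2 + 1))
  | some σ => resL M σ (letL D t.2.2.2.1 t.2.2.2.2.1 q.unpair.1 q.unpair.2) t.2.2.2.2.2
      q.unpair.1 q.unpair.2

/-- The written symbol. -/
def symL (j : Fin k) (t : TupL M) (q : ℕ) : M.Sym :=
  match t.2.2.1 with
  | none => t.2.2.2.2.2 j
  | some σ => sym M σ (letL D t.2.2.2.1 t.2.2.2.2.1 q.unpair.1 q.unpair.2) t.2.2.2.2.2 j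

/-- The number of the letter which is read. -/
def adrL (σ : Option M.State) (q : ℕ) : ℕ :=
  match σ with
  | none => q.unpair.2
  | some _ => adr D q.unpair.2 (q.unpair.1 - 1)

/-! ### Linear space -/

theorem ls_resL (σ : M.State) (a : Option Bool) (s : Fin k → M.Sym) :
    LS (fun q : ℕ => num (resL M σ a s q.unpair.1 q.unpair.2)) := by
  classical
  cases hs : M.step σ a s with
  | none =>
    have e : (fun q : ℕ => num (resL M σ a s q.unpair.1 q.unpair.2)) = fun q : ℕ =>
        num (stW (k := k) (decide (σ ∈ M.accept)) (fun _ => Dir.stay) (idO M (some σ))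
          (Nat.pair q.unpair.1 q.unpair.2)) := by
      funext q
      unfold resL
      rw [hs]
    rw [e]
    exact ls_stW (f := fun q : ℕ => Nat.pair q.unpair.1 q.unpair.2)
      (ls_pair (f := fun q : ℕ => q.unpair.1) (g := fun q : ℕ => q.unpair.2) (by fun_prop)
        (by fun_prop)) _ _ _
  | some x =>
    have e : (fun q : ℕ => num (resL M σ a s q.unpair.1 q.unpair.2)) = fun q : ℕ =>
        num (stW (k := k) false (fun j => (x.2.2 j).2) (idO M (some x.1))
          (Nat.pair (pos a x.2.1 q.unpair.1) q.unpair.2)) := by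
      funext q
      unfold resL
      rw [hs]
    rw [e]
    have h := LS.comp (g := pos a x.2.1) (ls_pos a x.2.1) (f := fun q : ℕ => q.unpair.1)
      (by fun_prop)
    exact ls_stW (f := fun q : ℕ => Nat.pair (pos a x.2.1 q.unpair.1) q.unpair.2)
      (ls_pair (g := fun q : ℕ => q.unpair.2) h (by fun_prop)) _ _ _

/-- A function of the letter under the input head. -/
theorem ls_letL (a b : Option Bool) {G : Option Bool → ℕ → ℕ} (hG : ∀ x, LS (G x)) :
    LS (fun q : ℕ => G (letL D a b q.unpair.1 q.unpair.2) q) := by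
  have e : (fun q : ℕ => G (letL D a b q.unpair.1 q.unpair.2) q) = fun q =>
      ifz q.unpair.1 (G none q)
        (ifz (ltv D q.unpair.2 (q.unpair.1 - 1) (lett a + 3 * lett b)) (G none q)
          (ifz (ltv D q.unpair.2 (q.unpair.1 - 1) (lett a + 3 * lett b) - 1) (G (some false) q)
            (G (some true) q))) := by
    funext q
    unfold letL optL ifz
    by_cases h0 : q.unpair.1 = 0
    · rw [if_pos h0, if_pos h0]
    · rw [if_neg h0, if_neg h0]
      by_cases h1 : ltv D q.unpair.2 (q.unpair.1 - 1) (lett a + 3 * lett b) = 0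
      · rw [if_pos h1, if_pos h1]
      · rw [if_neg h1, if_neg h1]
        by_cases h2 : ltv D q.unpair.2 (q.unpair.1 - 1) (lett a + 3 * lett b) = 1
        · rw [if_pos h2, if_pos (by omega)]
        · rw [if_neg h2, if_neg (by omega)]
  rw [e]
  have h1 : LS (fun q : ℕ => ltv D q.unpair.2 (q.unpair.1 - 1) (lett a + 3 * lett b)) :=
    ls_ltv D (by fun_prop) (by fun_prop) (LS.const _)
  have h2 := hG none
  have h3 := hG (some false)
  have h4 := hG (some true)
  exact LS.ifz (by fun_prop) h2 (LS.ifz h1 h2 (LS.ifz (by fun_prop) h3 h4))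

theorem ls_outL (t : TupL M) : LS (fun q => num (outL D M t q)) := by
  obtain ⟨f, d, σ, a, b, s⟩ := t
  rcases σ with _ | σ
  · by_cases h : a = none
    · have e : (fun q => num (outL D M (f, d, none, a, b, s) q)) = fun q : ℕ =>
          num (stW (k := k) false (fun _ => Dir.stay) (idO M (some M.start))
            (Nat.pair 0 q.unpair.2)) := by
        funext q
        unfold outL
        simp only [h, if_true]
      rw [e]
      exact ls_stW (f := fun q : ℕ => Nat.pair 0 q.unpair.2)
        (ls_pair (f := fun _ : ℕ => 0) (g := fun q : ℕ => q.unpair.2) (LS.const 0)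
          (by fun_prop)) _ _ _
    · have e : (fun q => num (outL D M (f, d, none, a, b, s) q)) = fun q : ℕ =>
          num (stW (k := k) false (fun _ => Dir.stay) (idO M none)
            (Nat.pair 0 (q.unpair.2 + 1))) := by
        funext q
        unfold outL
        simp only [h, if_false]
      rw [e]
      exact ls_stW (f := fun q : ℕ => Nat.pair 0 (q.unpair.2 + 1))
        (ls_pair (f := fun _ : ℕ => 0) (g := fun q : ℕ => q.unpair.2 + 1) (LS.const 0)
          (by fun_prop)) _ _ _
  · exact ls_letL D a b (G := fun x q => num (resL M σ x s q.unpair.1 q.unpair.2))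
      fun x => ls_resL M σ x s

theorem ls_symL (code : M.Sym → List Bool) (j : Fin k) (t : TupL M) :
    LS (fun q => num (code (symL D M j t q))) := by
  obtain ⟨f, d, σ, a, b, s⟩ := t
  rcases σ with _ | σ
  · exact LS.const (α := ℕ) (num (code (s j)))
  · exact ls_letL D a b (G := fun x _ => num (code (sym M σ x s j))) fun x =>
      LS.const (α := ℕ) (num (code (sym M σ x s j)))

theorem ls_adrL (σ : Option M.State) : LS (adrL D M σ) := by
  rcases σ with _ | σ
  · show LS fun q : ℕ => q.unpair.2
    fun_prop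
  · exact ls_adr D (n := fun q : ℕ => q.unpair.2) (u := fun q : ℕ => q.unpair.1 - 1) (by fun_prop)
      (by fun_prop)

/-! ### Machines with several heads -/

section multi

variable (code : M.Sym → List Bool)

/-- The word which `next` gets. -/
noncomputable def encL (t : TupL M) (q : ℕ) : List Bool :=
  sd (stW t.1 t.2.1 (idO M t.2.2.1) q) ++ (letW t.2.2.2.1 ++ (letW t.2.2.2.2.1 ++
    (List.finRange k).flatMap fun i => sd (code (t.2.2.2.2.2 i))))

variable {code}

theorem encL_inj (hc : Function.Injective code) {t t' : TupL M} {q q' : ℕ}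
    (h : encL M code t q = encL M code t' q') : t = t' ∧ q = q' := by
  obtain ⟨f, d, σ, a, b, s⟩ := t
  obtain ⟨f', d', σ', a', b', s'⟩ := t'
  obtain ⟨h1, h2⟩ := sd_inj h
  obtain ⟨h3, h4, h5, h6⟩ := stW_inj h1
  obtain ⟨h7, h8⟩ := letW_inj h2
  obtain ⟨h9, h10⟩ := letW_inj h8
  have h11 := (Pool.Agent.Helper31.TMS.flatMap_inj (v := fun i => code (s i)) (v' := fun i => code (s' i))
    (l := List.finRange k) (r := []) (r' := []) (by simpa using h10)).1
  have h12 : s = s' := by
    funext i
    exact hc (h11 i (List.mem_finRange i))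
  have h13 : σ = σ' := idO_inj M h5
  subst h12 h13
  simp only at h3 h4 h7 h9
  rw [h3, h4, h7, h9]
  exact ⟨rfl, h6⟩

theorem le_encL (t : TupL M) (q : ℕ) : q ≤ num (encL M code t q) :=
  (le_num_stW _ _ _ _).trans ((num_le_sd _).trans (num_mono_left _ _))

theorem ls_encL (t : TupL M) : LS (fun q => num (encL M code t q)) := by
  have e : (fun q => num (encL M code t q)) = fun q =>
      catN (sdN (num (stW t.1 t.2.1 (idO M t.2.2.1) q)))
        (num (letW t.2.2.2.1 ++ (letW t.2.2.2.2.1 ++
          (List.finRange k).flatMap fun i => sd (code (t.2.2.2.2.2 i))))) := by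
    funext q
    rw [sdN_num, catN_num]
    rfl
  rw [e]
  have := ls_stW (f := fun q => q) LS.id t.1 t.2.1 (idO M t.2.2.1)
  fun_prop

/-- The machine `A` simulates `M` on the words `F w y`. -/
structure SmL (code : M.Sym → List Bool) (A : MultiHead 1 k) : Prop where
  start : A.start = stW (k := k) false (fun _ => Dir.stay) (idO M none) (Nat.pair 0 0)
  tape : ∀ j, A.tape j = j
  addr : ∀ (f : Bool) (d : Fin k → Dir) (σ : Option M.State) (q : ℕ),
    A.addr (stW f d (idO M σ) q) = (adrL D M σ q).bits
  next : ∀ t q, A.next (encL M code t q) = outL D M t q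
  write : ∀ (j : Fin k) t q, A.write (sd (j : ℕ).bits ++ encL M code t q) = code (symL D M j t q)

theorem exists_machL (hc : Function.Injective code) : ∃ A : MultiHead 1 k, SmL D M code A := by
  have := M.finState
  have := M.finSym
  obtain ⟨f1, l1, h1⟩ := exists_linComp (τ := Bool × (Fin k → Dir) × Option M.State)
    (fun t q => stW t.1 t.2.1 (idO M t.2.2) q) (fun t q => (adrL D M t.2.2 q).bits)
    (fun t q => num (stW t.1 t.2.1 (idO M t.2.2) q)) (fun t q => bitsN (adrL D M t.2.2 q))
    (fun t => ls_stW LS.id _ _ _) (fun t => LS.bitsN (ls_adrL D M t.2.2)) (fun _ _ => rfl)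
    (fun t q => bitsN_eq _) (fun t t' q q' h => by
      obtain ⟨h3, h4, h5, h6⟩ := stW_inj h
      obtain ⟨f, d, σ⟩ := t
      obtain ⟨f', d', σ'⟩ := t'
      have h13 : σ = σ' := idO_inj M h5
      subst h13
      simp only at h3 h4
      rw [h3, h4]
      exact ⟨rfl, h6⟩) (fun t q => le_num_stW _ _ _ _)
  obtain ⟨f2, l2, h2⟩ := exists_linComp (encL M code) (outL D M)
    (fun t q => num (encL M code t q))
    (fun t q => num (outL D M t q)) (ls_encL M) (ls_outL D M) (fun _ _ => rfl) (fun _ _ => rfl)
    (fun t t' q q' h => encL_inj M hc h) (fun t q => le_encL M t q)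
  obtain ⟨f3, l3, h3⟩ := exists_linComp (τ := Fin k × TupL M)
    (fun t q => sd (t.1 : ℕ).bits ++ encL M code t.2 q) (fun t q => code (symL D M t.1 t.2 q))
    (fun t q => catN (num (sd (t.1 : ℕ).bits)) (num (encL M code t.2 q)))
    (fun t q => num (code (symL D M t.1 t.2 q))) (fun t => by
      have := ls_encL M (code := code) t.2
      fun_prop) (fun t => ls_symL D M code t.1 t.2) (fun _ _ => catN_num _ _) (fun _ _ => rfl)
    (fun t t' q q' h => by
      obtain ⟨g1, g2⟩ := sd_inj h
      obtain ⟨g3, g4⟩ := encL_inj M hc g2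
      exact ⟨Prod.ext (Fin.ext (bits_inj g1)) g3, g4⟩)
    (fun t q => (le_encL M t.2 q).trans (num_le_append _ _))
  exact ⟨⟨stW false (fun _ => Dir.stay) (idO M none) (Nat.pair 0 0), fun j => j, f1, f2, f3, l1,
    l2, l3⟩, ⟨rfl, fun _ => rfl, fun f d σ q => h1 (f, d, σ) q, h2, fun j t q => h3 (j, t) q⟩⟩

end multi

/-! ### Machines with one head -/

section one

variable (M : TM 1) (code : M.Sym → List Bool)

/-- The word which `next` gets. -/
noncomputable def encL1 (t : TupL M) (q : ℕ) : List Bool :=
  sd (stW t.1 t.2.1 (idO M t.2.2.1) q) ++ (letW t.2.2.2.1 ++ (letW t.2.2.2.2.1 ++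
    code (t.2.2.2.2.2 0)))

variable {code}

theorem encL1_inj (hc : Function.Injective code) {t t' : TupL M} {q q' : ℕ}
    (h : encL1 M code t q = encL1 M code t' q') : t = t' ∧ q = q' := by
  obtain ⟨f, d, σ, a, b, s⟩ := t
  obtain ⟨f', d', σ', a', b', s'⟩ := t'
  obtain ⟨h1, h2⟩ := sd_inj h
  obtain ⟨h3, h4, h5, h6⟩ := stW_inj h1
  obtain ⟨h7, h8⟩ := letW_inj h2
  obtain ⟨h9, h10⟩ := letW_inj h8
  have h12 : s = s' := by
    funext i
    rw [Subsingleton.elim i 0]
    exact hc h10
  have h13 : σ = σ' := idO_inj M h5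
  subst h12 h13
  simp only at h3 h4 h7 h9
  rw [h3, h4, h7, h9]
  exact ⟨rfl, h6⟩

theorem le_encL1 (t : TupL M) (q : ℕ) : q ≤ num (encL1 M code t q) :=
  (le_num_stW _ _ _ _).trans ((num_le_sd _).trans (num_mono_left _ _))

theorem ls_encL1 (t : TupL M) : LS (fun q => num (encL1 M code t q)) := by
  have e : (fun q => num (encL1 M code t q)) = fun q =>
      catN (sdN (num (stW t.1 t.2.1 (idO M t.2.2.1) q)))
        (num (letW t.2.2.2.1 ++ (letW t.2.2.2.2.1 ++ code (t.2.2.2.2.2 0)))) := by
    funext q
    rw [sdN_num, catN_num]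
    rfl
  rw [e]
  have := ls_stW (f := fun q => q) LS.id t.1 t.2.1 (idO M t.2.2.1)
  fun_prop

/-- The machine `A` simulates `M` on the words `F w y`. -/
structure SmL1 (code : M.Sym → List Bool) (A : OneHead 1) : Prop where
  start : A.start = stW (k := 1) false (fun _ => Dir.stay) (idO M none) (Nat.pair 0 0)
  addr : ∀ (f : Bool) (d : Fin 1 → Dir) (σ : Option M.State) (q : ℕ),
    A.addr (stW f d (idO M σ) q) = (adrL D M σ q).bits
  next : ∀ t q, A.next (encL1 M code t q) = outL D M t q
  write : ∀ t q, A.write (encL1 M code t q) = code (symL D M 0 t q)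

theorem exists_machL1 (hc : Function.Injective code) : ∃ A : OneHead 1, SmL1 D M code A := by
  have := M.finState
  have := M.finSym
  obtain ⟨f1, l1, h1⟩ := exists_linComp (τ := Bool × (Fin 1 → Dir) × Option M.State)
    (fun t q => stW t.1 t.2.1 (idO M t.2.2) q) (fun t q => (adrL D M t.2.2 q).bits)
    (fun t q => num (stW t.1 t.2.1 (idO M t.2.2) q)) (fun t q => bitsN (adrL D M t.2.2 q))
    (fun t => ls_stW LS.id _ _ _) (fun t => LS.bitsN (ls_adrL D M t.2.2)) (fun _ _ => rfl)
    (fun t q => bitsN_eq _) (fun t t' q q' h => by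
      obtain ⟨h3, h4, h5, h6⟩ := stW_inj h
      obtain ⟨f, d, σ⟩ := t
      obtain ⟨f', d', σ'⟩ := t'
      have h13 : σ = σ' := idO_inj M h5
      subst h13
      simp only at h3 h4
      rw [h3, h4]
      exact ⟨rfl, h6⟩) (fun t q => le_num_stW _ _ _ _)
  obtain ⟨f2, l2, h2⟩ := exists_linComp (encL1 M code) (outL D M)
    (fun t q => num (encL1 M code t q))
    (fun t q => num (outL D M t q)) (ls_encL1 M) (ls_outL D M) (fun _ _ => rfl) (fun _ _ => rfl)
    (fun t t' q q' h => encL1_inj M hc h) (fun t q => le_encL1 M t q)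
  obtain ⟨f3, l3, h3⟩ := exists_linComp (encL1 M code) (fun t q => code (symL D M 0 t q))
    (fun t q => num (encL1 M code t q)) (fun t q => num (code (symL D M 0 t q))) (ls_encL1 M)
    (fun t => ls_symL D M code 0 t) (fun _ _ => rfl) (fun _ _ => rfl)
    (fun t t' q q' h => encL1_inj M hc h) (fun t q => le_encL1 M t q)
  exact ⟨⟨stW false (fun _ => Dir.stay) (idO M none) (Nat.pair 0 0), f1, f2, f3, l1,
    l2, l3⟩, ⟨rfl, fun f d σ q => h1 (f, d, σ) q, h2, h3⟩⟩

end one

end Pool.Agent.Helper92.RE
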