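import Pool.Agent.Helper92.RE.TmL
import Pool.Agent.Helper20.TMS.Sim

/-!
# Turing machines on the words `F w y`: the simulation
-/

namespace Pool.Agent.Helper92.RE

open Pool.Agent.Helper65.LinSpace Pool.Agent.Helper78.Mpc Pool.Agent.Helper28.Ram
open Pool.Agent.Helper65.OH (letW mv OneHead)
open Pool.Agent.Helper20.MH (MultiHead Conf)
open Pool.Agent.Helper20.TMS (foldl_upd pos_eq run_succ_none run_succ_some)
open Pool.Agent.Helper31.TMS (stW idx idx_inj pos sym stW_inj sd_inj letW_inj ls_stW bval_bits
  ls_pos le_num_stW num_le_sd num_mono_left num_le_append exists_linComp bits_inj mv_stW stW_head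
  AcceptsAt)
open Pool.Agent.Helper81.RP (lett ls_pair)

/-- The letter under the input head. -/
theorem letL_eq {D : LD} {F : List Bool → List Bool} (hF : D.Is F) (w y : List Bool) (p : ℕ) :
    letL D w[adr D w.length (p - 1)]? y[adr D w.length (p - 1)]? p w.length =
      inputSym (F w ++ y) p := by
  unfold letL inputSym
  by_cases h : p = 0
  · rw [if_pos h, if_pos h]
  · rw [if_neg h, if_neg h, ltv_eq hF, optL_lett]

section multi

variable {k : ℕ} {D : LD} {M : TM k} {code : M.Sym → List Bool} {A : MultiHead 1 k}

/-- The configurations while the length is computed. -/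
theorem sim_cnt (hb : code M.blank = []) (hA : SmL D M code A) (w y : List Bool) {t : ℕ}
    (ht : t ≤ w.length + 1) :
    (A.conf w y t).q = (if t ≤ w.length then
      stW (k := k) false (fun _ => Dir.stay) (idO M none) (Nat.pair 0 t) else
      stW (k := k) false (fun _ => Dir.stay) (idO M (some M.start)) (Nat.pair 0 w.length)) ∧
    (∀ j, (A.conf w y t).h j = fun _ => 0) ∧ (∀ j z, (A.conf w y t).M j z = []) := by
  induction t with
  | zero =>
    refine ⟨?_, fun j => rfl, fun j z => rfl⟩
    rw [if_pos (Nat.zero_le _)]
    exact hA.start
  | succ t ih =>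
    obtain ⟨hq, hh, hM⟩ := ih (by omega)
    rw [if_pos (by omega)] at hq
    set c := A.conf w y t with hc
    have haddr : A.addr c.q = t.bits := by
      rw [hq, hA.addr]
      show (Nat.unpair (Nat.pair 0 t)).2.bits = _
      rw [Nat.unpair_pair]
    have hrd : ∀ i, A.rd c i = code M.blank := by
      intro i
      show c.M (A.tape i) (c.h i) = _
      rw [hM, hb]
    have hinp : A.inp w y c.q (A.rd c) = encL M code
        (false, fun _ => Dir.stay, none, w[t]?, y[t]?, fun _ => M.blank) (Nat.pair 0 t) := by
      unfold MultiHead.inp encL
      rw [haddr, bval_bits, hq]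
      simp only [hrd]
    have hnx : A.nx w y c = (if t + 1 ≤ w.length then
        stW (k := k) false (fun _ => Dir.stay) (idO M none) (Nat.pair 0 (t + 1)) else
        stW (k := k) false (fun _ => Dir.stay) (idO M (some M.start)) (Nat.pair 0 w.length)) := by
      unfold MultiHead.nx
      rw [hinp, hA.next]
      unfold outL
      simp only [Nat.unpair_pair]
      by_cases h : t + 1 ≤ w.length
      · rw [if_pos h, if_neg]
        rw [List.getElem?_eq_getElem (by omega)]
        exact Option.some_ne_none _
      · have h2 : t = w.length := by omega
        rw [if_neg h, if_pos]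
        · rw [h2]
        · rw [List.getElem?_eq_none (by omega)]
    have hmv : ∀ j : ℕ, j < k → mv (A.nx w y c) j = 0 := by
      intro j hj
      rw [hnx]
      split_ifs
      · have := mv_stW (k := k) false (fun _ => Dir.stay) (idO M none) (Nat.pair 0 (t + 1)) ⟨j, hj⟩
        simpa [Dir.toInt] using this
      · have := mv_stW (k := k) false (fun _ => Dir.stay) (idO M (some M.start))
          (Nat.pair 0 w.length) ⟨j, hj⟩
        simpa [Dir.toInt] using this
    have hwr : ∀ j, A.wr w y c j = [] := by
      intro j
      unfold MultiHead.wr
      rw [hinp, hA.write]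
      exact hb
    refine ⟨hnx, fun j => ?_, fun j z => ?_⟩
    · funext z
      show c.h j z + mv (A.nx w y c) (j * 1 + z) = 0
      have hz : (j : ℕ) * 1 + (z : ℕ) = (j : ℕ) := by
        have := z.2
        omega
      rw [hz, hmv _ j.2, hh]
      rfl
    · have hMs : (A.conf w y (t + 1)).M j =
          Function.update (c.M j) (c.h j) (A.wr w y c j) := by
        show (List.finRange k).foldl (fun M i => Function.update M (A.tape i)
          (Function.update (M (A.tape i)) (c.h i) (A.wr w y c i))) c.M j = _
        rw [foldl_upd A.tape hA.tape _ _ _ (List.nodup_finRange k)]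
        simp
      rw [hMs, hwr]
      by_cases hz : z = c.h j
      · rw [hz, Function.update_self]
      · rw [Function.update_of_ne hz, hM]

/-- The machine `A` simulates `M` on the word `F w y`. -/
theorem simL (hb : code M.blank = []) (hA : SmL D M code A) {F : List Bool → List Bool}
    (hF : D.Is F) (w y : List Bool) (t : ℕ) :
    (∃ f d, (A.conf w y (w.length + 1 + t)).q = stW (k := k) f d
        (idO M (some (M.run (F w ++ y) t).state))
        (Nat.pair (M.run (F w ++ y) t).inp w.length) ∧
      (f = true ↔ ∃ u, t = u + 1 ∧ AcceptsAt M (F w ++ y) u)) ∧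
    (∀ j, (A.conf w y (w.length + 1 + t)).h j = fun _ => (M.run (F w ++ y) t).head j) ∧
    (∀ j z, (A.conf w y (w.length + 1 + t)).M j z =
      code ((M.run (F w ++ y) t).tape j (z 0))) := by
  classical
  set x := F w ++ y with hx
  induction t with
  | zero =>
    obtain ⟨h1, h2, h3⟩ := sim_cnt hb hA w y (t := w.length + 1) le_rfl
    rw [if_neg (by omega)] at h1
    refine ⟨⟨false, fun _ => Dir.stay, h1, ?_⟩, fun j => ?_, fun j z => ?_⟩
    · simp
    · rw [add_zero, h2]
      rfl
    · rw [add_zero, h3]
      exact hb.symm
  | succ t ih =>
    obtain ⟨⟨f, d, hq, hf⟩, hh, hM⟩ := ih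
    set c := A.conf w y (w.length + 1 + t) with hc
    set R := M.run x t with hR
    -- what the machine reads
    have hp : R.inp ≤ x.length + 1 := Pool.Agent.Helper20.TMS.inp_le M x t
    have haddr : A.addr c.q = (adr D w.length (R.inp - 1)).bits := by
      rw [hq, hA.addr]
      show (adr D (Nat.unpair (Nat.pair R.inp w.length)).2
        ((Nat.unpair (Nat.pair R.inp w.length)).1 - 1)).bits = _
      rw [Nat.unpair_pair]
    have hrd : ∀ i, A.rd c i = code (R.tape i (R.head i)) := by
      intro i
      show c.M (A.tape i) (c.h i) = _
      rw [hA.tape, hM, hh]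
    have hinp : A.inp w y c.q (A.rd c) = encL M code
        (f, d, some R.state, w[adr D w.length (R.inp - 1)]?, y[adr D w.length (R.inp - 1)]?,
          fun i => R.tape i (R.head i)) (Nat.pair R.inp w.length) := by
      unfold MultiHead.inp encL
      rw [haddr, bval_bits, hq]
      simp only [hrd]
    have hlet := letL_eq hF w y R.inp
    have hnx : A.nx w y c = resL M R.state (inputSym x R.inp) (fun i => R.tape i (R.head i))
        R.inp w.length := by
      unfold MultiHead.nx
      rw [hinp, hA.next]
      unfold outL
      simp only [Nat.unpair_pair]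
      rw [hlet]
    have hwr : ∀ j, A.wr w y c j = code (sym M R.state (inputSym x R.inp)
        (fun i => R.tape i (R.head i)) j) := by
      intro j
      unfold MultiHead.wr
      rw [hinp, hA.write]
      unfold symL
      simp only [Nat.unpair_pair]
      rw [hlet]
    have hMs : ∀ j, (A.conf w y (w.length + 1 + (t + 1))).M j =
        Function.update (c.M j) (c.h j) (A.wr w y c j) := by
      intro j
      show (List.finRange k).foldl (fun M i => Function.update M (A.tape i)
        (Function.update (M (A.tape i)) (c.h i) (A.wr w y c i))) c.M j = _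
      rw [foldl_upd A.tape hA.tape _ _ _ (List.nodup_finRange k)]
      simp
    have hqs : (A.conf w y (w.length + 1 + (t + 1))).q = A.nx w y c := rfl
    have hhs : ∀ j z, (A.conf w y (w.length + 1 + (t + 1))).h j z =
        c.h j z + mv (A.nx w y c) (j * 1 + z) := by
      intro j z
      rfl
    cases hs : M.step R.state (inputSym x R.inp) (fun i => R.tape i (R.head i)) with
    | none =>
      obtain ⟨hrun, hnone⟩ := run_succ_none (M := M) (w := x) (t := t) hs
      have hres : A.nx w y c = stW (k := k) (decide (R.state ∈ M.accept)) (fun _ => Dir.stay)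
          (idO M (some R.state)) (Nat.pair R.inp w.length) := by
        rw [hnx]
        unfold resL
        rw [hs]
      rw [hrun, ← hR]
      refine ⟨⟨_, _, by rw [hqs]; exact hres, ?_⟩, fun j => ?_, fun j z => ?_⟩
      · rw [decide_eq_true_iff]
        constructor
        · intro h
          exact ⟨t, rfl, hnone, h⟩
        · rintro ⟨u, hu, -, h⟩
          obtain rfl : t = u := by omega
          exact h
      · funext z
        rw [hhs, hres, hh]
        have hz : (j : ℕ) * 1 + (z : ℕ) = (j : ℕ) := by
          have := z.2
          omega
        rw [hz, mv_stW]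
        simp [Dir.toInt]
      · rw [hMs, hwr, hh]
        have h1 : sym M R.state (inputSym x R.inp) (fun i => R.tape i (R.head i)) j =
            R.tape j (R.head j) := by
          unfold sym
          rw [hs]
        rw [h1]
        by_cases hz : z = fun _ => R.head j
        · rw [hz, Function.update_self]
        · rw [Function.update_of_ne hz, hM]
    | some X =>
      obtain ⟨hrun, hnone⟩ := run_succ_some (M := M) (w := x) (t := t) hs
      have hres : A.nx w y c = stW false (fun j => (X.2.2 j).2) (idO M (some X.1))
          (Nat.pair (inputMove x X.2.1 R.inp) w.length) := by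
        rw [hnx]
        unfold resL
        rw [hs]
        simp only [pos_eq x R.inp hp]
      rw [hrun, ← hR]
      refine ⟨⟨_, _, by rw [hqs]; exact hres, ?_⟩, fun j => ?_, fun j z => ?_⟩
      · constructor
        · intro h
          exact absurd h (by simp)
        · rintro ⟨u, hu, h, -⟩
          obtain rfl : t = u := by omega
          exact absurd h hnone
      · funext z
        rw [hhs, hres, hh]
        have hz : (j : ℕ) * 1 + (z : ℕ) = (j : ℕ) := by
          have := z.2
          omega
        rw [hz, mv_stW]
      · rw [hMs, hwr, hh]
        have h1 : sym M R.state (inputSym x R.inp) (fun i => R.tape i (R.head i)) j =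
            (X.2.2 j).1 := by
          unfold sym
          rw [hs]
        rw [h1]
        show _ = code (Function.update (R.tape j) (R.head j) (X.2.2 j).1 (z 0))
        by_cases hz : z 0 = R.head j
        · have hz2 : z = fun _ => R.head j := by
            funext i
            rw [Subsingleton.elim i 0]
            exact hz
          rw [hz, hz2, Function.update_self, Function.update_self]
        · have hz2 : z ≠ fun _ => R.head j := by
            intro h
            exact hz (by rw [h])
          rw [Function.update_of_ne hz, Function.update_of_ne hz2, hM]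

end multi

section one

variable {D : LD} {M : TM 1} {code : M.Sym → List Bool} {A : OneHead 1}

/-- The configurations while the length is computed. -/
theorem sim_cnt1 (hb : code M.blank = []) (hA : SmL1 D M code A) (w y : List Bool) {t : ℕ}
    (ht : t ≤ w.length + 1) :
    (A.conf w y t).q = (if t ≤ w.length then
      stW (k := 1) false (fun _ => Dir.stay) (idO M none) (Nat.pair 0 t) else
      stW (k := 1) false (fun _ => Dir.stay) (idO M (some M.start)) (Nat.pair 0 w.length)) ∧
    ((A.conf w y t).h = fun _ => 0) ∧ (∀ z, (A.conf w y t).M z = []) := by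
  induction t with
  | zero =>
    refine ⟨?_, rfl, fun z => rfl⟩
    rw [if_pos (Nat.zero_le _)]
    exact hA.start
  | succ t ih =>
    obtain ⟨hq, hh, hM⟩ := ih (by omega)
    rw [if_pos (by omega)] at hq
    set c := A.conf w y t with hc
    have haddr : A.addr c.q = t.bits := by
      rw [hq, hA.addr]
      show (Nat.unpair (Nat.pair 0 t)).2.bits = _
      rw [Nat.unpair_pair]
    have hrd : c.M c.h = code M.blank := by rw [hM, hb]
    have hinp : A.inp w y c.q (c.M c.h) = encL1 M code
        (false, fun _ => Dir.stay, none, w[t]?, y[t]?, fun _ => M.blank) (Nat.pair 0 t) := by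
      unfold OneHead.inp encL1
      rw [haddr, bval_bits, hq, hrd]
    have hnx : A.next (A.inp w y c.q (c.M c.h)) = (if t + 1 ≤ w.length then
        stW (k := 1) false (fun _ => Dir.stay) (idO M none) (Nat.pair 0 (t + 1)) else
        stW (k := 1) false (fun _ => Dir.stay) (idO M (some M.start)) (Nat.pair 0 w.length)) := by
      rw [hinp, hA.next]
      unfold outL
      simp only [Nat.unpair_pair]
      by_cases h : t + 1 ≤ w.length
      · rw [if_pos h, if_neg]
        rw [List.getElem?_eq_getElem (by omega)]
        exact Option.some_ne_none _
      · have h2 : t = w.length := by omega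
        rw [if_neg h, if_pos]
        · rw [h2]
        · rw [List.getElem?_eq_none (by omega)]
    have hmv : mv (A.next (A.inp w y c.q (c.M c.h))) 0 = 0 := by
      rw [hnx]
      split_ifs
      · have := mv_stW (k := 1) false (fun _ => Dir.stay) (idO M none) (Nat.pair 0 (t + 1)) 0
        simpa [Dir.toInt] using this
      · have := mv_stW (k := 1) false (fun _ => Dir.stay) (idO M (some M.start))
          (Nat.pair 0 w.length) 0
        simpa [Dir.toInt] using this
    have hwr : A.write (A.inp w y c.q (c.M c.h)) = [] := by
      rw [hinp, hA.write]
      exact hb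
    refine ⟨hnx, ?_, fun z => ?_⟩
    · funext z
      show c.h z + mv (A.next (A.inp w y c.q (c.M c.h))) z = 0
      have hz : (z : ℕ) = 0 := by
        have := z.2
        omega
      rw [hz, hmv, hh]
      rfl
    · show Function.update c.M c.h (A.write (A.inp w y c.q (c.M c.h))) z = []
      rw [hwr]
      by_cases hz : z = c.h
      · rw [hz, Function.update_self]
      · rw [Function.update_of_ne hz, hM]

/-- The machine `A` simulates `M` on the word `F w y`. -/
theorem simL1 (hb : code M.blank = []) (hA : SmL1 D M code A) {F : List Bool → List Bool}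
    (hF : D.Is F) (w y : List Bool) (t : ℕ) :
    (∃ f d, (A.conf w y (w.length + 1 + t)).q = stW (k := 1) f d
        (idO M (some (M.run (F w ++ y) t).state))
        (Nat.pair (M.run (F w ++ y) t).inp w.length) ∧
      (f = true ↔ ∃ u, t = u + 1 ∧ AcceptsAt M (F w ++ y) u)) ∧
    ((A.conf w y (w.length + 1 + t)).h = fun _ => (M.run (F w ++ y) t).head 0) ∧
    (∀ z, (A.conf w y (w.length + 1 + t)).M z = code ((M.run (F w ++ y) t).tape 0 (z 0))) := by
  classical
  set x := F w ++ y with hx
  induction t with
  | zero =>
    obtain ⟨h1, h2, h3⟩ := sim_cnt1 hb hA w y (t := w.length + 1) le_rfl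
    rw [if_neg (by omega)] at h1
    refine ⟨⟨false, fun _ => Dir.stay, h1, ?_⟩, ?_, fun z => ?_⟩
    · simp
    · rw [add_zero, h2]
      rfl
    · rw [add_zero, h3]
      exact hb.symm
  | succ t ih =>
    obtain ⟨⟨f, d, hq, hf⟩, hh, hM⟩ := ih
    set c := A.conf w y (w.length + 1 + t) with hc
    set R := M.run x t with hR
    have hp : R.inp ≤ x.length + 1 := Pool.Agent.Helper20.TMS.inp_le M x t
    have haddr : A.addr c.q = (adr D w.length (R.inp - 1)).bits := by
      rw [hq, hA.addr]
      show (adr D (Nat.unpair (Nat.pair R.inp w.length)).2
        ((Nat.unpair (Nat.pair R.inp w.length)).1 - 1)).bits = _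
      rw [Nat.unpair_pair]
    have hrd : c.M c.h = code (R.tape 0 (R.head 0)) := by rw [hM, hh]
    have hsy : (fun i => R.tape i (R.head i)) = fun _ : Fin 1 => R.tape 0 (R.head 0) := by
      funext i
      rw [Subsingleton.elim i 0]
    have hinp : A.inp w y c.q (c.M c.h) = encL1 M code
        (f, d, some R.state, w[adr D w.length (R.inp - 1)]?, y[adr D w.length (R.inp - 1)]?,
          fun i => R.tape i (R.head i)) (Nat.pair R.inp w.length) := by
      unfold OneHead.inp encL1
      rw [haddr, bval_bits, hq, hrd]
    have hlet := letL_eq hF w y R.inp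
    have hnx : A.next (A.inp w y c.q (c.M c.h)) = resL M R.state (inputSym x R.inp)
        (fun i => R.tape i (R.head i)) R.inp w.length := by
      rw [hinp, hA.next]
      unfold outL
      simp only [Nat.unpair_pair]
      rw [hlet]
    have hwr : A.write (A.inp w y c.q (c.M c.h)) = code (sym M R.state (inputSym x R.inp)
        (fun i => R.tape i (R.head i)) 0) := by
      rw [hinp, hA.write]
      unfold symL
      simp only [Nat.unpair_pair]
      rw [hlet]
    have hqs : (A.conf w y (w.length + 1 + (t + 1))).q = A.next (A.inp w y c.q (c.M c.h)) := rfl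
    have hhs : ∀ z, (A.conf w y (w.length + 1 + (t + 1))).h z =
        c.h z + mv (A.next (A.inp w y c.q (c.M c.h))) z := fun z => rfl
    have hMs : (A.conf w y (w.length + 1 + (t + 1))).M =
        Function.update c.M c.h (A.write (A.inp w y c.q (c.M c.h))) := rfl
    cases hs : M.step R.state (inputSym x R.inp) (fun i => R.tape i (R.head i)) with
    | none =>
      obtain ⟨hrun, hnone⟩ := run_succ_none (M := M) (w := x) (t := t) hs
      have hres : A.next (A.inp w y c.q (c.M c.h)) =
          stW (k := 1) (decide (R.state ∈ M.accept)) (fun _ => Dir.stay) (idO M (some R.state))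
            (Nat.pair R.inp w.length) := by
        rw [hnx]
        unfold resL
        rw [hs]
      rw [hrun, ← hR]
      refine ⟨⟨_, _, by rw [hqs]; exact hres, ?_⟩, ?_, fun z => ?_⟩
      · rw [decide_eq_true_iff]
        constructor
        · intro h
          exact ⟨t, rfl, hnone, h⟩
        · rintro ⟨u, hu, -, h⟩
          obtain rfl : t = u := by omega
          exact h
      · funext z
        rw [hhs, hres, hh, Subsingleton.elim z 0]
        have h1 := mv_stW (k := 1) (decide (R.state ∈ M.accept)) (fun _ => Dir.stay)
          (idO M (some R.state)) (Nat.pair R.inp w.length) 0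
        simp only [Fin.val_zero] at h1 ⊢
        rw [h1]
        simp [Dir.toInt]
      · rw [hMs, hwr, hh]
        have h1 : sym M R.state (inputSym x R.inp) (fun i => R.tape i (R.head i)) 0 =
            R.tape 0 (R.head 0) := by
          unfold sym
          rw [hs]
        rw [h1]
        by_cases hz : z = fun _ => R.head 0
        · rw [hz, Function.update_self]
        · rw [Function.update_of_ne hz, hM]
    | some X =>
      obtain ⟨hrun, hnone⟩ := run_succ_some (M := M) (w := x) (t := t) hs
      have hres : A.next (A.inp w y c.q (c.M c.h)) =
          stW false (fun j => (X.2.2 j).2) (idO M (some X.1))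
            (Nat.pair (inputMove x X.2.1 R.inp) w.length) := by
        rw [hnx]
        unfold resL
        rw [hs]
        simp only [pos_eq x R.inp hp]
      rw [hrun, ← hR]
      refine ⟨⟨_, _, by rw [hqs]; exact hres, ?_⟩, ?_, fun z => ?_⟩
      · constructor
        · intro h
          exact absurd h (by simp)
        · rintro ⟨u, hu, h, -⟩
          obtain rfl : t = u := by omega
          exact absurd h hnone
      · funext z
        rw [hhs, hres, hh, Subsingleton.elim z 0]
        have h1 := mv_stW (k := 1) false (fun j => (X.2.2 j).2) (idO M (some X.1))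
          (Nat.pair (inputMove x X.2.1 R.inp) w.length) 0
        simp only [Fin.val_zero] at h1 ⊢
        rw [h1]
      · rw [hMs, hwr, hh]
        have h1 : sym M R.state (inputSym x R.inp) (fun i => R.tape i (R.head i)) 0 =
            (X.2.2 0).1 := by
          unfold sym
          rw [hs]
        rw [h1]
        show _ = code (Function.update (R.tape 0) (R.head 0) (X.2.2 0).1 (z 0))
        by_cases hz : z 0 = R.head 0
        · have hz2 : z = fun _ => R.head 0 := by
            funext i
            rw [Subsingleton.elim i 0]
            exact hz
          rw [hz, hz2, Function.update_self, Function.update_self]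
        · have hz2 : z ≠ fun _ => R.head 0 := by
            intro h
            exact hz (by rw [h])
          rw [Function.update_of_ne hz, Function.update_of_ne hz2, hM]

end one

end Pool.Agent.Helper92.RE
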