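import Pool.Agent.Helper92.RE.Sim
import Pool.Agent.Helper81.RP.Good

/-!
# Programs on the words `F w` and `y` as machines with messages: bounds
-/

namespace Pool.Agent.Helper92.RE

open Pool.Agent.Helper65.LinSpace Pool.Agent.Helper78.Mpc Pool.Agent.Helper28.Ram
open Pool.Agent.Helper81.Sus2
open Pool.Agent.Helper81.RP (Ins lett step AcceptsAt wd wf num_wd wd_num wf_eq linComp_wf
  length_wd ls_pair hd tl ls_hd ls_tl hd_eq tl_eq a0 a1 dst npc uu ls_a1 ls_dst
  ls_npc selF selF_eq ls_selF isA accF accF_le accF_eq_one ls_accF wd_one head_name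
  wd_cons_false tl_read hd_read step_of head_wd bd pc_le a0_le a1_le pair_lt length_wd_le)

theorem length_sto {f p n u v s : ℕ} (hf : f ≤ 1) (hp : p < 2 ^ s) (hn : n < 2 ^ s)
    (hu : u < 2 ^ s) (hv : v < 2 ^ s) : (wd (sto f p n u v)).length ≤ 8 * s + 1 := by
  refine length_wd_le (sto_pos _ _ _ _ _) ?_
  have h0 : 2 ^ s ≤ 2 ^ (2 * s) := Nat.pow_le_pow_right (by norm_num) (by omega)
  have h0' : 2 ^ s ≤ 2 ^ (2 * (2 * s)) := Nat.pow_le_pow_right (by norm_num) (by omega)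
  have h1 := pair_lt (hp.trans_le h0') (pair_lt (hn.trans_le h0) (pair_lt hu hv))
  have h2 : 2 ^ (8 * s + 1 + 1) = 4 * 2 ^ (2 * (2 * (2 * s))) := by
    rw [show 8 * s + 1 + 1 = 2 * (2 * (2 * s)) + 2 by ring, pow_add]
    ring
  unfold sto
  omega

theorem memW_length {w y : List Bool} {R : ℕ → ℕ} {s : ℕ} (hs : 3 ≤ s) (hR : ∀ i, R i < 2 ^ s)
    (i : List Bool) : (memW w y R i).length ≤ s := by
  have h1 : ∀ j, (wd (R j + 1)).length ≤ s := fun j =>
    length_wd_le (Nat.succ_pos _) (by rw [pow_succ]; have := hR j; omega)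
  rcases i with _ | ⟨b, u⟩
  · exact h1 0
  · cases b
    · show (wd (1 + lett w[bval u]? + 3 * lett y[bval u]?)).length ≤ s
      refine (length_wd_le (k := 3) (by omega) ?_).trans hs
      have h2 := lett_le w[bval u]?
      have h3 := lett_le y[bval u]?
      norm_num
      omega
    · exact h1 _

section

variable {D : LD} {F : List Bool → List Bool} (hF : D.Is F) {P : List Ins} {w y : List Bool}

theorem adr1_lt {D : LD} {s n u : ℕ} (hn : n < 2 ^ s) : adr1 D n u < 2 ^ s := by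
  by_cases h : n < D.pos n u
  · have e : lt01 n (D.pos n u) = 1 := by
      unfold lt01
      rw [if_pos h]
    unfold adr1
    rw [e, ifz_ne one_ne_zero]
    exact hn
  · have e : lt01 n (D.pos n u) = 0 := by
      unfold lt01
      rw [if_neg h]
    unfold adr1
    rw [e, ifz_zero]
    omega

include hF in
theorem fits_mach (g : ℕ → Bool) {t s a : ℕ} (hs : 3 ≤ s) (hb : 3 * bd P + 6 ≤ 2 ^ s)
    (hn : w.length < 2 ^ s)
    (hR : ∀ u ≤ t, ∀ i, (Pool.Agent.Helper81.RP.conf P (F w) y u).2 i < 2 ^ s) (ha : s ≤ a) :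
    (machL D P).Fits w y g (w.length + 1 + 3 * t) (9 * s) a := by
  have h8 : 8 ≤ 2 ^ s := by
    calc 8 = 2 ^ 3 := by norm_num
      _ ≤ 2 ^ s := Nat.pow_le_pow_right (by norm_num) hs
  have hu : ∀ u ≤ t, uu P (Pool.Agent.Helper81.RP.conf P (F w) y u) < 2 ^ s :=
    fun u hu => hR u hu _
  have hv : ∀ u ≤ t, vvL P (F w) y (Pool.Agent.Helper81.RP.conf P (F w) y u) < 2 ^ s := by
    intro u hu
    unfold vvL ifz
    split_ifs
    · exact hR u hu _
    · have := lett_le (F w)[uu P (Pool.Agent.Helper81.RP.conf P (F w) y u)]?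
      omega
    · have := lett_le y[uu P (Pool.Agent.Helper81.RP.conf P (F w) y u)]?
      omega
  have hadr : ∀ j : ℕ, j ≤ bd P + 2 ^ s → (wd (2 * j + 1)).length ≤ 9 * s := by
    intro j hj
    refine length_wd_le (by omega) ?_
    have h1 : 2 ^ (9 * s + 1) = 2 ^ s * 2 ^ (8 * s + 1) := by
      rw [← pow_add]
      congr 1
      ring
    have h2 : 8 ≤ 2 ^ (8 * s + 1) := by
      calc 8 = 2 ^ 3 := by norm_num
        _ ≤ 2 ^ (8 * s + 1) := Nat.pow_le_pow_right (by norm_num) (by omega)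
    rw [h1]
    nlinarith
  have hlet : ∀ j : ℕ, j < 2 ^ s → (wd (2 * bitsN j)).length ≤ 9 * s := by
    intro j hj
    rw [wd_cons_false _ (by rw [bitsN_eq]; exact num_pos _), bitsN_eq, wd_num]
    have := length_bits hj
    show j.bits.length + 1 ≤ _
    omega
  have hstate : ∀ u ≤ t, ∀ f ≤ 1, ∀ ph ≤ 2, ∀ x y' : ℕ, x < 2 ^ s → y' < 2 ^ s →
      (wd (sto f (3 * ((Pool.Agent.Helper81.RP.conf P (F w) y u).1 + 1) + ph) w.length
        x y')).length ≤ 9 * s := by
    intro u _ f hf ph hph x y' hx hy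
    have h1 := pc_le P (F w) y u
    exact (length_sto hf (by omega) hn hx hy).trans (by omega)
  intro τ hτ
  rcases le_or_gt τ w.length with h | h
  · -- the computation of the length
    rw [conf_machA D P w y g h]
    refine ⟨?_, ?_, fun i _ => (memW_length hs (fun _ => by positivity) i).trans ha⟩
    · exact (length_sto (s := s) (by omega) (by omega) (by omega) (by omega)
        (by omega)).trans (by omega)
    · have haddr : (machL D P).addr (wd (sto 0 0 τ 0 0)) = wd (2 * bitsN τ) := by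
        refine wf_eq ?_ (by
          rw [bitsN_eq]
          have := num_pos τ.bits
          omega)
        rw [num_wd (sto_pos _ _ _ _ _)]
        unfold addrF
        rw [pO_sto (by omega), nO_sto (by omega), ifz_zero]
      rw [haddr]
      exact hlet τ (by omega)
  obtain ⟨u, ht⟩ : ∃ u, τ = w.length + 1 + 3 * u ∨ τ = w.length + 1 + 3 * u + 1 ∨
      τ = w.length + 1 + 3 * u + 2 := ⟨(τ - w.length - 1) / 3, by omega⟩
  have hut : u ≤ t := by omega
  have hA : ∀ f ≤ 1, ∀ pc ph x y' : ℕ, ph ≤ 2 → x < 2 ^ s →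
      ((machL D P).addr (wd (sto f (3 * (pc + 1) + ph) w.length x y'))).length ≤ 9 * s := by
    intro f hf pc ph x y' hph hx
    have h1 : (machL D P).addr (wd (sto f (3 * (pc + 1) + ph) w.length x y')) =
        wd (ifz ph (2 * a0 P[pc]? + 1) (ifz (ph - 1)
          (ifz (inpL P[pc]?) (2 * a1 P[pc]? x + 1)
            (2 * bitsN (ifz (inpL P[pc]? - 1) (adr1 D w.length x) x))) 1)) := by
      refine wf_eq ?_ ?_
      · rw [num_wd (sto_pos _ _ _ _ _)]
        unfold addrF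
        rw [pO_sto hf, ifz_ne (by omega), selF_eq, pO_sto hf, uO_sto hf, nO_sto hf,
          show (3 * (pc + 1) + ph) % 3 = ph by omega,
          show (3 * (pc + 1) + ph) / 3 - 1 = pc by omega]
      · have h2 := num_pos (ifz (inpL P[pc]? - 1) (adr1 D w.length x) x).bits
        rw [bitsN_eq]
        generalize num (ifz (inpL P[pc]? - 1) (adr1 D w.length x) x).bits = z at h2 ⊢
        unfold ifz
        split_ifs <;> omega
    rw [h1]
    unfold ifz
    split_ifs
    · exact hadr _ (by have := a0_le P pc; omega)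
    · exact hadr _ (by have := a1_le P pc x; omega)
    · exact hlet _ (adr1_lt hn)
    · exact hlet _ hx
    · rw [wd_one]
      exact Nat.zero_le _
  rcases ht with ht | ht | ht
  · rw [ht, conf_mach hF]
    exact ⟨hstate u hut _ (accF_le _ _) 0 (by omega) 0 0 (by omega) (by omega),
      hA _ (accF_le _ _) _ 0 0 0 (by omega) (by omega),
      fun i _ => (memW_length hs (hR _ hut) i).trans ha⟩
  · rw [ht, conf_mach1 hF]
    exact ⟨hstate u hut 0 (by omega) 1 (by omega) _ 0 (hu u hut) (by omega),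
      hA 0 (by omega) _ 1 _ 0 (by omega) (hu u hut),
      fun i _ => (memW_length hs (hR _ hut) i).trans ha⟩
  · rw [ht, conf_mach2 hF]
    have q1 := hstate u hut 0 (by omega) 2 (by omega) _ _ (hu u hut) (hv u hut)
    have q2 := hA 0 (by omega) (Pool.Agent.Helper81.RP.conf P (F w) y u).1 2 _
      (vvL P (F w) y (Pool.Agent.Helper81.RP.conf P (F w) y u)) (by omega) (hu u hut)
    have hu1 : u + 1 ≤ t := by omega
    refine ⟨q1, ?_, fun i _ => (memW_length hs (hR _ hu1) i).trans ha⟩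
    dsimp only
    exact q2

end

theorem guesses_mach (D : LD) (P : List Ins) (w y : List Bool) (g : ℕ → Bool) (t t' : ℕ) :
    (machL D P).guesses w y g t t' = 0 := by
  unfold NBM.guesses
  have : {i : ℕ | t ≤ i ∧ i < t' ∧ (machL D P).ask ((machL D P).conf w y g i).1} = ∅ := by
    ext i
    simp only [Set.mem_ofPred_eq, Set.mem_empty_iff_false, iff_false]
    rintro ⟨_, _, h⟩
    exact Bool.false_ne_true h
  rw [this, Set.ncard_empty]

/-- The number of messages. -/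
theorem msgs_mach {D : LD} {F : List Bool → List Bool} (hF : D.Is F) (P : List Ins)
    (w y : List Bool) (g : ℕ → Bool) {t t' u : ℕ} (hu : t' ≤ w.length + 1 + 3 * u) :
    (machL D P).msgs w y g t t' ≤ u := by
  unfold NBM.msgs
  have hsub : {i : ℕ | t ≤ i ∧ i < t' ∧ (machL D P).msg ((machL D P).conf w y g (i + 1)).1} ⊆
      ↑((Finset.range u).image fun q => w.length + 1 + 3 * q + 1) := by
    rintro i ⟨h1, h2, h3⟩
    rcases le_or_gt (i + 1) w.length with h | h
    · rw [conf_machA D P w y g h, msg_st D P (by omega)] at h3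
      have := of_decide_eq_true h3
      omega
    obtain ⟨q, hq⟩ : ∃ q, i + 1 = w.length + 1 + 3 * q ∨ i + 1 = w.length + 1 + 3 * q + 1 ∨
        i + 1 = w.length + 1 + 3 * q + 2 := ⟨(i - w.length) / 3, by omega⟩
    rcases hq with hq | hq | hq
    · rw [hq, conf_mach hF, msg_st D P (accF_le _ _)] at h3
      have := of_decide_eq_true h3
      omega
    · rw [hq, conf_mach1 hF, msg_st D P (by omega)] at h3
      have := of_decide_eq_true h3
      omega
    · exact Finset.mem_coe.2 (Finset.mem_image.2 ⟨q, Finset.mem_range.2 (by omega), by omega⟩)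
  refine (Set.ncard_le_ncard hsub (Finset.finite_toSet _)).trans ?_
  rw [Set.ncard_coe_finset]
  refine Finset.card_image_le.trans ?_
  rw [Finset.card_range]

/-- The bounds. -/
theorem bounds {C N N' B l l' s t : ℝ} (hl : 1 ≤ l) (hll : l ≤ l') (hs : l' ≤ s) (ht : 0 ≤ t)
    (hN : 1 ≤ N) (hB : 1 ≤ B) (hN' : N' ≤ B * N) (hN0 : 1 ≤ N')
    (b1 : t * s * l' ^ 2 ≤ C * N' ^ ((3 : ℝ) / 2)) (b2 : s * l' ^ 2 ≤ C * N' ^ ((1 : ℝ) / 2)) :
    t * (9 * s + (l + 1 + l)) * (l + 1 + l) ^ 2 ≤ 108 * |C| * B ^ 2 * N ^ ((3 : ℝ) / 2) ∧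
      (9 * s + (l + 1 + l)) * (l + 1 + 1) * (l + 1 + l) ≤ 108 * |C| * B ^ 2 * N ^ ((1 : ℝ) / 2) ∧
      9 * s * (l + 1 + l) ^ 2 ≤ 108 * |C| * B ^ 2 * N ∧
      12 * s ≤ 12 * |C| * B ^ 2 * N ^ ((1 : ℝ) / 2) := by
  have hs1 : 1 ≤ s := hl.trans (hll.trans hs)
  have hC : 0 ≤ |C| := abs_nonneg C
  have hp3 : N' ^ ((3 : ℝ) / 2) ≤ B ^ 2 * N ^ ((3 : ℝ) / 2) := by
    calc N' ^ ((3 : ℝ) / 2) ≤ (B * N) ^ ((3 : ℝ) / 2) :=
          Real.rpow_le_rpow (by linarith) hN' (by norm_num)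
      _ = B ^ ((3 : ℝ) / 2) * N ^ ((3 : ℝ) / 2) := Real.mul_rpow (by linarith) (by linarith)
      _ ≤ B ^ 2 * N ^ ((3 : ℝ) / 2) := by
        refine mul_le_mul_of_nonneg_right ?_ (Real.rpow_nonneg (by linarith) _)
        have := Real.rpow_le_rpow_of_exponent_le hB (by norm_num : (3 : ℝ) / 2 ≤ (2 : ℕ))
        rwa [Real.rpow_natCast] at this
  have hp1 : N' ^ ((1 : ℝ) / 2) ≤ B ^ 2 * N ^ ((1 : ℝ) / 2) := by
    calc N' ^ ((1 : ℝ) / 2) ≤ (B * N) ^ ((1 : ℝ) / 2) :=
          Real.rpow_le_rpow (by linarith) hN' (by norm_num)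
      _ = B ^ ((1 : ℝ) / 2) * N ^ ((1 : ℝ) / 2) := Real.mul_rpow (by linarith) (by linarith)
      _ ≤ B ^ 2 * N ^ ((1 : ℝ) / 2) := by
        refine mul_le_mul_of_nonneg_right ?_ (Real.rpow_nonneg (by linarith) _)
        have := Real.rpow_le_rpow_of_exponent_le hB (by norm_num : (1 : ℝ) / 2 ≤ (2 : ℕ))
        rwa [Real.rpow_natCast] at this
  have c1 : t * s * l ^ 2 ≤ |C| * B ^ 2 * N ^ ((3 : ℝ) / 2) := by
    calc t * s * l ^ 2 ≤ t * s * l' ^ 2 := by gcongr
      _ ≤ C * N' ^ ((3 : ℝ) / 2) := b1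
      _ ≤ |C| * N' ^ ((3 : ℝ) / 2) :=
        mul_le_mul_of_nonneg_right (le_abs_self C) (Real.rpow_nonneg (by linarith) _)
      _ ≤ |C| * (B ^ 2 * N ^ ((3 : ℝ) / 2)) := mul_le_mul_of_nonneg_left hp3 hC
      _ = _ := by ring
  have c2 : s * l ^ 2 ≤ |C| * B ^ 2 * N ^ ((1 : ℝ) / 2) := by
    calc s * l ^ 2 ≤ s * l' ^ 2 := by gcongr
      _ ≤ C * N' ^ ((1 : ℝ) / 2) := b2
      _ ≤ |C| * N' ^ ((1 : ℝ) / 2) :=
        mul_le_mul_of_nonneg_right (le_abs_self C) (Real.rpow_nonneg (by linarith) _)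
      _ ≤ |C| * (B ^ 2 * N ^ ((1 : ℝ) / 2)) := mul_le_mul_of_nonneg_left hp1 hC
      _ = _ := by ring
  have hX : 9 * s + (l + 1 + l) ≤ 12 * s := by linarith
  have hX0 : 0 ≤ 9 * s + (l + 1 + l) := by linarith
  have hY : l + 1 + l ≤ 3 * l := by linarith
  have hY0 : 0 ≤ l + 1 + l := by linarith
  have hZ : l + 1 + 1 ≤ 3 * l := by linarith
  have hY2 : (l + 1 + l) ^ 2 ≤ 9 * l ^ 2 := by
    calc (l + 1 + l) ^ 2 ≤ (3 * l) ^ 2 := pow_le_pow_left₀ hY0 hY 2
      _ = 9 * l ^ 2 := by ring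
  refine ⟨?_, ?_, ?_, ?_⟩
  · calc t * (9 * s + (l + 1 + l)) * (l + 1 + l) ^ 2 ≤ t * (12 * s) * (9 * l ^ 2) := by gcongr
      _ = 108 * (t * s * l ^ 2) := by ring
      _ ≤ 108 * (|C| * B ^ 2 * N ^ ((3 : ℝ) / 2)) := by gcongr
      _ = _ := by ring
  · calc (9 * s + (l + 1 + l)) * (l + 1 + 1) * (l + 1 + l) ≤ (12 * s) * (3 * l) * (3 * l) := by
          gcongr
      _ = 108 * (s * l ^ 2) := by ring
      _ ≤ 108 * (|C| * B ^ 2 * N ^ ((1 : ℝ) / 2)) := by gcongr
      _ = _ := by ring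
  · calc 9 * s * (l + 1 + l) ^ 2 ≤ 9 * s * (9 * l ^ 2) := by gcongr
      _ = 81 * (s * l ^ 2) := by ring
      _ ≤ 81 * (|C| * B ^ 2 * N ^ ((1 : ℝ) / 2)) := by gcongr
      _ ≤ 108 * (|C| * B ^ 2 * N) := by
        have h1 : N ^ ((1 : ℝ) / 2) ≤ N := by
          have := Real.rpow_le_rpow_of_exponent_le hN (by norm_num : (1 : ℝ) / 2 ≤ 1)
          rwa [Real.rpow_one] at this
        have h2 : 0 ≤ |C| * B ^ 2 := by positivity
        have h3 : |C| * B ^ 2 * N ^ ((1 : ℝ) / 2) ≤ |C| * B ^ 2 * N :=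
          mul_le_mul_of_nonneg_left h1 h2
        have h4 : 0 ≤ |C| * B ^ 2 * N := by positivity
        linarith
      _ = _ := by ring
  · have h1 : s ≤ s * l ^ 2 := le_mul_of_one_le_right (by linarith) (one_le_pow₀ hl)
    calc 12 * s ≤ 12 * (|C| * B ^ 2 * N ^ ((1 : ℝ) / 2)) := by linarith
      _ = _ := by ring

/-- **Good computations.** -/
theorem good_of_fast {D : LD} {F : List Bool → List Bool} (hF : D.Is F) {b : ℕ}
    (hlen : ∀ w, (F w).length ≤ b * (w.length + 1)) (hle : ∀ w, w.length ≤ (F w).length)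
    (P : List Ins) (E : Decomp) {c : ℕ} (hc : 0 < c) (C : ℝ) :
    ∃ (C' : ℝ) (n₁ : ℕ), ∀ w y : List Bool, n₁ ≤ w.length →
      Fast P C (F w) y → (machL D P).Good E c C' w y := by
  set B : ℝ := (b : ℝ) + 1 with hB
  have hB1 : 1 ≤ B := by
    have h1 : (0 : ℝ) ≤ b := Nat.cast_nonneg _
    linarith
  refine ⟨108 * |C| * B ^ 2, 3 * bd P + 6 + ⌈(12 * |C| * B ^ 2) ^ 2⌉₊, ?_⟩
  rintro w y hw ⟨t, s, hls, hacc, hR, b1, b2⟩
  have hwx : w.length ≤ (F w).length := hle w
  have hn : w.length < 2 ^ s := by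
    refine hwx.trans_lt ((Nat.lt_pow_succ_log_self (b := 2) (by norm_num) _).trans_le ?_)
    exact Nat.pow_le_pow_right (by norm_num) hls
  have hs3 : 3 ≤ s := by
    by_contra hcon
    have : 2 ^ s ≤ 2 ^ 2 := Nat.pow_le_pow_right (by norm_num) (by omega)
    omega
  have hb : 3 * bd P + 6 ≤ 2 ^ s := by omega
  have hlog : Nat.log 2 w.length ≤ Nat.log 2 (F w).length := Nat.log_mono_right hwx
  set l : ℝ := (Nat.log 2 w.length : ℝ) + 1 with hl
  set l' : ℝ := (Nat.log 2 (F w).length : ℝ) + 1 with hl'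
  have hl1 : 1 ≤ l := by
    rw [hl]
    have : (0 : ℝ) ≤ Nat.log 2 w.length := Nat.cast_nonneg _
    linarith
  have hll : l ≤ l' := by
    rw [hl, hl']
    have : (Nat.log 2 w.length : ℝ) ≤ Nat.log 2 (F w).length := by exact_mod_cast hlog
    linarith
  have hls' : l' ≤ s := by
    rw [hl']
    exact_mod_cast hls
  have hN : (1 : ℝ) ≤ (w.length : ℝ) + 1 := by
    have : (0 : ℝ) ≤ w.length := Nat.cast_nonneg _
    linarith
  have hN0 : (1 : ℝ) ≤ ((F w).length : ℝ) + 1 := by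
    have : (0 : ℝ) ≤ (F w).length := Nat.cast_nonneg _
    linarith
  have hN' : ((F w).length : ℝ) + 1 ≤ B * ((w.length : ℝ) + 1) := by
    have h1 : (F w).length + 1 ≤ (b + 1) * (w.length + 1) := by
      have h2 := hlen w
      calc (F w).length + 1 ≤ b * (w.length + 1) + 1 := by omega
        _ ≤ (b + 1) * (w.length + 1) := by nlinarith
    rw [hB]
    exact_mod_cast h1
  obtain ⟨q1, q2, q3, q4⟩ := bounds hl1 hll hls' (Nat.cast_nonneg t) hN hB1 hN' hN0 b1 b2
  have hpow : w.length < 2 ^ (Nat.log 2 w.length + 1) :=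
    Nat.lt_pow_succ_log_self (by norm_num) _
  have hcast : (((Nat.log 2 w.length + 2 : ℕ) : ℝ)) = l + 1 := by
    rw [hl]
    push_cast
    ring
  refine ⟨fun _ => false, w.length + 1 + 3 * t, 9 * s, 9 * s, t, Nat.log 2 w.length + 2, 0, 0, 1,
    fun i => if i = 0 then 0 else w.length + 1 + 3 * t, fun _ => [], ?_, ?_, ?_, ?_, Nat.one_pos,
    le_rfl, ?_, ?_, ?_, ?_, ?_, ?_⟩
  · exact (accepts_iff hF P w y _ _).2 ⟨t, rfl, hacc⟩
  · exact fits_mach hF _ hs3 hb hn hR (by omega)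
  · simp
  · simp
  · intro i hi
    have hi0 : i = 0 := by omega
    subst hi0
    simp only [if_true, Nat.zero_add, one_ne_zero, if_false]
    refine ⟨Nat.zero_le _, ?_, ?_, ?_⟩
    · rw [guesses_mach]
      exact Nat.zero_le _
    · intro u _ _
      exact Or.inl rfl
    · intro u v _ huv hv _
      refine ⟨msgs_mach hF P w y _ hv, Or.inl ?_⟩
      have h1 : 2 ^ (Nat.log 2 w.length + 2) = 2 * 2 ^ (Nat.log 2 w.length + 1) := by
        rw [pow_succ, mul_comm]
      have h2 : 2 ≤ 2 ^ (Nat.log 2 w.length + 1) := by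
        calc 2 = 2 ^ 1 := by norm_num
          _ ≤ 2 ^ (Nat.log 2 w.length + 1) := Nat.pow_le_pow_right (by norm_num) (by omega)
      rw [h1]
      nlinarith
  · intro i hi0 hi
    omega
  · rw [hcast]
    push_cast
    exact q1
  · rw [hcast]
    push_cast
    exact q2
  · rw [hcast]
    push_cast
    exact q3
  · have h1 : (12 : ℝ) * s ≤ (w.length : ℝ) + 1 := by
      have hNN : (12 * |C| * B ^ 2) ^ 2 ≤ (w.length : ℝ) + 1 := by
        have h2 : (⌈(12 * |C| * B ^ 2) ^ 2⌉₊ : ℝ) ≤ w.length := by exact_mod_cast (by omega)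
        have h3 := Nat.le_ceil ((12 * |C| * B ^ 2) ^ 2)
        linarith
      set N : ℝ := (w.length : ℝ) + 1
      have hsq : (N ^ ((1 : ℝ) / 2)) ^ 2 = N := by
        rw [← Real.rpow_natCast, ← Real.rpow_mul (by linarith)]
        norm_num
      have hp : 0 ≤ N ^ ((1 : ℝ) / 2) := Real.rpow_nonneg (by linarith) _
      have hroot : 12 * |C| * B ^ 2 ≤ N ^ ((1 : ℝ) / 2) := by
        refine (sq_le_sq₀ (by positivity) hp).1 ?_
        rw [hsq]
        exact hNN
      calc (12 : ℝ) * s ≤ 12 * |C| * B ^ 2 * N ^ ((1 : ℝ) / 2) := q4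
        _ ≤ N ^ ((1 : ℝ) / 2) * N ^ ((1 : ℝ) / 2) := by gcongr
        _ = N := by rw [← sq, hsq]
    have h2 : 12 * s ≤ w.length + 1 := by exact_mod_cast h1
    have h3 : Nat.log 2 w.length + 1 ≤ s := (Nat.succ_le_succ hlog).trans hls
    calc (0 + 1) * (0 + 9 * s + (Nat.log 2 w.length + 2 + (Nat.log 2 w.length + 1))) ≤ 12 * s := by
          omega
      _ ≤ 1 * (w.length + 1) := by omega
      _ ≤ c * (w.length + 1) := Nat.mul_le_mul_right _ hc

end Pool.Agent.Helper92.RE
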