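import Pool.Agent.Helper92.RE.SimM
import Pool.Agent.Helper92.RECTT.Wnd3
import Pool.Agent.Helper31.TMS.WTH

/-!
# Turing machines on the words `F w y`: the bounds
-/

namespace Pool.Agent.Helper92.RE

open Pool.Agent.Helper65.LinSpace Pool.Agent.Helper78.Mpc Pool.Agent.Helper28.Ram
open Pool.Agent.Helper65.OH (letW mv OneHead)
open Pool.Agent.Helper20.MH (MultiHead)
open Pool.Agent.Helper31.TMS (stW idx exists_bound mvW_length AcceptsAt stW_head run_halt)
open Pool.Agent.Helper28.OHS (Box)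
open Pool.Agent.Helper81.Sus2 (Decomp)
open Pool.Agent.Helper50.RECT (lam6 lam3 two_pow_log pos_bd)

/-- The Turing machine accepts `x` in time `T n`, `n` being the length of `x`. -/
def InTime {k : ℕ} (M : TM k) (T : ℕ → ℝ) (x : List Bool) : Prop :=
  ∃ t : ℕ, AcceptsAt M x t ∧ (t : ℝ) ≤ T x.length

theorem run_head {k : ℕ} (M : TM k) (x : List Bool) (t : ℕ) (i : Fin k) :
    |(M.run x t).head i| ≤ t := by
  induction t with
  | zero =>
    show |(0 : ℤ)| ≤ _
    simp
  | succ t ih =>
    have h : |(M.run x (t + 1)).head i - (M.run x t).head i| ≤ 1 := by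
      show |((M.next x (M.run x t)).getD (M.run x t)).head i - (M.run x t).head i| ≤ 1
      unfold TM.next
      rcases M.step (M.run x t).state (inputSym x (M.run x t).inp)
        (fun i => (M.run x t).tape i ((M.run x t).head i)) with _ | r
      · simp
      · show |(M.run x t).head i + (r.2.2 i).2.toInt - (M.run x t).head i| ≤ 1
        rw [add_sub_cancel_left]
        rcases (r.2.2 i).2 with _ | _ | _ <;> simp [Dir.toInt]
    have h2 := abs_le.1 ih
    have h3 := abs_le.1 h
    rw [abs_le]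
    push_cast
    constructor <;> linarith [h2.1, h2.2, h3.1, h3.2]

theorem adr_le (D : LD) (n u : ℕ) : adr D n u ≤ max u n := by
  unfold adr ifz
  split_ifs with h1 h2
  · exact (Nat.sub_le _ _).trans (le_max_left _ _)
  · have h3 : D.pos n u ≤ n := by
      by_contra hcon
      have : lt01 n (D.pos n u) = 1 := by
        unfold lt01
        rw [if_pos (by omega)]
      omega
    exact h3.trans (le_max_right _ _)
  · exact le_max_right _ _

/-- Logarithmic lengths. -/
theorem len_le {B n m : ℕ} (h : m + 2 ≤ B * (n + 1)) :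
    m + 2 ≤ 2 ^ ((Nat.log 2 B + 2) * (Nat.log 2 n + 1)) := by
  have h1 : B < 2 ^ (Nat.log 2 B + 1) := Nat.lt_pow_succ_log_self (by norm_num) B
  have h2 : n + 1 ≤ 2 ^ (Nat.log 2 n + 1) := Nat.lt_pow_succ_log_self (by norm_num) n
  calc m + 2 ≤ B * (n + 1) := h
    _ ≤ 2 ^ (Nat.log 2 B + 1) * 2 ^ (Nat.log 2 n + 1) := Nat.mul_le_mul h1.le h2
    _ = 2 ^ (Nat.log 2 B + 1 + (Nat.log 2 n + 1)) := (pow_add _ _ _).symm
    _ ≤ 2 ^ ((Nat.log 2 B + 2) * (Nat.log 2 n + 1)) := by
      refine Nat.pow_le_pow_right (by norm_num) ?_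
      nlinarith [Nat.zero_le (Nat.log 2 B), Nat.zero_le (Nat.log 2 n)]

theorem pair_bits {p n m e : ℕ} (hp : p ≤ m + 1) (hn : n ≤ m) (h : m + 2 ≤ 2 ^ e) :
    (Nat.pair p n).bits.length ≤ 2 * e := by
  refine length_bits ?_
  have h1 : p < 2 ^ e := by omega
  have h2 : n < 2 ^ e := by omega
  exact Pool.Agent.Helper81.RP.pair_lt h1 h2

/-- Words which are used by the simulations are short. -/
theorem exists_len {k : ℕ} (M : TM k) (code : M.Sym → List Bool) (D : LD) (B : ℕ) :
    ∃ K : ℕ, (∀ s, (code s).length ≤ K) ∧ ∀ (n m : ℕ), m + 2 ≤ B * (n + 1) → n ≤ m →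
      (∀ (f : Bool) (d : Fin k → Dir) (σ : Option M.State) (p : ℕ), p ≤ m + 1 →
        (stW f d (idO M σ) (Nat.pair p n)).length ≤ K * (Nat.log 2 n + 1)) ∧
      (∀ (f : Bool) (d : Fin k → Dir) (p : ℕ), p ≤ n →
        (stW f d (idO M none) (Nat.pair 0 p)).length ≤ K * (Nat.log 2 n + 1)) ∧
      ∀ u ≤ m, u.bits.length ≤ K * (Nat.log 2 n + 1) := by
  have := M.finState
  have := M.finSym
  obtain ⟨c₁, hc₁⟩ := exists_bound fun s : M.Sym => (code s).length
  obtain ⟨c₂, hc₂⟩ := exists_bound fun σ : Option M.State => (sd (idO M σ).bits).length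
  refine ⟨1 + 2 * k + c₂ + c₁ + 2 * (Nat.log 2 B + 2), fun s => (hc₁ s).trans (by omega),
    fun n m h hnm => ?_⟩
  have h1 := len_le h
  set l := Nat.log 2 n + 1 with hl
  have hl1 : 1 ≤ l := by omega
  have e1 : (1 + 2 * k + c₂ + c₁ + 2 * (Nat.log 2 B + 2)) * l =
      (1 + 2 * k + c₂) * l + c₁ * l + 2 * ((Nat.log 2 B + 2) * l) := by ring
  have e2 : 1 + 2 * k + c₂ ≤ (1 + 2 * k + c₂) * l := Nat.le_mul_of_pos_right _ hl1
  refine ⟨fun f d σ p hp => ?_, fun f d p hp => ?_, fun u hu => ?_⟩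
  · have h2 := pair_bits hp hnm h1
    have h3 := hc₂ σ
    simp only [stW, List.length_cons, List.length_append, mvW_length]
    omega
  · have h2 := pair_bits (p := 0) (n := p) (Nat.zero_le _) (hp.trans hnm) h1
    have h3 := hc₂ none
    simp only [stW, List.length_cons, List.length_append, mvW_length]
    omega
  · have h2 : u.bits.length ≤ (Nat.log 2 B + 2) * l := length_bits (by omega)
    omega

section multi

variable {k : ℕ} {D : LD} {M : TM k} {code : M.Sym → List Bool} {A : MultiHead 1 k}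

theorem fits_multi (hb : code M.blank = []) (hA : SmL D M code A) {F : List Bool → List Bool}
    (hF : D.Is F) (B : ℕ) : ∃ K : ℕ, ∀ w y : List Bool,
      (F w ++ y).length + 2 ≤ B * (w.length + 1) → w.length ≤ (F w ++ y).length →
      ∀ r, A.Fits w y r (K * (Nat.log 2 w.length + 1)) := by
  obtain ⟨K, hK0, hK⟩ := exists_len M code D B
  refine ⟨K, fun w y h1 h2 r t _ => ?_⟩
  obtain ⟨g1, g2, g3⟩ := hK w.length (F w ++ y).length h1 h2
  have hKl : K ≤ K * (Nat.log 2 w.length + 1) := Nat.le_mul_of_pos_right _ (by omega)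
  rcases le_or_gt t (w.length + 1) with ht | ht
  · obtain ⟨e1, -, e3⟩ := sim_cnt hb hA w y ht
    refine ⟨?_, ?_, fun i z => ?_⟩
    · rw [e1]
      split_ifs with h
      · exact g2 _ _ _ h
      · exact g1 _ _ _ _ (Nat.zero_le _)
    · rw [e1]
      split_ifs with h
      · rw [hA.addr]
        show (Nat.unpair (Nat.pair 0 t)).2.bits.length ≤ _
        rw [Nat.unpair_pair]
        exact g3 t (h.trans h2)
      · rw [hA.addr]
        show (adr D (Nat.unpair (Nat.pair 0 w.length)).2
          ((Nat.unpair (Nat.pair 0 w.length)).1 - 1)).bits.length ≤ _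
        rw [Nat.unpair_pair]
        exact g3 _ ((adr_le D _ _).trans (max_le (Nat.zero_le _) h2))
    · rw [e3]
      exact Nat.zero_le _
  · obtain ⟨u, rfl⟩ : ∃ u, t = w.length + 1 + u := ⟨t - (w.length + 1), by omega⟩
    obtain ⟨⟨f, d, e1, -⟩, -, e3⟩ := simL hb hA hF w y u
    have hi := Pool.Agent.Helper20.TMS.inp_le M (F w ++ y) u
    refine ⟨?_, ?_, fun i z => ?_⟩
    · rw [e1]
      exact g1 _ _ _ _ hi
    · rw [e1, hA.addr]
      show (adr D (Nat.unpair (Nat.pair _ w.length)).2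
        ((Nat.unpair (Nat.pair _ w.length)).1 - 1)).bits.length ≤ _
      rw [Nat.unpair_pair]
      exact g3 _ ((adr_le D _ _).trans (max_le (by omega) h2))
    · rw [e3]
      exact (hK0 _).trans hKl

end multi

section one

variable {D : LD} {M : TM 1} {code : M.Sym → List Bool} {A : OneHead 1}

theorem fits_one (hb : code M.blank = []) (hA : SmL1 D M code A) {F : List Bool → List Bool}
    (hF : D.Is F) (B : ℕ) : ∃ K : ℕ, ∀ w y : List Bool,
      (F w ++ y).length + 2 ≤ B * (w.length + 1) → w.length ≤ (F w ++ y).length →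
      ∀ r, A.Fits w y r (K * (Nat.log 2 w.length + 1)) := by
  obtain ⟨K, hK0, hK⟩ := exists_len M code D B
  refine ⟨K, fun w y h1 h2 r t _ => ?_⟩
  obtain ⟨g1, g2, g3⟩ := hK w.length (F w ++ y).length h1 h2
  have hKl : K ≤ K * (Nat.log 2 w.length + 1) := Nat.le_mul_of_pos_right _ (by omega)
  rcases le_or_gt t (w.length + 1) with ht | ht
  · obtain ⟨e1, -, e3⟩ := sim_cnt1 hb hA w y ht
    refine ⟨?_, ?_, fun z => ?_⟩
    · rw [e1]
      split_ifs with h
      · exact g2 _ _ _ h
      · exact g1 _ _ _ _ (Nat.zero_le _)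
    · rw [e1]
      split_ifs with h
      · rw [hA.addr]
        show (Nat.unpair (Nat.pair 0 t)).2.bits.length ≤ _
        rw [Nat.unpair_pair]
        exact g3 t (h.trans h2)
      · rw [hA.addr]
        show (adr D (Nat.unpair (Nat.pair 0 w.length)).2
          ((Nat.unpair (Nat.pair 0 w.length)).1 - 1)).bits.length ≤ _
        rw [Nat.unpair_pair]
        exact g3 _ ((adr_le D _ _).trans (max_le (Nat.zero_le _) h2))
    · rw [e3]
      exact Nat.zero_le _
  · obtain ⟨u, rfl⟩ : ∃ u, t = w.length + 1 + u := ⟨t - (w.length + 1), by omega⟩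
    obtain ⟨⟨f, d, e1, -⟩, -, e3⟩ := simL1 hb hA hF w y u
    have hi := Pool.Agent.Helper20.TMS.inp_le M (F w ++ y) u
    refine ⟨?_, ?_, fun z => ?_⟩
    · rw [e1]
      exact g1 _ _ _ _ hi
    · rw [e1, hA.addr]
      show (adr D (Nat.unpair (Nat.pair _ w.length)).2
        ((Nat.unpair (Nat.pair _ w.length)).1 - 1)).bits.length ≤ _
      rw [Nat.unpair_pair]
      exact g3 _ ((adr_le D _ _).trans (max_le (by omega) h2))
    · rw [e3]
      exact (hK0 _).trans hKl

end one

end Pool.Agent.Helper92.RE
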