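import Pool.Agent.Helper92.RE.Loc
import Pool.Agent.Helper81.RP.Bnd

/-!
# Programs of random access machines on the words `F w` and `y` as machines with messages

`F` is given by its length, positions and letters (`LD`). The machine first computes the length of `w`.
-/

namespace Pool.Agent.Helper92.RE

open Pool.Agent.Helper65.LinSpace Pool.Agent.Helper78.Mpc Pool.Agent.Helper28.Ram
open Pool.Agent.Helper81.Sus2
open Pool.Agent.Helper81.RP (Ins lett step AcceptsAt wd wf num_wd wd_num wf_eq linComp_wf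
  length_wd ls_pair hd tl ls_hd ls_tl hd_eq tl_eq a0 a1 dst npc uu ls_a1 ls_dst
  ls_npc selF selF_eq ls_selF isA accF accF_le accF_eq_one ls_accF)

/-- The length, the positions and the letters of words. -/
structure LD where
  len : ℕ → ℕ
  pos : ℕ → ℕ → ℕ
  lt : ℕ → ℕ → ℕ → ℕ
  ls_len : LS len
  ls_pos : LS (fun z : ℕ × ℕ => pos z.1 z.2)
  ls_lt : LS (fun z : ℕ × ℕ × ℕ => lt z.1 z.2.1 z.2.2)

/-- The data describe the words `F w`. -/
def LD.Is (D : LD) (F : List Bool → List Bool) : Prop :=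
  ∀ w, (F w).length = D.len w.length ∧
    ∀ u, lett (F w)[u]? = D.lt w.length u (lett w[D.pos w.length u]?)

/-! ### One step of the program -/

/-- `1` if a letter of the input is read, `2` if a letter of the second word is read. -/
def inpL : Option Ins → ℕ
  | some (.input _ _) => 1
  | some (.advice _ _) => 2
  | _ => 0

/-- The new content of the register which is changed. -/
def valL : Option Ins → ℕ → ℕ → ℕ
  | some (.const _ k), _, _ => k
  | some (.add _ _ _), u, v => u + v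
  | some (.sub _ _ _), u, v => u - v
  | some (.mul _ _ _), u, v => u * v
  | some (.div _ _ _), u, v => u / v
  | some (.load _ _), _, v => v
  | some (.store _ _), _, v => v
  | some (.input _ _), _, v => v
  | some (.advice _ _), _, v => v
  | some (.jump _ _), _, v => v
  | some .accept, _, v => v
  | none, _, v => v

/-- The content of the second register, or the letter. -/
def vvL (P : List Ins) (x y : List Bool) (c : ℕ × (ℕ → ℕ)) : ℕ :=
  ifz (inpL P[c.1]?) (c.2 (a1 P[c.1]? (uu P c)))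
    (ifz (inpL P[c.1]? - 1) (lett x[uu P c]?) (lett y[uu P c]?))

theorem step_eqL (P : List Ins) (x y : List Bool) (c : ℕ × (ℕ → ℕ)) :
    step P x y c = (npc P[c.1]? c.1 (uu P c),
      Function.update c.2 (dst P[c.1]? (uu P c)) (valL P[c.1]? (uu P c) (vvL P x y c))) := by
  unfold step vvL uu
  rcases h : P[c.1]? with _ | o
  · simp [npc, dst, valL, a1, inpL, ifz]
  · cases o <;> simp [npc, dst, valL, a0, a1, inpL, ifz]

theorem ls_valL {α : Type} [Ctx α] (o : Option Ins) {u v : α → ℕ} (hu : LS u) (hv : LS v) :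
    LS (fun a => valL o (u a) (v a)) := by
  rcases o with _ | o
  · exact hv
  · cases o <;> simp only [valL] <;> fun_prop

/-! ### Codes of states -/

/-- The code of a state. -/
def sto (f p n u v : ℕ) : ℕ := f + 2 * (1 + Nat.pair p (Nat.pair n (Nat.pair u v)))

/-- The number of the instruction and the phase. -/
def pO (x : ℕ) : ℕ := (Nat.unpair (x / 2 - 1)).1

/-- The length of the input word. -/
def nO (x : ℕ) : ℕ := (Nat.unpair (Nat.unpair (x / 2 - 1)).2).1

/-- The first number. -/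
def uO (x : ℕ) : ℕ := (Nat.unpair (Nat.unpair (Nat.unpair (x / 2 - 1)).2).2).1

/-- The second number. -/
def vO (x : ℕ) : ℕ := (Nat.unpair (Nat.unpair (Nat.unpair (x / 2 - 1)).2).2).2

theorem sto_pos (f p n u v : ℕ) : 0 < sto f p n u v := by
  unfold sto
  omega

theorem sto_half {f : ℕ} (hf : f ≤ 1) (p n u v : ℕ) :
    sto f p n u v / 2 - 1 = Nat.pair p (Nat.pair n (Nat.pair u v)) := by
  unfold sto
  omega

theorem pO_sto {f : ℕ} (hf : f ≤ 1) (p n u v : ℕ) : pO (sto f p n u v) = p := by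
  unfold pO
  rw [sto_half hf, Nat.unpair_pair]

theorem nO_sto {f : ℕ} (hf : f ≤ 1) (p n u v : ℕ) : nO (sto f p n u v) = n := by
  unfold nO
  rw [sto_half hf, Nat.unpair_pair, Nat.unpair_pair]

theorem uO_sto {f : ℕ} (hf : f ≤ 1) (p n u v : ℕ) : uO (sto f p n u v) = u := by
  unfold uO
  rw [sto_half hf, Nat.unpair_pair, Nat.unpair_pair, Nat.unpair_pair]

theorem vO_sto {f : ℕ} (hf : f ≤ 1) (p n u v : ℕ) : vO (sto f p n u v) = v := by
  unfold vO
  rw [sto_half hf, Nat.unpair_pair, Nat.unpair_pair, Nat.unpair_pair]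

section

variable {α : Type} [Ctx α]

theorem ls_sto {f p n u v : α → ℕ} (hf : LS f) (hp : LS p) (hn : LS n) (hu : LS u) (hv : LS v) :
    LS (fun a => sto (f a) (p a) (n a) (u a) (v a)) := by
  unfold sto
  have h1 := ls_pair hu hv
  have h2 := ls_pair hn h1
  have h3 := ls_pair hp h2
  fun_prop

theorem ls_pO {f : α → ℕ} (hf : LS f) : LS (fun a => pO (f a)) := by
  unfold pO
  fun_prop

theorem ls_nO {f : α → ℕ} (hf : LS f) : LS (fun a => nO (f a)) := by
  unfold nO
  fun_prop

theorem ls_uO {f : α → ℕ} (hf : LS f) : LS (fun a => uO (f a)) := by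
  unfold uO
  fun_prop

theorem ls_vO {f : α → ℕ} (hf : LS f) : LS (fun a => vO (f a)) := by
  unfold vO
  fun_prop

theorem LD.ls_len' (D : LD) {n : α → ℕ} (hn : LS n) : LS (fun a => D.len (n a)) :=
  LS.comp (g := D.len) D.ls_len hn

theorem LD.ls_pos' (D : LD) {n u : α → ℕ} (hn : LS n) (hu : LS u) :
    LS (fun a => D.pos (n a) (u a)) :=
  LS.comp (g := fun z : ℕ × ℕ => D.pos z.1 z.2) (f := fun a => (n a, u a)) D.ls_pos (by fun_prop)

theorem LD.ls_lt' (D : LD) {n u x : α → ℕ} (hn : LS n) (hu : LS u) (hx : LS x) :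
    LS (fun a => D.lt (n a) (u a) (x a)) :=
  LS.comp (g := fun z : ℕ × ℕ × ℕ => D.lt z.1 z.2.1 z.2.2) (f := fun a => (n a, u a, x a)) D.ls_lt
    (by fun_prop)

end

/-! ### The functions of the machine -/

/-- The number of the letter of `w` which is read for the letter number `u` of `F w`. -/
def adr1 (D : LD) (n u : ℕ) : ℕ := ifz (lt01 n (D.pos n u)) (D.pos n u) n

/-- The number of the letter which is read for the letter number `u` of `F w y`. -/
def adr (D : LD) (n u : ℕ) : ℕ :=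
  ifz (lt01 u (D.len n)) (u - D.len n) (ifz (lt01 n (D.pos n u)) (D.pos n u) n)

/-- The letter number `u`, if `r` is the code of the letters which are read. -/
def ltv (D : LD) (n u r : ℕ) : ℕ :=
  ifz (lt01 u (D.len n)) (r / 3) (D.lt n u (r % 3))

/-- The name of the register which is read. -/
def addrF (D : LD) (P : List Ins) (x : ℕ) : ℕ :=
  ifz (pO x) (2 * bitsN (nO x)) (selF (fun o x => ifz (pO x % 3) (2 * a0 o + 1) (ifz (pO x % 3 - 1)
    (ifz (inpL o) (2 * a1 o (uO x) + 1) (2 * bitsN (ifz (inpL o - 1) (adr1 D (nO x) (uO x)) (uO x))))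
      1)) P (pO x / 3 - 1) x)

/-- The new state. -/
def nextF (D : LD) (P : List Ins) (x : ℕ) : ℕ :=
  ifz (pO (hd x)) (ifz ((tl x / 2 - 1) % 3) (sto (accF P 0) 3 (nO (hd x)) 0 0)
    (sto 0 0 (nO (hd x) + 1) 0 0))
  (selF (fun o x => ifz (pO (hd x) % 3)
    (sto 0 (pO (hd x) + 1) (nO (hd x)) (tl x / 2 - 1) 0)
    (ifz (pO (hd x) % 3 - 1)
      (sto 0 (pO (hd x) + 1) (nO (hd x)) (uO (hd x)) (ifz (inpL o) (tl x / 2 - 1)
        (ifz (inpL o - 1) (D.lt (nO (hd x)) (uO (hd x)) ((tl x / 2 - 1) % 3))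
          ((tl x / 2 - 1) / 3))))
      (sto (accF P (npc o (pO (hd x) / 3 - 1) (uO (hd x))))
        (3 * (npc o (pO (hd x) / 3 - 1) (uO (hd x)) + 1)) (nO (hd x)) 0 0)))
    P (pO (hd x) / 3 - 1) x)

/-- The new content. -/
def writeF (P : List Ins) (x : ℕ) : ℕ :=
  selF (fun o x => ifz (eq01 (hd (tl x)) (2 * dst o (uO (hd x)) + 1)) (tl (tl x))
    (valL o (uO (hd x)) (vO (hd x)) + 1)) P (pO (hd x) / 3 - 1) x

section

variable {α : Type} [Ctx α]

theorem ls_adr (D : LD) {n u : α → ℕ} (hn : LS n) (hu : LS u) :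
    LS (fun a => adr D (n a) (u a)) := by
  unfold adr
  have h1 := D.ls_len' hn
  have h2 := D.ls_pos' hn hu
  exact LS.ifz (LS.lt01 hu h1) (LS.sub hu h1) (LS.ifz (LS.lt01 hn h2) h2 hn)

theorem ls_adr1 (D : LD) {n u : α → ℕ} (hn : LS n) (hu : LS u) :
    LS (fun a => adr1 D (n a) (u a)) := by
  unfold adr1
  have h2 := D.ls_pos' hn hu
  exact LS.ifz (LS.lt01 hn h2) h2 hn

theorem ls_ltv (D : LD) {n u r : α → ℕ} (hn : LS n) (hu : LS u) (hr : LS r) :
    LS (fun a => ltv D (n a) (u a) (r a)) := by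
  unfold ltv
  have h1 := D.ls_len' hn
  have h2 := D.ls_lt' hn hu (x := fun a => r a % 3) (by fun_prop)
  exact LS.ifz (LS.lt01 hu h1) (by fun_prop) h2

end

theorem ls_addrF (D : LD) (P : List Ins) : LS (addrF D P) := by
  have hp : LS (fun x : ℕ => pO x) := ls_pO (by fun_prop)
  have hn : LS (fun x : ℕ => nO x) := ls_nO (by fun_prop)
  have hu : LS (fun x : ℕ => uO x) := ls_uO (by fun_prop)
  have hb : LS (fun x : ℕ => 2 * bitsN (nO x)) := LS.mul (LS.const 2) (LS.bitsN hn)
  refine LS.ifz hp hb (ls_selF (fun o => ?_) P (by fun_prop))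
  have h1 : LS (fun x : ℕ => a1 o (uO x)) := ls_a1 o hu
  have h2 : LS (fun x : ℕ => bitsN (ifz (inpL o - 1) (adr1 D (nO x) (uO x)) (uO x))) :=
    LS.bitsN (LS.ifz (LS.const _) (ls_adr1 D hn hu) hu)
  fun_prop

theorem ls_nextF (D : LD) (P : List Ins) : LS (nextF D P) := by
  have hh := ls_hd
  have ht := ls_tl
  have hp : LS (fun x : ℕ => pO (hd x)) := ls_pO hh
  have hn : LS (fun x : ℕ => nO (hd x)) := ls_nO hh
  have hu : LS (fun x : ℕ => uO (hd x)) := ls_uO hh
  have hv : LS (fun x : ℕ => tl x / 2 - 1) := by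
    have h1 : LS (fun x : ℕ => tl x) := ht
    fun_prop
  have g1 := ls_sto (LS.const (α := ℕ) (accF P 0)) (LS.const 3) hn (LS.const 0) (LS.const 0)
  have g2 := ls_sto (LS.const (α := ℕ) 0) (LS.const 0) (LS.add hn (LS.const 1)) (LS.const 0)
    (LS.const 0)
  refine LS.ifz hp (LS.ifz (by fun_prop) g1 g2) (ls_selF (fun o => ?_) P (by fun_prop))
  have h1 : LS (fun x : ℕ => npc o (pO (hd x) / 3 - 1) (uO (hd x))) := ls_npc o (by fun_prop) hu
  have h2 := ls_accF P h1
  have h6 := D.ls_lt' hn hu (x := fun x : ℕ => (tl x / 2 - 1) % 3) (by fun_prop)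
  have h7 : LS (fun x : ℕ => ifz (inpL o) (tl x / 2 - 1)
      (ifz (inpL o - 1) (D.lt (nO (hd x)) (uO (hd x)) ((tl x / 2 - 1) % 3))
        ((tl x / 2 - 1) / 3))) :=
    LS.ifz (LS.const _) hv (LS.ifz (LS.const _) h6 (by fun_prop))
  have h3 := ls_sto (LS.const (α := ℕ) 0) (LS.add hp (LS.const 1)) hn hv (LS.const 0)
  have h4 := ls_sto (LS.const (α := ℕ) 0) (LS.add hp (LS.const 1)) hn hu h7
  have h5 := ls_sto h2 (LS.mul (LS.const 3) (LS.add h1 (LS.const 1))) hn (LS.const 0) (LS.const 0)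
  exact LS.ifz (by fun_prop) h3 (LS.ifz (by fun_prop) h4 h5)

theorem ls_writeF (P : List Ins) : LS (writeF P) := by
  have hh := ls_hd
  have ht := ls_tl
  have hp : LS (fun x : ℕ => pO (hd x)) := ls_pO hh
  have hu : LS (fun x : ℕ => uO (hd x)) := ls_uO hh
  have hv : LS (fun x : ℕ => vO (hd x)) := ls_vO hh
  refine ls_selF (fun o => ?_) P (by fun_prop)
  have h1 := ls_dst o hu
  have h2 := ls_valL o hu hv
  have h3 : LS (fun x : ℕ => hd (tl x)) := LS.comp (g := hd) hh ht
  have h4 : LS (fun x : ℕ => tl (tl x)) := LS.comp (g := tl) ht ht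
  exact LS.ifz (LS.eq01 h3 (by fun_prop)) h4 (by fun_prop)

/-- The machine with messages which runs the program. -/
noncomputable def machL (D : LD) (P : List Ins) : NBM where
  start := wd (sto 0 0 0 0 0)
  init a b := wd (1 + lett a + 3 * lett b)
  addr := wf (addrF D P)
  next := wf (nextF D P)
  write := wf (writeF P)
  ask _ := false
  msg u := decide (pO (num u) % 3 = 2)
  reset _ := false
  addr_lin := linComp_wf (ls_addrF D P)
  next_lin := linComp_wf (ls_nextF D P)
  write_lin := linComp_wf (ls_writeF P)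
  ask_lin := Pool.Agent.Helper31.TMS.linComp_of_ls (F := fun _ => 2) (LS.const 2) fun _ => rfl
  msg_lin := by
    have hp : LS (fun x : ℕ => pO x) := ls_pO (by fun_prop)
    refine Pool.Agent.Helper31.TMS.linComp_of_ls (F := fun x => 2 + eq01 (pO x % 3) 2)
      (by fun_prop) fun u => ?_
    unfold eq01
    by_cases h : pO (num u) % 3 = 2
    · simp [h, num]
    · simp [h, num]
  reset_lin := Pool.Agent.Helper31.TMS.linComp_of_ls (F := fun _ => 2) (LS.const 2) fun _ => rfl

end Pool.Agent.Helper92.RE
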