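import Pool.Agent.Helper92.RE.Loc
import Pool.Agent.Helper92.KR.Num

/-!
# Local functions are computed in linear space
-/

namespace Pool.Agent.Helper92.RE

open Pool.Agent.Helper65.LinSpace Pool.Agent.Helper78.Mpc Pool.Agent.Helper81.RP
open Pool.Agent.Helper92.KR (l1 rst cd l1_cd rst_cd l1_lt_iff num_inj)

/-- The number of the letter number `p` of the word with the number `y`. -/
def lb (y p : ℕ) : ℕ := lt01 p (Nat.log 2 y) * (dig 2 y p + 1)

theorem lb_eq (w : List Bool) (p : ℕ) : lb (num w) p = lett w[p]? := by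
  unfold lb
  rw [log_num]
  by_cases h : p < w.length
  · rw [lt01, if_pos h, one_mul, dig_num w p h, List.getElem?_eq_getElem h]
    cases w[p] <;> rfl
  · rw [lt01, if_neg h, zero_mul, List.getElem?_eq_none (by omega)]
    rfl

/-- **Local functions are computed in linear space.** -/
theorem Loc.linComp {F : List Bool → List Bool} (h : Loc F) : LinComp F := by
  obtain ⟨len, pos, lt, h1, h2, h3, -, h4⟩ := h
  intro b
  refine LS.dlinspace (F := fun u => lt01 (l1 u) (Nat.log 2 u) *
    eq01 (lt (Nat.log 2 (rst u)) (l1 u) (lb (rst u) (pos (Nat.log 2 (rst u)) (l1 u))))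
      (b.toNat + 1)) ?_ _ ?_
  · have e1 : LS (fun u => pos (Nat.log 2 (rst u)) (l1 u)) :=
      LS.comp (g := fun z : ℕ × ℕ => pos z.1 z.2) (f := fun u => (Nat.log 2 (rst u), l1 u)) h2
        (by fun_prop)
    have e2 : LS (fun u => lb (rst u) (pos (Nat.log 2 (rst u)) (l1 u))) := by
      unfold lb
      exact LS.mul (LS.lt01 e1 (by fun_prop)) (LS.add (LS.dig (by fun_prop) (by fun_prop) e1)
        (by fun_prop))
    have e3 : LS (fun u => lt (Nat.log 2 (rst u)) (l1 u)
        (lb (rst u) (pos (Nat.log 2 (rst u)) (l1 u)))) :=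
      LS.comp (g := fun z : ℕ × ℕ × ℕ => lt z.1 z.2.1 z.2.2)
        (f := fun u => (Nat.log 2 (rst u), l1 u, lb (rst u) (pos (Nat.log 2 (rst u)) (l1 u)))) h3
        (by fun_prop)
    exact LS.mul (LS.lt01 (by fun_prop) (by fun_prop)) (LS.eq01 e3 (by fun_prop))
  · intro u
    have hmem : u ∈ {u | ∃ (i : ℕ) (w : List Bool), u = List.replicate i true ++ false :: w ∧
        (F w)[i]? = some b} ↔ ∃ i w, u = cd i w ∧ (F w)[i]? = some b :=
      Iff.rfl
    rw [hmem]
    by_cases h : l1 (num u) < u.length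
    · obtain ⟨n, d, rfl⟩ := (l1_lt_iff u).1 h
      have e1 : lt01 (l1 (num (cd n d))) (Nat.log 2 (num (cd n d))) = 1 := by
        rw [log_num, lt01, if_pos h]
      have e2 : (∃ i w, cd n d = cd i w ∧ (F w)[i]? = some b) ↔ (F d)[n]? = some b := by
        constructor
        · rintro ⟨i, w, h1, h2⟩
          have h3 : n = i := by rw [← l1_cd n d, h1, l1_cd]
          have h4 : d = w := num_inj (by rw [← rst_cd n d, h1, rst_cd])
          rw [h3, h4]
          exact h2
        · exact fun h1 => ⟨n, d, rfl, h1⟩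
      rw [e1, one_mul, e2, l1_cd, rst_cd, log_num, lb_eq, ← (h4 d).2 n]
      unfold eq01
      cases hv : (F d)[n]? with
      | none => cases b <;> simp [lett]
      | some a => cases a <;> cases b <;> simp [lett]
    · have e1 : lt01 (l1 (num u)) (Nat.log 2 (num u)) = 0 := by
        rw [log_num, lt01, if_neg h]
      rw [e1, zero_mul]
      refine ⟨?_, fun h => absurd rfl h⟩
      rintro ⟨i, w, rfl, -⟩
      exact absurd ((l1_lt_iff _).2 ⟨i, w, rfl⟩) h

end Pool.Agent.Helper92.RE
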