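import Pool.Agent.Helper31.Gen5.Hard
import Pool.Agent.Helper81.Gen4.Main

/-!
# Hardness: only long words and short advice matter
-/

namespace Pool.Agent.Helper92.RE

open Pool.Agent.Helper65.LinSpace
open Pool.Agent.Helper31.Gen5 (Hard)

/-- Only long words and short advice matter. -/
theorem hard_adv {L : Set (List Bool)} {c : ℕ} (hc : 0 < c)
    {Acc Good Good' : List Bool → List Bool → Prop}
    (h : Hard L c Acc Good) (n₁ : ℕ) (h2 : ∀ w α, n₁ ≤ w.length → α.length ≤ c * w.length →
      Good' w α → Good w α) :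
    Hard L c Acc Good' := by
  have hfin : ∀ n : ℕ, {w : List Bool | w.length = n}.Finite := fun n =>
    List.finite_length_eq Bool n
  have hc0 : (0 : ℝ) < c := by exact_mod_cast hc
  have hcard : ∀ (n : ℕ) (p : List Bool → Prop),
      ({w : List Bool | w.length = n ∧ p w}.ncard : ℝ) ≤ 2 ^ n := by
    intro n p
    have h3 : {w : List Bool | w.length = n ∧ p w}.ncard ≤ 2 ^ n := by
      refine (Set.ncard_le_ncard (t := {w : List Bool | w.length = n})
        (fun w hw => hw.1) (hfin n)).trans ?_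
      rw [Pool.Agent.Helper81.Gen4.ncard_len]
    exact_mod_cast h3
  refine ⟨?_, ?_, ?_⟩
  · obtain ⟨c', h4⟩ := h.avg
    refine ⟨|c'| + 2 ^ n₁, fun n α M hM => ?_⟩
    have h5 : (1 : ℝ) ≤ (α.length : ℝ) + 1 := by
      have : (0 : ℝ) ≤ α.length := Nat.cast_nonneg _
      linarith
    have hP : (1 : ℝ) ≤ 2 ^ (((n : ℝ) + α.length / c) / 2) :=
      Real.one_le_rpow (by norm_num) (by positivity)
    have h9 : (1 : ℝ) ≤ 2 ^ n₁ := one_le_pow₀ (by norm_num)
    have h8 := abs_nonneg c'
    have h10 : (0 : ℝ) ≤ 2 ^ n / 2 := by positivity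
    by_cases hgood : n₁ ≤ n ∧ α.length ≤ c * n
    · refine (le_trans (Nat.cast_le.2 (Set.ncard_le_ncard ?_
        ((hfin n).subset fun w hw => hw.1))) (h4 n α M hM)).trans ?_
      · rintro w ⟨h5, h6, h7⟩
        exact ⟨h5, h6, fun h8 => h2 w α (by omega) (by rw [h5]; exact hgood.2) (h7 h8)⟩
      · have h11 := le_abs_self c'
        have h12 : c' * (((α.length : ℝ) + 1) * 2 ^ (((n : ℝ) + α.length / c) / 2)) ≤
            (|c'| + 2 ^ n₁) * (((α.length : ℝ) + 1) * 2 ^ (((n : ℝ) + α.length / c) / 2)) :=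
          mul_le_mul_of_nonneg_right (by linarith) (by positivity)
        rw [mul_assoc, mul_assoc]
        linarith
    · refine (hcard n _).trans ?_
      have hkey : (2 : ℝ) ^ n ≤ (|c'| + 2 ^ n₁) * ((α.length : ℝ) + 1) *
          2 ^ (((n : ℝ) + α.length / c) / 2) := by
        rcases Nat.lt_or_ge n n₁ with hn | hn
        · calc (2 : ℝ) ^ n ≤ 2 ^ n₁ := pow_le_pow_right₀ (by norm_num) hn.le
            _ = 2 ^ n₁ * 1 * 1 := by ring
            _ ≤ (|c'| + 2 ^ n₁) * ((α.length : ℝ) + 1) * 2 ^ (((n : ℝ) + α.length / c) / 2) := by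
              gcongr
              linarith
        · have hlong : c * n < α.length := by
            by_contra hcon
            exact hgood ⟨hn, by omega⟩
          have h13 : (n : ℝ) ≤ (α.length : ℝ) / c := by
            rw [le_div_iff₀ hc0]
            have : ((c * n : ℕ) : ℝ) ≤ α.length := by exact_mod_cast hlong.le
            push_cast at this
            linarith
          have h14 : (2 : ℝ) ^ n ≤ 2 ^ (((n : ℝ) + α.length / c) / 2) := by
            rw [← Real.rpow_natCast]
            exact Real.rpow_le_rpow_of_exponent_le (by norm_num) (by linarith)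
          calc (2 : ℝ) ^ n = 1 * 1 * 2 ^ n := by ring
            _ ≤ (|c'| + 2 ^ n₁) * ((α.length : ℝ) + 1) * 2 ^ (((n : ℝ) + α.length / c) / 2) := by
              gcongr
              linarith
      linarith
  · obtain ⟨c', h4⟩ := h.rel
    refine ⟨|c'| + 2 ^ n₁, fun n α M hM => ?_⟩
    have h5 : (1 : ℝ) ≤ (α.length : ℝ) + 1 := by
      have : (0 : ℝ) ≤ α.length := Nat.cast_nonneg _
      linarith
    have hP : (1 : ℝ) ≤ 2 ^ ((α.length : ℝ) / (2 * c)) :=
      Real.one_le_rpow (by norm_num) (by positivity)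
    have hsq := Real.sqrt_nonneg ({w : List Bool | w.length = n ∧ w ∉ M ∧ Acc w α}.ncard : ℝ)
    have h8 := abs_nonneg c'
    have h9 : (1 : ℝ) ≤ 2 ^ n₁ := one_le_pow₀ (by norm_num)
    by_cases hgood : n₁ ≤ n ∧ α.length ≤ c * n
    · refine (le_trans (Nat.cast_le.2 (Set.ncard_le_ncard ?_
        ((hfin n).subset fun w hw => hw.1))) (h4 n α M hM)).trans ?_
      · rintro w ⟨h5, h6, h7⟩
        exact ⟨h5, h6, h2 w α (by omega) (by rw [h5]; exact hgood.2) h7⟩
      · have hpos : (0 : ℝ) ≤ ((α.length : ℝ) + 1) * 2 ^ ((α.length : ℝ) / (2 * c)) := by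
          positivity
        have h10 : c' * (((α.length : ℝ) + 1) * 2 ^ ((α.length : ℝ) / (2 * c))) ≤
            (|c'| + 2 ^ n₁) * (((α.length : ℝ) + 1) * 2 ^ ((α.length : ℝ) / (2 * c))) :=
          mul_le_mul_of_nonneg_right (by have := le_abs_self c'; linarith) hpos
        have h11 : -((|c'| + 2 ^ n₁) * (((α.length : ℝ) + 1) *
            2 ^ ((α.length : ℝ) / (2 * c)))) ≤
            c' * (((α.length : ℝ) + 1) * 2 ^ ((α.length : ℝ) / (2 * c))) := by
          rw [← neg_mul]
          exact mul_le_mul_of_nonneg_right (by have := neg_abs_le c'; linarith) hpos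
        rw [mul_assoc, mul_assoc]
        refine sq_le_sq' ?_ ?_ <;> linarith
    · refine (hcard n _).trans ?_
      have hkey : (2 : ℝ) ^ n ≤ ((|c'| + 2 ^ n₁) * ((α.length : ℝ) + 1) *
          2 ^ ((α.length : ℝ) / (2 * c))) ^ 2 := by
        rcases Nat.lt_or_ge n n₁ with hn | hn
        · have h12 : (2 : ℝ) ^ n₁ ≤ (|c'| + 2 ^ n₁) * ((α.length : ℝ) + 1) *
              2 ^ ((α.length : ℝ) / (2 * c)) := by
            calc (2 : ℝ) ^ n₁ = 2 ^ n₁ * 1 * 1 := by ring
              _ ≤ (|c'| + 2 ^ n₁) * ((α.length : ℝ) + 1) * 2 ^ ((α.length : ℝ) / (2 * c)) := by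
                gcongr
                linarith
          calc (2 : ℝ) ^ n ≤ 2 ^ n₁ := pow_le_pow_right₀ (by norm_num) hn.le
            _ ≤ (2 ^ n₁) ^ 2 := by nlinarith
            _ ≤ _ := pow_le_pow_left₀ (by positivity) h12 2
        · have hlong : c * n < α.length := by
            by_contra hcon
            exact hgood ⟨hn, by omega⟩
          have h13 : (n : ℝ) / 2 ≤ (α.length : ℝ) / (2 * c) := by
            rw [div_le_div_iff₀ (by norm_num) (by positivity)]
            have : ((c * n : ℕ) : ℝ) ≤ α.length := by exact_mod_cast hlong.le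
            push_cast at this
            linarith
          have h14 : (2 : ℝ) ^ ((n : ℝ) / 2) ≤ (|c'| + 2 ^ n₁) * ((α.length : ℝ) + 1) *
              2 ^ ((α.length : ℝ) / (2 * c)) := by
            calc (2 : ℝ) ^ ((n : ℝ) / 2) = 1 * 1 * 2 ^ ((n : ℝ) / 2) := by ring
              _ ≤ (|c'| + 2 ^ n₁) * ((α.length : ℝ) + 1) * 2 ^ ((α.length : ℝ) / (2 * c)) := by
                gcongr
                · linarith
                · norm_num
          calc (2 : ℝ) ^ n = (2 ^ ((n : ℝ) / 2)) ^ 2 := by
                rw [← Real.rpow_natCast, ← Real.rpow_natCast, ← Real.rpow_mul (by norm_num)]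
                congr 1
                push_cast
                ring
            _ ≤ _ := pow_le_pow_left₀ (by positivity) h14 2
      refine hkey.trans (pow_le_pow_left₀ (by positivity) (by linarith) 2)
  · intro M hM h4
    refine ((h.ae M hM h4).union (List.finite_length_lt Bool n₁)).subset fun w hw => ?_
    rcases lt_or_ge w.length n₁ with hn | hn
    · exact Or.inr hn
    · exact Or.inl (h2 w [] hn (Nat.zero_le _) hw)

end Pool.Agent.Helper92.RE
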