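import Pool.Agent.Helper92.RE.Loc

/-!
# The letters of the regular expression of the reduction
-/

namespace Pool.Agent.Helper92.RE

open Pool.Agent.Helper65.LinSpace Pool.Agent.Helper78.Mpc Pool.Agent.Helper81.RP
open RegularExpression (zero epsilon char plus comp)

theorem enc_word_length (v : List Bool) : (enc (word v)).length = 6 * v.length + 3 := by
  induction v with
  | nil => rfl
  | cons b v ih =>
    show (true :: false :: true :: ([false, true, b] ++ enc (word v))).length = _
    simp only [List.length_cons, List.length_append, ih, List.length_nil]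
    ring

theorem loc_cons {F : List Bool → List Bool} (a : Bool) (hF : Loc F) : Loc fun w => a :: F w :=
  loc_append (loc_const [a]) hF

section

variable {b : ℕ}

/-- The code of the image. -/
def eh (r : RegularExpression (Fin b → Bool)) : List Bool := enc (hom (blk b) r)

theorem eh_plus (p q : RegularExpression (Fin b → Bool)) :
    eh (plus p q) = true :: false :: false :: (eh p ++ eh q) := rfl

theorem eh_comp (p q : RegularExpression (Fin b → Bool)) :
    eh (comp p q) = true :: false :: true :: (eh p ++ eh q) := rfl

theorem eh_sumC_length (l : List (Fin b → Bool)) :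
    (eh (sumC l)).length = l.length * (6 * b + 6) + 3 := by
  induction l with
  | nil =>
    show 3 = 0 * (6 * b + 6) + 3
    rw [zero_mul]
  | cons a l ih =>
    show (eh (plus (char a) (sumC l))).length = _
    rw [eh_plus]
    have h1 : eh (char a) = enc (word (blk b a)) := rfl
    simp only [List.length_cons, List.length_append, ih, h1, enc_word_length, blk_length]
    ring

theorem eh_rep (r s : RegularExpression (Fin b → Bool)) (j : ℕ) :
    eh (rep r j s) = (List.replicate j (true :: false :: true :: eh r)).flatten ++ eh s := by
  induction j with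
  | zero => rfl
  | succ j ih =>
    show eh (comp r (rep r j s)) = _
    rw [eh_comp, ih, List.replicate_succ, List.flatten_cons]
    simp

/-- The part of the code of `pre` for one letter. -/
noncomputable def hPre (a : Fin b → Bool) : List Bool :=
  true :: false :: false :: (enc epsilon ++ (true :: false :: false ::
    ((true :: false :: true :: (eh (sumC ((allL (Fin b → Bool)).erase a)) ++
      eh (anyS (Fin b → Bool)))) ++ (true :: false :: true :: eh (char a)))))

theorem eh_pre (P : List (Fin b → Bool)) : eh (pre P) = P.flatMap hPre ++ enc zero := by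
  induction P with
  | nil => rfl
  | cons a P ih =>
    show eh (plus epsilon (plus (comp (sumC ((allL (Fin b → Bool)).erase a)) (anyS (Fin b → Bool)))
      (comp (char a) (pre P)))) = _
    rw [eh_plus, eh_plus, eh_comp, eh_comp, ih, List.flatMap_cons]
    have h1 : eh (epsilon : RegularExpression (Fin b → Bool)) = enc epsilon := rfl
    rw [h1]
    unfold hPre
    simp only [List.cons_append, List.append_assoc]

theorem hPre_length (a : Fin b → Bool) : (hPre a).length =
    3 + (3 + (3 + (3 + ((((allL (Fin b → Bool)).length - 1) * (6 * b + 6) + 3) +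
      (eh (anyS (Fin b → Bool))).length) + (3 + (6 * b + 3))))) := by
  unfold hPre
  have h1 : eh (char a) = enc (word (blk b a)) := rfl
  have h2 : (enc (epsilon : RegularExpression Bool)).length = 3 := rfl
  simp only [List.length_cons, List.length_append, h1, h2, enc_word_length, blk_length,
    eh_sumC_length, List.length_erase_of_mem (mem_allL a)]
  ring

theorem loc_term {m : ℕ → ℕ} (hm : LS m) {a : ℕ} (ha : ∀ n, m n ≤ a * (n + 1))
    (t : (Fin b → Bool) × (Fin b → Bool) × (Fin b → Bool) × (Fin b → Bool)) :
    Loc fun w => eh (term (m w.length) t) := by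
  have e1 : (fun w : List Bool => eh (term (m w.length) t)) = fun w =>
      (true :: false :: true :: (eh (anyS (Fin b → Bool)) ++
        (true :: false :: true :: (eh (char t.1) ++
          (true :: false :: true :: (eh (char t.2.1) ++
            (true :: false :: true :: (eh (char t.2.2.1) ++
              ((List.replicate (m w.length - 2) (true :: false :: true ::
                eh (anyC (Fin b → Bool)))).flatten ++
                (true :: false :: true :: (eh (char t.2.2.2) ++
                  eh (anyS (Fin b → Bool))))))))))))) := by
    funext w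
    unfold term
    simp only [eh_comp, eh_rep]
  rw [e1]
  have h1 : Loc fun w => (List.replicate (m w.length - 2) (true :: false :: true ::
      eh (anyC (Fin b → Bool)))).flatten :=
    loc_rep _ (g := fun n => m n - 2) (by fun_prop) (a := a)
      fun n => (Nat.sub_le _ _).trans (ha n)
  repeat' first
    | exact h1
    | exact loc_const _
    | refine loc_cons _ ?_
    | refine loc_append ?_ ?_

theorem loc_bad {m : ℕ → ℕ} (hm : LS m) {a : ℕ} (ha : ∀ n, m n ≤ a * (n + 1))
    (l : List ((Fin b → Bool) × (Fin b → Bool) × (Fin b → Bool) × (Fin b → Bool))) :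
    Loc fun w => eh (bad (m w.length) l) := by
  induction l with
  | nil => exact loc_const (enc zero)
  | cons t l ih =>
    have e1 : (fun w : List Bool => eh (bad (m w.length) (t :: l))) = fun w =>
        true :: false :: false :: (eh (term (m w.length) t) ++ eh (bad (m w.length) l)) := by
      funext w
      rfl
    rw [e1]
    exact loc_cons _ (loc_cons _ (loc_cons _ (loc_append (loc_term hm ha t) ih)))

theorem loc_noacc {m : ℕ → ℕ} (hm : LS m) {a : ℕ} (ha : ∀ n, m n ≤ a * (n + 1))
    (A B : List (Fin b → Bool)) : Loc fun w => eh (noacc (m w.length) A B) := by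
  have e1 : (fun w : List Bool => eh (noacc (m w.length) A B)) = fun w =>
      true :: false :: true :: (eh (.star (sumC B)) ++ (true :: false :: false ::
        (enc epsilon ++ (true :: false :: true :: (eh (sumC A) ++
          ((List.replicate (2 * m w.length - 1) (true :: false :: true ::
            eh (plus epsilon (anyC (Fin b → Bool))))).flatten ++ enc epsilon)))))) := by
    funext w
    unfold noacc
    simp only [eh_comp, eh_rep, eh_plus]
    rfl
  rw [e1]
  have h1 : Loc fun w => (List.replicate (2 * m w.length - 1) (true :: false :: true ::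
      eh (plus epsilon (anyC (Fin b → Bool))))).flatten :=
    loc_rep _ (g := fun n => 2 * m n - 1) (by fun_prop) (a := 2 * a)
      fun n => (Nat.sub_le _ _).trans (by rw [mul_assoc]; exact Nat.mul_le_mul_left 2 (ha n))
  repeat' first
    | exact h1
    | exact loc_const _
    | refine loc_cons _ ?_
    | refine loc_append ?_ ?_

end

/-! ### The first configuration -/

section

variable {k : ℕ} {M : TM k}

/-- The letters of the first configuration. -/
def mkL (M : TM k) (i : ℕ) : Letter M where
  c := ⟨M.start, none, fun _ => M.blank⟩
  d := { first := decide (i % 2 = 1)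
         last := decide (i / 2 % 2 = 1)
         a := if i / 8 = 0 then none else some (decide (i / 8 = 2))
         inp := decide (i % 2 = 1)
         s := fun _ => M.blank
         hd := fun _ => decide (i / 4 % 2 = 1) }

/-- The number of a letter of the first configuration. -/
def tauL (o : ℕ → ℕ) (n p x : ℕ) : ℕ :=
  eq01 (p - 1) 0 + 2 * eq01 (p - 1) (n + 1) + 4 * eq01 (p - 1) (o n) +
    8 * ifz (p - 1) 0 (ifz (lt01 2 x) x 0)

theorem tauL_lt (o : ℕ → ℕ) (n p x : ℕ) : tauL o n p x < 24 := by
  have h1 : ifz (lt01 2 x) x 0 ≤ 2 := by
    unfold ifz lt01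
    by_cases h : 2 < x
    · simp [h]
    · simp only [h, if_false, if_true]
      omega
  have h2 : ifz (p - 1) 0 (ifz (lt01 2 x) x 0) ≤ 2 := by
    rcases Nat.eq_zero_or_pos (p - 1) with h | h
    · rw [h, ifz_zero]
      omega
    · rw [ifz_ne h.ne']
      exact h1
  unfold tauL eq01
  split_ifs <;> omega

theorem letter_init (w : List Bool) (o : ℕ → ℕ) (p : ℕ) :
    letterOf w (o w.length) (M.run w 0) (p - 1) =
      mkL M (tauL o w.length p (lett w[p - 1 - 1]?)) := by
  have hx : lett w[p - 1 - 1]? ≤ 2 := by
    rcases w[p - 1 - 1]? with _ | _ | _ <;> simp [lett]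
  have hcap : ifz (lt01 2 (lett w[p - 1 - 1]?)) (lett w[p - 1 - 1]?) 0 = lett w[p - 1 - 1]? := by
    unfold lt01
    rw [if_neg (by omega), ifz_zero]
  have h1 : tauL o w.length p (lett w[p - 1 - 1]?) % 2 = eq01 (p - 1) 0 := by
    unfold tauL eq01
    split_ifs <;> omega
  have h2 : tauL o w.length p (lett w[p - 1 - 1]?) / 2 % 2 = eq01 (p - 1) (w.length + 1) := by
    unfold tauL eq01
    split_ifs <;> omega
  have h3 : tauL o w.length p (lett w[p - 1 - 1]?) / 4 % 2 = eq01 (p - 1) (o w.length) := by
    unfold tauL eq01
    split_ifs <;> omega
  have h4 : tauL o w.length p (lett w[p - 1 - 1]?) / 8 = ifz (p - 1) 0 (lett w[p - 1 - 1]?) := by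
    unfold tauL
    rw [hcap]
    unfold eq01
    split_ifs <;> omega
  unfold mkL
  rw [h1, h2, h3, h4]
  have e : ∀ x y : ℕ, decide (eq01 x y = 1) = decide (x = y) := by
    intro x y
    unfold eq01
    by_cases h : x = y
    · simp [h]
    · simp [h]
  simp only [e]
  show (⟨⟨M.start, none, fun _ => M.blank⟩, ⟨decide (p - 1 = 0), decide (p - 1 = w.length + 1),
    inputSym w (p - 1), decide (0 = p - 1), fun _ => M.blank,
    fun _ => decide ((0 : ℤ) = ((p - 1 : ℕ) : ℤ) - (o w.length : ℕ))⟩⟩ : Letter M) = _
  have e1 : decide (0 = p - 1) = decide (p - 1 = 0) := by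
    by_cases h : p - 1 = 0
    · simp [h]
    · rw [decide_eq_false h, decide_eq_false (Ne.symm h)]
  have e2 : decide ((0 : ℤ) = ((p - 1 : ℕ) : ℤ) - (o w.length : ℕ)) =
      decide (p - 1 = o w.length) := by
    by_cases h : p - 1 = o w.length
    · rw [decide_eq_true h, h]
      simp
    · rw [decide_eq_false h, decide_eq_false (by omega)]
  have e3 : inputSym w (p - 1) = if ifz (p - 1) 0 (lett w[p - 1 - 1]?) = 0 then none else
      some (decide (ifz (p - 1) 0 (lett w[p - 1 - 1]?) = 2)) := by
    unfold inputSym ifz
    by_cases h : p - 1 = 0
    · simp [h]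
    · rw [if_neg h, if_neg h]
      rcases w[p - 1 - 1]? with _ | _ | _ <;> simp [lett]
  rw [e1, e2, e3]

theorem initW_range (w : List Bool) (o : ℕ) :
    initW M w o = (List.range (2 * o + 2)).map fun p => letterOf w o (M.run w 0) (p - 1) := by
  rw [List.range_succ_eq_map, List.map_cons, List.map_map]
  unfold initW cfgW
  rfl

/-- **The letters of the code of the regular expression.** -/
theorem loc_redB {b : ℕ} (code : Letter M → Fin b → Bool) {o : ℕ → ℕ} (ho : LS o) {a : ℕ}
    (ha : ∀ n, o n ≤ a * (n + 1)) : Loc fun w => enc (redB code w (o w.length)) := by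
  have e1 : (fun w : List Bool => enc (redB code w (o w.length))) = fun w =>
      true :: false :: false :: ((true :: false :: false ::
        ((((List.range (2 * o w.length + 2)).flatMap fun p =>
          ((List.range 24).map fun i => hPre (code (mkL M i))).getD
            (tauL o w.length p (lett w[p - 1 - 1]?)) []) ++ enc zero) ++
          (true :: false :: false :: (eh (bad (2 * o w.length + 1) (lBad code)) ++
            eh (noacc (2 * o w.length + 1) (lAcc code) (lOth code)))))) ++ enc (nonmult b)) := by
    funext w
    show true :: false :: false :: (eh (histB code w (o w.length)) ++ enc (nonmult b)) = _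
    unfold histB hist
    rw [eh_plus, eh_plus, eh_pre, initW_range, List.map_map, List.flatMap_map]
    have h2 : ∀ p : ℕ, ((List.range 24).map fun i => hPre (code (mkL M i))).getD
        (tauL o w.length p (lett w[p - 1 - 1]?)) [] =
        hPre (code (letterOf w (o w.length) (M.run w 0) (p - 1))) := by
      intro p
      have h3 := tauL_lt o w.length p (lett w[p - 1 - 1]?)
      rw [List.getD_eq_getElem _ _ (by simpa using h3), List.getElem_map, List.getElem_range,
        letter_init]
    simp only [h2]
    rfl
  rw [e1]
  have h1 : Loc fun w => (List.range (2 * o w.length + 2)).flatMap fun p =>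
      ((List.range 24).map fun i => hPre (code (mkL M i))).getD
        (tauL o w.length p (lett w[p - 1 - 1]?)) [] := by
    refine loc_range (g := fun n => 2 * o n + 2) (by
      intro v hv
      obtain ⟨i, _, rfl⟩ := List.mem_map.1 hv
      exact hPre_length _) (by fun_prop) (a := 2 * a + 2) (fun n => ?_)
      (p := fun _ p => p - 1 - 1) (by fun_prop) (τ := tauL o) ?_ (fun n j x _ => ?_) fun w => rfl
    · have := ha n
      calc 2 * o n + 2 ≤ 2 * (a * (n + 1)) + 2 * (n + 1) := by omega
        _ = (2 * a + 2) * (n + 1) := by ring
    · unfold tauL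
      have e2 : LS (fun z : ℕ × ℕ × ℕ => o z.1) := LS.comp (g := o) ho (by fun_prop)
      fun_prop
    · rw [List.length_map, List.length_range]
      exact tauL_lt _ _ _ _
  have hm : ∀ n, 2 * o n + 1 ≤ (2 * a + 1) * (n + 1) := by
    intro n
    have := ha n
    calc 2 * o n + 1 ≤ 2 * (a * (n + 1)) + 1 * (n + 1) := by omega
      _ = (2 * a + 1) * (n + 1) := by ring
  have h2 := loc_bad (m := fun n => 2 * o n + 1) (by fun_prop) hm (lBad code)
  have h3 := loc_noacc (m := fun n => 2 * o n + 1) (by fun_prop) hm (lAcc code) (lOth code)
  repeat' first
    | exact h1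
    | exact h2
    | exact h3
    | exact loc_const _
    | refine loc_cons _ ?_
    | refine loc_append ?_ ?_

/-- The regular expression is long. -/
theorem le_redB {b : ℕ} (code : Letter M → Fin b → Bool) (w : List Bool) (o : ℕ) :
    o ≤ (enc (redB code w o)).length := by
  have h1 : (enc (redB code w o)).length = 3 + ((3 + ((((initW M w o).map code).flatMap hPre ++
      enc zero).length + (3 + ((eh (bad (2 * o + 1) (lBad code))).length +
        (eh (noacc (2 * o + 1) (lAcc code) (lOth code))).length)))) + (enc (nonmult b)).length) := by
    show (true :: false :: false :: (eh (histB code w o) ++ enc (nonmult b))).length = _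
    unfold histB hist
    rw [eh_plus, eh_plus, eh_pre]
    simp only [List.length_cons, List.length_append]
    ring
  have h2 : ((initW M w o).map code).length ≤
      (((initW M w o).map code).flatMap hPre).length := by
    generalize (initW M w o).map code = l
    induction l with
    | nil => exact Nat.zero_le _
    | cons a l ih =>
      rw [List.flatMap_cons, List.length_append, List.length_cons]
      have : 1 ≤ (hPre a).length := by
        rw [hPre_length]
        omega
      omega
  have h3 : ((initW M w o).map code).length = 2 * o + 2 := by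
    rw [List.length_map, initW_range, List.length_map, List.length_range]
  rw [List.length_append] at h1
  omega

end

end Pool.Agent.Helper92.RE
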