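import Pool.Agent.Helper92.RE.Good
import Pool.Agent.Helper92.RE.Code
import Pool.Agent.Helper92.RE.Adv

/-!
# Hardness for programs of random access machines on the words `F w` and `y`
-/

namespace Pool.Agent.Helper92.RE

open Pool.Agent.Helper65.LinSpace Pool.Agent.Helper78.Mpc
open Pool.Agent.Helper81.Sus2 (NBM Decomp)
open Pool.Agent.Helper81.Gen4 (Q Q_mono)
open Pool.Agent.Helper31.Gen5 (Hard)
open Pool.Agent.Helper81.RP (Ins AcceptsAt)

theorem Loc.exists_ld {F : List Bool → List Bool} (h : Loc F) :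
    ∃ D : LD, D.Is F ∧ ∃ a : ℕ, ∀ w, (F w).length ≤ a * (w.length + 1) := by
  obtain ⟨len, pos, lt, h1, h2, h3, ⟨a, h4⟩, h5⟩ := h
  exact ⟨⟨len, pos, lt, h1, h2, h3⟩, h5, a, fun w => by
    rw [(h5 w).1]
    exact h4 _⟩

/-- A decompressor. -/
noncomputable def noE : Decomp := ⟨fun _ => [], fun _ => [],
  Pool.Agent.Helper31.TMS.linComp_of_ls (F := fun _ => 1) (LS.const 1) fun _ => rfl,
  Pool.Agent.Helper31.TMS.linComp_of_ls (F := fun _ => 1) (LS.const 1) fun _ => rfl⟩

/-- Programs on the words `F w` and `y` are as weak as machines with messages. -/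
theorem ram_hard {L : Set (List Bool)} {c : ℕ} (hc : 0 < c)
    (h1 : ∀ (A : NBM) (E : Decomp) (C : ℝ),
      Hard L c (fun w α => Q (c * w.length) fun v => ∃ g r, A.AcceptsAt w (α ++ v) g r)
        (fun w α => Q (c * w.length) fun v => A.Good E c C w (α ++ v)))
    (h2 : ∀ (A : NBM) (E : Decomp) (C : ℝ),
      Hard L c (fun w α => ∃ g r, A.AcceptsAt w α g r) (fun w α => A.Good E c C w α))
    {D : LD} {F : List Bool → List Bool} (hF : D.Is F) {b : ℕ}
    (hlen : ∀ w, (F w).length ≤ b * (w.length + 1)) (hle : ∀ w, w.length ≤ (F w).length)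
    (P : List Ins) (C : ℝ) :
    Hard L c (fun w α => Q (c * w.length) fun v => ∃ t, AcceptsAt P (F w) (α ++ v) t)
      (fun w α => Q (c * w.length) fun v => Fast P C (F w) (α ++ v)) ∧
    Hard L c (fun w α => ∃ t, AcceptsAt P (F w) α t) (fun w α => Fast P C (F w) α) := by
  obtain ⟨C', n₁, h3⟩ := good_of_fast hF hlen hle P noE hc C
  have hacc : ∀ w y : List Bool, (∃ g r, (machL D P).AcceptsAt w y g r) →
      ∃ t, AcceptsAt P (F w) y t := by
    rintro w y ⟨g, r, h⟩
    obtain ⟨t, _, ht⟩ := (accepts_iff hF P w y g r).1 h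
    exact ⟨t, ht⟩
  constructor
  · refine (hard_adv hc (h1 (machL D P) noE C') n₁ (Good' := fun w α =>
      Q (c * w.length) fun v => Fast P C (F w) (α ++ v)) ?_).mono ?_ fun w α h => h
    · intro w α hw _ h
      exact Q_mono (fun x u y _ _ _ h4 => h3 w _ hw h4) h
    · intro w α h
      exact Q_mono (fun x u y _ _ _ h4 => hacc w _ h4) h
  · refine (hard_adv hc (h2 (machL D P) noE C') n₁ (Good' := fun w α =>
      Fast P C (F w) α) ?_).mono ?_ fun w α h => h
    · exact fun w α hw _ h => h3 w α hw h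
    · exact fun w α h => hacc w α h

end Pool.Agent.Helper92.RE
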