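import Pool.Agent.Helper92.KR.Net
import Pool.Agent.Helper92.RE.LinC
import Pool.Agent.Helper92.RE.Ram

/-!
# Regular expressions
-/

namespace Pool.Agent.Helper92.RE

open Pool.Agent.Helper65.LinSpace Pool.Agent.Helper78.Mpc
open Pool.Agent.Helper81.RP (Ins)
open Pool.Agent.Helper81.Gen4 (Q)
open Pool.Agent.Helper31.Gen5 (Hard)
open Pool.Agent.Helper65.HC (Circ)
open Pool.Agent.Helper92.KR (sim_hard sim_ram sim_tm sim_tm1 sim_circ sim_ca)

/-- About half of the words are in a language which is hard for the machine which accepts nothing. -/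
theorem half_of_hard {L : Set (List Bool)} {c : ℕ} (h : Hard L c (fun _ _ => False)
    fun _ _ => False) : ∃ c' : ℝ, ∀ n : ℕ,
      |({w : List Bool | w.length = n ∧ w ∈ L}.ncard : ℝ) - 2 ^ n / 2| ≤
        c' * 2 ^ ((n : ℝ) / 2) := by
  obtain ⟨c', h1⟩ := h.avg
  refine ⟨c', fun n => ?_⟩
  have hfin : {w : List Bool | w.length = n}.Finite := List.finite_length_eq Bool n
  have h2 := h1 n [] L (Or.inl rfl)
  have h3 := h1 n [] Lᶜ (Or.inr rfl)
  have e1 : {w : List Bool | w.length = n ∧ (False → w ∈ L) ∧ (w ∈ L → False)} =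
      {w : List Bool | w.length = n ∧ w ∉ L} := by
    ext w
    simp
  have e2 : {w : List Bool | w.length = n ∧ (False → w ∈ Lᶜ) ∧ (w ∈ Lᶜ → False)} =
      {w : List Bool | w.length = n ∧ w ∈ L} := by
    ext w
    simp
  rw [e1] at h2
  rw [e2] at h3
  have e3 : {w : List Bool | w.length = n ∧ w ∈ L}.ncard +
      {w : List Bool | w.length = n ∧ w ∉ L}.ncard = 2 ^ n := by
    rw [← Pool.Agent.Helper81.Gen4.ncard_len n, ← Set.ncard_union_eq
      (Set.disjoint_left.2 fun w h4 h5 => h5.2 h4.2) (hfin.subset fun w hw => hw.1)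
      (hfin.subset fun w hw => hw.1)]
    congr 1
    ext w
    simp only [Set.mem_union, Set.mem_ofPred_eq]
    tauto
  have e4 : ({w : List Bool | w.length = n ∧ w ∈ L}.ncard : ℝ) +
      ({w : List Bool | w.length = n ∧ w ∉ L}.ncard : ℝ) = 2 ^ n := by
    exact_mod_cast e3
  have e5 : c' * (((([] : List Bool).length : ℕ) : ℝ) + 1) *
      2 ^ (((n : ℝ) + ((([] : List Bool).length : ℕ) : ℝ) / c) / 2) = c' * 2 ^ ((n : ℝ) / 2) := by
    simp
  rw [e5] at h2 h3
  rw [abs_le]
  constructor <;> linarith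

/-- Finiteness for machines without advice. -/
theorem finite_of_hard {L : Set (List Bool)} {c : ℕ} {Acc Good : List Bool → List Bool → Prop}
    (h : Hard L c Acc Good) {f : List Bool → RegularExpression Bool}
    (hf : ∀ w, (f w).matches' = ⊤ ↔ w ∉ L) {U : Set (List Bool)}
    (hU : U = Universal ∨ U = NonUniversal) (hA : ∀ w, Acc w [] → enc (f w) ∈ U) :
    {w | Good w []}.Finite := by
  rcases hU with rfl | rfl
  · refine h.ae Lᶜ (Or.inr rfl) ?_
    have : {w | w ∉ Lᶜ ∧ Acc w []} = ∅ := by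
      ext w
      simp only [Set.mem_ofPred_eq, Set.mem_empty_iff_false, iff_false]
      rintro ⟨h1, h2⟩
      exact h1 ((hf w).1 ((enc_mem_universal _).1 (hA w h2)))
    rw [this]
    exact Set.finite_empty
  · refine h.ae L (Or.inl rfl) ?_
    have : {w | w ∉ L ∧ Acc w []} = ∅ := by
      ext w
      simp only [Set.mem_ofPred_eq, Set.mem_empty_iff_false, iff_false]
      rintro ⟨h1, h2⟩
      exact (enc_mem_nonUniversal _).1 (hA w h2) ((hf w).2 h1)
    rw [this]
    exact Set.finite_empty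

/-- **Regular expressions.** -/
theorem regex (c : ℕ) (hc : 0 < c) :
    ∃ (L : Set (List Bool)) (f : List Bool → RegularExpression Bool) (b : ℕ), DLINSPACE L ∧
      LinComp (fun w => enc (f w)) ∧
      (∀ w, w.length ≤ (enc (f w)).length ∧ (enc (f w)).length ≤ b * (w.length + 1)) ∧
      (∀ w, (f w).matches' = ⊤ ↔ w ∉ L) ∧
      (∃ c' : ℝ, ∀ n : ℕ, |({w : List Bool | w.length = n ∧ w ∈ L}.ncard : ℝ) - 2 ^ n / 2| ≤
        c' * 2 ^ ((n : ℝ) / 2)) ∧
      (∀ (P : List Ins) (C : ℝ),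
        Hard L c (fun w α => ∃ t, Pool.Agent.Helper81.RP.AcceptsAt P (enc (f w)) α t)
          (fun w α => Fast P C (enc (f w)) α) ∧
        Hard L c (fun w α => Q (c * w.length) fun v =>
            ∃ t, Pool.Agent.Helper81.RP.AcceptsAt P (enc (f w)) (α ++ v) t)
          (fun w α => Q (c * w.length) fun v => Fast P C (enc (f w)) (α ++ v))) ∧
      (∀ (k : ℕ), 0 < k → ∀ (M : TM k) (C : ℝ),
        Hard L c (fun w α => ∃ t, Pool.Agent.Helper31.TMS.AcceptsAt M (enc (f w) ++ α) t)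
          (fun w α => InTime M (fun n => C * ((n : ℝ) + 1) ^ (2 : ℝ) /
            ((Nat.log 2 n : ℝ) + 1) ^ 5) (enc (f w) ++ α)) ∧
        Hard L c (fun w α => Q (c * w.length) fun v =>
            ∃ t, Pool.Agent.Helper31.TMS.AcceptsAt M (enc (f w) ++ (α ++ v)) t)
          (fun w α => Q (c * w.length) fun v =>
            InTime M (fun n => C * ((n : ℝ) + 1) ^ (2 : ℝ) /
              ((Nat.log 2 n : ℝ) + 1) ^ 5) (enc (f w) ++ (α ++ v)))) ∧
      (∀ (M : TM 1) (C : ℝ),
        Hard L c (fun w α => ∃ t, Pool.Agent.Helper31.TMS.AcceptsAt M (enc (f w) ++ α) t)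
          (fun w α => InTime M (fun n => C * ((n : ℝ) + 1) ^ ((5 : ℝ) / 2) /
            ((Nat.log 2 n : ℝ) + 1) ^ 6) (enc (f w) ++ α)) ∧
        Hard L c (fun w α => Q (c * w.length) fun v =>
            ∃ t, Pool.Agent.Helper31.TMS.AcceptsAt M (enc (f w) ++ (α ++ v)) t)
          (fun w α => Q (c * w.length) fun v =>
            InTime M (fun n => C * ((n : ℝ) + 1) ^ ((5 : ℝ) / 2) /
              ((Nat.log 2 n : ℝ) + 1) ^ 6) (enc (f w) ++ (α ++ v)))) ∧
      (∀ (A : Circ) (C : ℝ),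
        Hard L c (fun w α => ∃ r, A.AcceptsAt (enc (f w)) α r)
          (fun w α => A.Within C (enc (f w)) α) ∧
        Hard L c (fun w α => Q (c * w.length) fun v => ∃ r, A.AcceptsAt (enc (f w)) (α ++ v) r)
          (fun w α => Q (c * w.length) fun v => A.Within C (enc (f w)) (α ++ v))) ∧
      (∀ (D : ℕ) [NeZero D] (A : CA D) (C : ℝ),
        Hard L c (fun w α => ∃ t, A.config (enc (f w)) α t 0 ∈ A.accept)
          (fun w α => Quick A C (enc (f w)) α) ∧
        Hard L c (fun w α => Q (c * w.length) fun v =>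
            ∃ t, A.config (enc (f w)) (α ++ v) t 0 ∈ A.accept)
          (fun w α => Q (c * w.length) fun v => Quick A C (enc (f w)) (α ++ v))) ∧
      ∀ U : Set (List Bool), U = Universal ∨ U = NonUniversal →
        (∀ (P : List Ins) (C : ℝ),
          (∀ x, (∃ t, Pool.Agent.Helper81.RP.AcceptsAt P x [] t) → x ∈ U) →
          {w | Fast P C (enc (f w)) []}.Finite) ∧
        (∀ (k : ℕ), 0 < k → ∀ (M : TM k) (C : ℝ),
          (∀ x, (∃ t, Pool.Agent.Helper31.TMS.AcceptsAt M x t) → x ∈ U) →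
          {w | InTime M (fun n => C * ((n : ℝ) + 1) ^ (2 : ℝ) /
            ((Nat.log 2 n : ℝ) + 1) ^ 5) (enc (f w))}.Finite) ∧
        (∀ (M : TM 1) (C : ℝ),
          (∀ x, (∃ t, Pool.Agent.Helper31.TMS.AcceptsAt M x t) → x ∈ U) →
          {w | InTime M (fun n => C * ((n : ℝ) + 1) ^ ((5 : ℝ) / 2) /
            ((Nat.log 2 n : ℝ) + 1) ^ 6) (enc (f w))}.Finite) ∧
        (∀ (A : Circ) (C : ℝ), (∀ x, (∃ r, A.AcceptsAt x [] r) → x ∈ U) →
          {w | A.Within C (enc (f w)) []}.Finite) ∧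
        ∀ (D : ℕ) [NeZero D] (A : CA D) (C : ℝ),
          (∀ x, (∃ t, A.config x [] t 0 ∈ A.accept) → x ∈ U) →
          {w | Quick A C (enc (f w)) []}.Finite := by
  obtain ⟨L, hL, hH⟩ := sim_hard c hc
  refine ⟨L, ?_⟩
  obtain ⟨k₀, M₀, a, hM⟩ := id hL
  obtain ⟨b₀, code, hb₀, hcode⟩ := exists_code M₀
  obtain ⟨f, hfdef⟩ : ∃ f : List Bool → RegularExpression Bool,
      f = fun w => redB code w ((a + 1) * (w.length + 1)) := ⟨_, rfl⟩
  have hf : ∀ w, (f w).matches' = ⊤ ↔ w ∉ L := fun w => by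
    rw [hfdef]
    exact exists_red hM hb₀ hcode w
  have hloc : Loc fun w => enc (f w) := by
    rw [hfdef]
    exact loc_redB code (o := fun n => (a + 1) * (n + 1)) (by fun_prop) (a := a + 1)
      fun n => le_rfl
  have hle : ∀ w : List Bool, w.length ≤ (enc (f w)).length := fun w => by
    rw [hfdef]
    refine le_trans ?_ (le_redB code w ((a + 1) * (w.length + 1)))
    nlinarith [Nat.zero_le a, Nat.zero_le w.length]
  obtain ⟨D, hD, b, hlen⟩ := hloc.exists_ld
  have hR := fun (P : List Ins) (C : ℝ) => hH _ _ (sim_ram hc hD hlen hle P C)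
  have hT := fun (k : ℕ) (hk : 0 < k) (M : TM k) (C : ℝ) =>
    hH _ _ (sim_tm (c := c) hk hD hlen hle M C)
  have hT1 := fun (M : TM 1) (C : ℝ) => hH _ _ (sim_tm1 (c := c) hD hlen hle M C)
  have hCi := fun (A : Circ) (C : ℝ) => hH _ _ (sim_circ (c := c) hloc hle A C)
  have hCA : ∀ (D : ℕ) [NeZero D] (A : CA D) (C : ℝ), _ := fun (D : ℕ) [NeZero D] (A : CA D)
    (C : ℝ) => hH _ _ (sim_ca (c := c) hloc hle A C)
  have hnil : ∀ w, enc (f w) ++ [] = enc (f w) := fun w => List.append_nil _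
  refine ⟨f, b, hL, hloc.linComp, fun w => ⟨hle w, hlen w⟩, hf, ?_, fun P C => (hR P C).symm,
    fun k hk M C => (hT k hk M C).symm, fun M C => (hT1 M C).symm, fun A C => (hCi A C).symm,
    fun D _ A C => (hCA D A C).symm, fun U hU => ⟨?_, ?_, ?_, ?_, ?_⟩⟩
  · refine half_of_hard (c := c) ((hR [] 0).2.mono ?_ ?_)
    · rintro w α ⟨t, ht⟩
      have h1 : (none : Option Ins) = some .accept := ht
      exact absurd h1 (by simp)
    · exact fun w α h => h.elim
  · intro P C hA
    exact finite_of_hard (hR P C).2 hf hU fun w hw => hA _ hw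
  · intro k hk M C hA
    have h1 := finite_of_hard (hT k hk M C).2 hf hU fun w ⟨t, ht⟩ => by
      rw [hnil] at ht
      exact hA _ ⟨t, ht⟩
    simpa only [hnil] using h1
  · intro M C hA
    have h1 := finite_of_hard (hT1 M C).2 hf hU fun w ⟨t, ht⟩ => by
      rw [hnil] at ht
      exact hA _ ⟨t, ht⟩
    simpa only [hnil] using h1
  · intro A C hA
    exact finite_of_hard (hCi A C).2 hf hU fun w hw => hA _ hw
  · intro D _ A C hA
    exact finite_of_hard (hCA D A C).2 hf hU fun w hw => hA _ hw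

end Pool.Agent.Helper92.RE
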