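import Pool.Agent.Helper92.RE.Mach

/-!
# Programs on the words `F w` and `y` as machines with messages: the computation
-/

namespace Pool.Agent.Helper92.RE

open Pool.Agent.Helper65.LinSpace Pool.Agent.Helper78.Mpc Pool.Agent.Helper28.Ram
open Pool.Agent.Helper81.Sus2
open Pool.Agent.Helper81.RP (Ins lett step AcceptsAt wd wf num_wd wd_num wf_eq linComp_wf
  length_wd ls_pair hd tl ls_hd ls_tl hd_eq tl_eq a0 a1 dst npc uu ls_a1 ls_dst
  ls_npc selF selF_eq ls_selF isA accF accF_le accF_eq_one ls_accF wd_one head_name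
  wd_cons_false tl_read hd_read step_of head_wd)

/-- The memory with the contents `R` of the registers. -/
noncomputable def memW (w y : List Bool) (R : ℕ → ℕ) : List Bool → List Bool
  | [] => wd (R 0 + 1)
  | false :: u => wd (1 + lett w[bval u]? + 3 * lett y[bval u]?)
  | true :: u => wd (R (num u) + 1)

theorem mem0_eq (D : LD) (P : List Ins) (w y : List Bool) :
    (machL D P).mem0 w y = memW w y fun _ => 0 := by
  funext i
  rcases i with _ | ⟨b, u⟩
  · show [] = wd (0 + 1)
    rw [zero_add, wd_one]
  · cases b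
    · rfl
    · show [] = wd (0 + 1)
      rw [zero_add, wd_one]

theorem memW_num (w y : List Bool) (R : ℕ → ℕ) {i : List Bool} (hi : i.head? ≠ some false) :
    memW w y R i = wd (R (num i / 2) + 1) := by
  rcases i with _ | ⟨b, u⟩
  · rfl
  · cases b
    · exact absurd rfl hi
    · show wd (R (num u) + 1) = wd (R ((true.toNat + 2 * num u) / 2) + 1)
      rw [Bool.toNat_true, show (1 + 2 * num u) / 2 = num u by omega]

theorem memW_name (w y : List Bool) (R : ℕ → ℕ) (i : ℕ) :
    memW w y R (wd (2 * i + 1)) = wd (R i + 1) := by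
  rw [memW_num w y R (head_name i), num_wd (by omega), show (2 * i + 1) / 2 = i by omega]

theorem memW_letter (w y : List Bool) (R : ℕ → ℕ) (u : ℕ) :
    num (memW w y R (wd (2 * bitsN u))) = lett w[u]? + 3 * lett y[u]? + 1 := by
  rw [wd_cons_false _ (by rw [bitsN_eq]; exact num_pos _), bitsN_eq, wd_num]
  show num (wd (1 + lett w[bval u.bits]? + 3 * lett y[bval u.bits]?)) = _
  rw [Pool.Agent.Helper31.TMS.bval_bits, num_wd (by omega)]
  ring

theorem lett_le (x : Option Bool) : lett x ≤ 2 := by
  rcases x with _ | _ | _ <;> simp [lett]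

theorem lett_none {w : List Bool} {u : ℕ} : lett w[u]? = 0 ↔ w.length ≤ u := by
  constructor
  · intro h
    by_contra hcon
    rw [List.getElem?_eq_getElem (by omega)] at h
    cases h' : w[u]'(by omega) <;> rw [h'] at h <;> simp [lett] at h
  · intro h
    rw [List.getElem?_eq_none h]
    rfl

/-- The letter of `F w` is computed from the letter which is read. -/
theorem lt_eq {D : LD} {F : List Bool → List Bool} (hF : D.Is F) (w : List Bool) (u : ℕ) :
    D.lt w.length u (lett w[adr1 D w.length u]?) = lett (F w)[u]? := by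
  rw [(hF w).2]
  unfold adr1
  by_cases hp : w.length < D.pos w.length u
  · have e4 : lt01 w.length (D.pos w.length u) = 1 := by
      unfold lt01
      rw [if_pos hp]
    rw [e4, ifz_ne one_ne_zero, List.getElem?_eq_none (le_refl _),
      List.getElem?_eq_none (show w.length ≤ D.pos w.length u by omega)]
  · have e4 : lt01 w.length (D.pos w.length u) = 0 := by
      unfold lt01
      rw [if_neg hp]
    rw [e4, ifz_zero]

/-- The letter of `F w y` is computed from the letters which are read. -/
theorem ltv_eq {D : LD} {F : List Bool → List Bool} (hF : D.Is F) (w y : List Bool) (u : ℕ) :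
    ltv D w.length u (lett w[adr D w.length u]? + 3 * lett y[adr D w.length u]?) =
      lett (F w ++ y)[u]? := by
  have hlen := (hF w).1
  have h1 := lett_le w[adr D w.length u]?
  have h2 := lett_le y[adr D w.length u]?
  by_cases hu : u < D.len w.length
  · have e1 : lt01 u (D.len w.length) = 1 := by
      unfold lt01
      rw [if_pos hu]
    unfold ltv
    rw [e1, ifz_ne one_ne_zero, List.getElem?_append_left (by rw [hlen]; exact hu), (hF w).2]
    have e2 : adr D w.length u = ifz (lt01 w.length (D.pos w.length u)) (D.pos w.length u)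
        w.length := by
      unfold adr
      rw [e1, ifz_ne one_ne_zero]
    have e3 : (lett w[adr D w.length u]? + 3 * lett y[adr D w.length u]?) % 3 =
        lett w[adr D w.length u]? := by omega
    rw [e3, e2]
    by_cases hp : w.length < D.pos w.length u
    · have e4 : lt01 w.length (D.pos w.length u) = 1 := by
        unfold lt01
        rw [if_pos hp]
      rw [e4, ifz_ne one_ne_zero, List.getElem?_eq_none (le_refl _),
        List.getElem?_eq_none (show w.length ≤ D.pos w.length u by omega)]
    · have e4 : lt01 w.length (D.pos w.length u) = 0 := by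
        unfold lt01
        rw [if_neg hp]
      rw [e4, ifz_zero]
  · have e1 : lt01 u (D.len w.length) = 0 := by
      unfold lt01
      rw [if_neg hu]
    unfold ltv
    have e2 : adr D w.length u = u - D.len w.length := by
      unfold adr
      rw [e1, ifz_zero]
    rw [e1, ifz_zero, List.getElem?_append_right (by rw [hlen]; omega), hlen, e2]
    rw [e2] at h1 h2
    omega

section steps

variable (D : LD) (P : List Ins) (w y : List Bool)

theorem msg_st {f : ℕ} (hf : f ≤ 1) (p n u v : ℕ) :
    (machL D P).msg (wd (sto f p n u v)) = decide (p % 3 = 2) := by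
  show decide (pO (num (wd (sto f p n u v))) % 3 = 2) = _
  rw [num_wd (sto_pos _ _ _ _ _), pO_sto hf]

theorem upd_silent {f : ℕ} (hf : f ≤ 1) {p : ℕ} (hp : p % 3 ≠ 2) (n u v : ℕ) (i c : List Bool) :
    (machL D P).upd (wd (sto f p n u v)) i c = c := by
  unfold NBM.upd
  rw [msg_st D P hf]
  simp [hp]

/-- The computation of the length. -/
theorem stepA (b : Bool) (n : ℕ) (R : ℕ → ℕ) :
    (machL D P).step b (wd (sto 0 0 n 0 0), memW w y R) =
      (if n < w.length then wd (sto 0 0 (n + 1) 0 0) else wd (sto (accF P 0) 3 n 0 0),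
        memW w y R) := by
  have h0 : (0 : ℕ) ≤ 1 := by omega
  have haddr : (machL D P).addr (wd (sto 0 0 n 0 0)) = wd (2 * bitsN n) := by
    refine wf_eq ?_ (by
      rw [bitsN_eq]
      have := num_pos n.bits
      omega)
    rw [num_wd (sto_pos _ _ _ _ _)]
    unfold addrF
    rw [pO_sto h0, nO_sto h0, ifz_zero]
  have hread : num (memW w y R ((machL D P).addr (wd (sto 0 0 n 0 0)))) =
      lett w[n]? + 3 * lett y[n]? + 1 := by
    rw [haddr, memW_letter]
  have hnext : (machL D P).next (sd (wd (sto 0 0 n 0 0)) ++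
      ((machL D P).ask (wd (sto 0 0 n 0 0)) && b) ::
        memW w y R ((machL D P).addr (wd (sto 0 0 n 0 0)))) =
      if n < w.length then wd (sto 0 0 (n + 1) 0 0) else wd (sto (accF P 0) 3 n 0 0) := by
    have hask : ((machL D P).ask (wd (sto 0 0 n 0 0)) && b) = false := rfl
    have hval : nextF D P (num (sd (wd (sto 0 0 n 0 0)) ++ false ::
        memW w y R ((machL D P).addr (wd (sto 0 0 n 0 0))))) =
        if n < w.length then sto 0 0 (n + 1) 0 0 else sto (accF P 0) 3 n 0 0 := by
      unfold nextF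
      rw [hd_read (sto_pos _ _ _ _ _), pO_sto h0, nO_sto h0, ifz_zero, tl_read _ _ _ hread]
      have h1 := lett_le w[n]?
      have e3 : (lett w[n]? + 3 * lett y[n]?) % 3 = lett w[n]? := by omega
      rw [e3]
      by_cases hn : n < w.length
      · have h2 : lett w[n]? ≠ 0 := fun h => by
          rw [lett_none] at h
          omega
        rw [ifz_ne h2, if_pos hn]
      · rw [lett_none.2 (by omega), ifz_zero, if_neg hn]
    rw [hask]
    by_cases hn : n < w.length
    · rw [if_pos hn] at hval ⊢
      exact wf_eq hval (sto_pos _ _ _ _ _)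
    · rw [if_neg hn] at hval ⊢
      exact wf_eq hval (sto_pos _ _ _ _ _)
  rw [step_of hnext]
  refine Prod.ext rfl ?_
  funext i
  by_cases hn : n < w.length
  · simp only [if_pos hn]
    exact upd_silent D P h0 (by omega) _ _ _ i _
  · simp only [if_neg hn]
    exact upd_silent D P (accF_le _ _) (by omega) _ _ _ i _

theorem step0 {f : ℕ} (hf : f ≤ 1) (b : Bool) (pc n : ℕ) (R : ℕ → ℕ) :
    (machL D P).step b (wd (sto f (3 * (pc + 1)) n 0 0), memW w y R) =
      (wd (sto 0 (3 * (pc + 1) + 1) n (R (a0 P[pc]?)) 0), memW w y R) := by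
  have haddr : (machL D P).addr (wd (sto f (3 * (pc + 1)) n 0 0)) = wd (2 * a0 P[pc]? + 1) := by
    refine wf_eq ?_ (by omega)
    rw [num_wd (sto_pos _ _ _ _ _)]
    unfold addrF
    rw [pO_sto hf, ifz_ne (by omega), selF_eq, pO_sto hf, show 3 * (pc + 1) % 3 = 0 by omega,
      show 3 * (pc + 1) / 3 - 1 = pc by omega, ifz_zero]
  have hnext : (machL D P).next (sd (wd (sto f (3 * (pc + 1)) n 0 0)) ++
      ((machL D P).ask (wd (sto f (3 * (pc + 1)) n 0 0)) && b) ::
        memW w y R ((machL D P).addr (wd (sto f (3 * (pc + 1)) n 0 0)))) =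
      wd (sto 0 (3 * (pc + 1) + 1) n (R (a0 P[pc]?)) 0) := by
    have hask : ((machL D P).ask (wd (sto f (3 * (pc + 1)) n 0 0)) && b) = false := rfl
    rw [haddr, memW_name, hask]
    refine wf_eq ?_ (sto_pos _ _ _ _ _)
    unfold nextF
    rw [hd_read (sto_pos _ _ _ _ _), pO_sto hf, ifz_ne (by omega), selF_eq,
      hd_read (sto_pos _ _ _ _ _), pO_sto hf, nO_sto hf, show 3 * (pc + 1) % 3 = 0 by omega,
      show 3 * (pc + 1) / 3 - 1 = pc by omega, ifz_zero,
      tl_read _ _ (R (a0 P[pc]?)) (num_wd (Nat.succ_pos _))]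
  rw [step_of hnext]
  refine Prod.ext rfl ?_
  funext i
  exact upd_silent D P (by omega) (by omega) _ _ _ i _

theorem step1 {F : List Bool → List Bool} (hF : D.Is F) (b : Bool) (pc u : ℕ) (R : ℕ → ℕ) {v : ℕ}
    (hv : v = ifz (inpL P[pc]?) (R (a1 P[pc]? u))
      (ifz (inpL P[pc]? - 1) (lett (F w)[u]?) (lett y[u]?))) :
    (machL D P).step b (wd (sto 0 (3 * (pc + 1) + 1) w.length u 0), memW w y R) =
      (wd (sto 0 (3 * (pc + 1) + 2) w.length u v),
        memW w y (Function.update R (dst P[pc]? u) (valL P[pc]? u v))) := by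
  have h0 : (0 : ℕ) ≤ 1 := by omega
  have haddr : (machL D P).addr (wd (sto 0 (3 * (pc + 1) + 1) w.length u 0)) =
      wd (ifz (inpL P[pc]?) (2 * a1 P[pc]? u + 1)
        (2 * bitsN (ifz (inpL P[pc]? - 1) (adr1 D w.length u) u))) := by
    refine wf_eq ?_ ?_
    · rw [num_wd (sto_pos _ _ _ _ _)]
      unfold addrF
      rw [pO_sto h0, ifz_ne (by omega), selF_eq, pO_sto h0, uO_sto h0, nO_sto h0,
        show (3 * (pc + 1) + 1) % 3 = 1 by omega,
        show (3 * (pc + 1) + 1) / 3 - 1 = pc by omega, ifz_ne one_ne_zero, Nat.sub_self, ifz_zero]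
    · unfold ifz
      split_ifs
      · omega
      · rw [bitsN_eq]
        have := num_pos (adr1 D w.length u).bits
        omega
      · rw [bitsN_eq]
        have := num_pos u.bits
        omega
  have hread : ∃ r, num (memW w y R ((machL D P).addr
      (wd (sto 0 (3 * (pc + 1) + 1) w.length u 0)))) = r + 1 ∧
      ifz (inpL P[pc]?) r (ifz (inpL P[pc]? - 1) (D.lt w.length u (r % 3)) (r / 3)) = v := by
    rw [haddr, hv]
    unfold ifz
    split_ifs
    · exact ⟨_, by rw [memW_name, num_wd (Nat.succ_pos _)], rfl⟩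
    · refine ⟨_, memW_letter w y R _, ?_⟩
      have h1 := lett_le w[adr1 D w.length u]?
      rw [← lt_eq hF w u]
      congr 1
      omega
    · refine ⟨_, memW_letter w y R _, ?_⟩
      have h1 := lett_le w[u]?
      omega
  obtain ⟨r, hr, hrv⟩ := hread
  have hnext : (machL D P).next (sd (wd (sto 0 (3 * (pc + 1) + 1) w.length u 0)) ++
      ((machL D P).ask (wd (sto 0 (3 * (pc + 1) + 1) w.length u 0)) && b) ::
        memW w y R ((machL D P).addr (wd (sto 0 (3 * (pc + 1) + 1) w.length u 0)))) =
      wd (sto 0 (3 * (pc + 1) + 2) w.length u v) := by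
    have hask : ((machL D P).ask (wd (sto 0 (3 * (pc + 1) + 1) w.length u 0)) && b) = false := rfl
    rw [hask]
    refine wf_eq ?_ (sto_pos _ _ _ _ _)
    unfold nextF
    rw [hd_read (sto_pos _ _ _ _ _), pO_sto h0, ifz_ne (by omega), selF_eq,
      hd_read (sto_pos _ _ _ _ _), pO_sto h0, uO_sto h0, nO_sto h0,
      show (3 * (pc + 1) + 1) % 3 = 1 by omega, show (3 * (pc + 1) + 1) / 3 - 1 = pc by omega,
      ifz_ne one_ne_zero, Nat.sub_self, ifz_zero, tl_read _ _ r hr, hrv]
  rw [step_of hnext]
  refine Prod.ext rfl ?_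
  funext i
  show (machL D P).upd (wd (sto 0 (3 * (pc + 1) + 2) w.length u v)) i (memW w y R i) = _
  have hmsg : (machL D P).msg (wd (sto 0 (3 * (pc + 1) + 2) w.length u v)) = true := by
    rw [msg_st D P h0]
    exact decide_eq_true (by omega)
  have hwrite : ∀ c : List Bool,
      writeF P (num (sd (wd (sto 0 (3 * (pc + 1) + 2) w.length u v)) ++ (sd i ++ c))) =
        ifz (eq01 (num i) (2 * dst P[pc]? u + 1)) (num c) (valL P[pc]? u v + 1) := by
    intro c
    unfold writeF
    rw [selF_eq, hd_read (sto_pos _ _ _ _ _), pO_sto h0, uO_sto h0, vO_sto h0,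
      show (3 * (pc + 1) + 2) / 3 - 1 = pc by omega, tl_eq, hd_eq, tl_eq]
  have hw : ∀ c : List Bool, i.head? ≠ some false →
      (machL D P).upd (wd (sto 0 (3 * (pc + 1) + 2) w.length u v)) i c =
        wd (ifz (eq01 (num i) (2 * dst P[pc]? u + 1)) (num c) (valL P[pc]? u v + 1)) := by
    intro c hi
    unfold NBM.upd
    rw [if_pos ⟨hmsg, hi⟩]
    refine wf_eq ?_ ?_
    · exact hwrite c
    · unfold ifz
      split_ifs
      · exact num_pos c
      · omega
  by_cases hi : i.head? = some false
  · unfold NBM.upd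
    rw [if_neg (by simp [hi])]
    rcases i with _ | ⟨b', u'⟩
    · simp at hi
    · simp only [List.head?_cons, Option.some.injEq] at hi
      subst hi
      rfl
  · rw [hw _ hi, memW_num w y R hi]
    show _ = memW w y (Function.update R (dst P[pc]? u) (valL P[pc]? u v)) i
    rw [memW_num w y _ hi]
    have hodd : num i % 2 = 1 := by
      rcases i with _ | ⟨b', u'⟩
      · rfl
      · cases b'
        · exact absurd rfl hi
        · show (true.toNat + 2 * num u') % 2 = 1
          rw [Bool.toNat_true]
          omega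
    by_cases hd' : num i / 2 = dst P[pc]? u
    · have h1 : eq01 (num i) (2 * dst P[pc]? u + 1) = 1 := by
        unfold eq01
        rw [if_pos (by omega)]
      rw [h1, ifz_ne one_ne_zero, hd', Function.update_self]
    · have h1 : eq01 (num i) (2 * dst P[pc]? u + 1) = 0 := by
        unfold eq01
        rw [if_neg (by omega)]
      rw [h1, ifz_zero, wd_num, Function.update_of_ne hd']

theorem step2 (b : Bool) (pc n u v : ℕ) (R : ℕ → ℕ) :
    (machL D P).step b (wd (sto 0 (3 * (pc + 1) + 2) n u v), memW w y R) =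
      (wd (sto (accF P (npc P[pc]? pc u)) (3 * (npc P[pc]? pc u + 1)) n 0 0), memW w y R) := by
  have h0 : (0 : ℕ) ≤ 1 := by omega
  have hnext : (machL D P).next (sd (wd (sto 0 (3 * (pc + 1) + 2) n u v)) ++
      ((machL D P).ask (wd (sto 0 (3 * (pc + 1) + 2) n u v)) && b) ::
        memW w y R ((machL D P).addr (wd (sto 0 (3 * (pc + 1) + 2) n u v)))) =
      wd (sto (accF P (npc P[pc]? pc u)) (3 * (npc P[pc]? pc u + 1)) n 0 0) := by
    refine wf_eq ?_ (sto_pos _ _ _ _ _)
    unfold nextF
    rw [hd_read (sto_pos _ _ _ _ _), pO_sto h0, ifz_ne (by omega), selF_eq,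
      hd_read (sto_pos _ _ _ _ _), pO_sto h0, uO_sto h0, nO_sto h0,
      show (3 * (pc + 1) + 2) % 3 = 2 by omega, show (3 * (pc + 1) + 2) / 3 - 1 = pc by omega,
      ifz_ne two_ne_zero, ifz_ne (by norm_num)]
  rw [step_of hnext]
  refine Prod.ext rfl ?_
  funext i
  exact upd_silent D P (accF_le _ _) (by omega) _ _ _ i _

end steps

/-! ### The computation -/

theorem nconf_succ (A : NBM) (w y : List Bool) (g : ℕ → Bool) (t : ℕ) :
    A.conf w y g (t + 1) = A.step (g t) (A.conf w y g t) := rfl

/-- The computation of the length. -/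
theorem conf_machA (D : LD) (P : List Ins) (w y : List Bool) (g : ℕ → Bool) {t : ℕ}
    (ht : t ≤ w.length) :
    (machL D P).conf w y g t = (wd (sto 0 0 t 0 0), memW w y fun _ => 0) := by
  induction t with
  | zero =>
    show ((machL D P).start, (machL D P).mem0 w y) = _
    rw [mem0_eq]
    rfl
  | succ t ih => rw [nconf_succ, ih (by omega), stepA, if_pos (by omega)]

/-- The configurations of the machine with messages. -/
theorem conf_mach {D : LD} {F : List Bool → List Bool} (hF : D.Is F) (P : List Ins)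
    (w y : List Bool) (g : ℕ → Bool) (t : ℕ) :
    (machL D P).conf w y g (w.length + 1 + 3 * t) =
      (wd (sto (accF P (Pool.Agent.Helper81.RP.conf P (F w) y t).1) (3 * ((Pool.Agent.Helper81.RP.conf P (F w) y t).1 + 1))
        w.length 0 0), memW w y (Pool.Agent.Helper81.RP.conf P (F w) y t).2) := by
  induction t with
  | zero =>
    rw [mul_zero, add_zero, nconf_succ, conf_machA D P w y g le_rfl, stepA, if_neg (by omega)]
    rfl
  | succ t ih =>
    rw [show w.length + 1 + 3 * (t + 1) = w.length + 1 + 3 * t + 1 + 1 + 1 by ring, nconf_succ,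
      nconf_succ, nconf_succ, ih, step0 D P w y (accF_le _ _), step1 D P w y hF _ _ _ _ rfl, step2,
      Pool.Agent.Helper81.RP.conf_succ, step_eqL]
    rfl

theorem conf_mach1 {D : LD} {F : List Bool → List Bool} (hF : D.Is F) (P : List Ins)
    (w y : List Bool) (g : ℕ → Bool) (t : ℕ) :
    (machL D P).conf w y g (w.length + 1 + 3 * t + 1) =
      (wd (sto 0 (3 * ((Pool.Agent.Helper81.RP.conf P (F w) y t).1 + 1) + 1) w.length
        (uu P (Pool.Agent.Helper81.RP.conf P (F w) y t)) 0), memW w y (Pool.Agent.Helper81.RP.conf P (F w) y t).2) := by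
  rw [nconf_succ, conf_mach hF, step0 D P w y (accF_le _ _)]
  rfl

theorem conf_mach2 {D : LD} {F : List Bool → List Bool} (hF : D.Is F) (P : List Ins)
    (w y : List Bool) (g : ℕ → Bool) (t : ℕ) :
    (machL D P).conf w y g (w.length + 1 + 3 * t + 2) =
      (wd (sto 0 (3 * ((Pool.Agent.Helper81.RP.conf P (F w) y t).1 + 1) + 2) w.length
        (uu P (Pool.Agent.Helper81.RP.conf P (F w) y t)) (vvL P (F w) y (Pool.Agent.Helper81.RP.conf P (F w) y t))),
        memW w y (Pool.Agent.Helper81.RP.conf P (F w) y (t + 1)).2) := by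
  rw [show w.length + 1 + 3 * t + 2 = w.length + 1 + 3 * t + 1 + 1 by ring, nconf_succ,
    conf_mach1 hF, step1 D P w y hF _ _ _ _ (v := vvL P (F w) y (Pool.Agent.Helper81.RP.conf P (F w) y t)) rfl,
    Pool.Agent.Helper81.RP.conf_succ, step_eqL]

theorem head_st {f : ℕ} (hf : f ≤ 1) (p n u v : ℕ) :
    (wd (sto f p n u v)).head? = some true ↔ f = 1 := by
  rw [head_wd (sto_pos _ _ _ _ _)]
  unfold sto
  omega

/-- Acceptance. -/
theorem accepts_iff {D : LD} {F : List Bool → List Bool} (hF : D.Is F) (P : List Ins)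
    (w y : List Bool) (g : ℕ → Bool) (r : ℕ) :
    (machL D P).AcceptsAt w y g r ↔ ∃ t, r = w.length + 1 + 3 * t ∧ AcceptsAt P (F w) y t := by
  unfold NBM.AcceptsAt AcceptsAt
  constructor
  · intro h
    rcases le_or_gt r w.length with hr | hr
    · rw [conf_machA D P w y g hr, head_st (by omega)] at h
      omega
    obtain ⟨t, ht⟩ : ∃ t, r = w.length + 1 + 3 * t ∨ r = w.length + 1 + 3 * t + 1 ∨
        r = w.length + 1 + 3 * t + 2 := ⟨(r - w.length - 1) / 3, by omega⟩
    rcases ht with ht | ht | ht
    · refine ⟨t, ht, ?_⟩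
      rw [ht, conf_mach hF, head_st (accF_le _ _), accF_eq_one] at h
      exact h
    · rw [ht, conf_mach1 hF, head_st (by omega)] at h
      omega
    · rw [ht, conf_mach2 hF, head_st (by omega)] at h
      omega
  · rintro ⟨t, rfl, h⟩
    rw [conf_mach hF, head_st (accF_le _ _), accF_eq_one]
    exact h

end Pool.Agent.Helper92.RE
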