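import Pool.Agent.Helper92.RE.Red
import Pool.Agent.Helper81.RP.Defs
import Pool.Agent.Helper78.Mpc.Words

/-!
# Words whose letters are given by a position and by one letter of the input
-/

namespace Pool.Agent.Helper92.RE

open Pool.Agent.Helper65.LinSpace Pool.Agent.Helper78.Mpc Pool.Agent.Helper81.RP
open RegularExpression (zero epsilon char plus comp)

/-- The letters of `F w` are given by the length of `w`, their position, and one letter of `w`. -/
def Loc (F : List Bool → List Bool) : Prop :=
  ∃ (len : ℕ → ℕ) (pos : ℕ → ℕ → ℕ) (lt : ℕ → ℕ → ℕ → ℕ), LS len ∧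
    LS (fun z : ℕ × ℕ => pos z.1 z.2) ∧ LS (fun z : ℕ × ℕ × ℕ => lt z.1 z.2.1 z.2.2) ∧
    (∃ a : ℕ, ∀ n, len n ≤ a * (n + 1)) ∧
    ∀ w, (F w).length = len w.length ∧
      ∀ u, lett (F w)[u]? = lt w.length u (lett w[pos w.length u]?)

/-! ### Tables -/

/-- The letter number `u` of `v`. -/
def look : List Bool → ℕ → ℕ
  | [], _ => 0
  | a :: v, u => ifz u (lett (some a)) (look v (u - 1))

theorem look_eq (v : List Bool) (u : ℕ) : look v u = lett v[u]? := by
  induction v generalizing u with
  | nil => rfl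
  | cons a v ih =>
    rcases u with _ | u
    · rfl
    · show ifz (u + 1) _ (look v (u + 1 - 1)) = _
      rw [ifz_ne (Nat.succ_ne_zero u), Nat.add_sub_cancel, ih, List.getElem?_cons_succ]

variable {α : Type} [Ctx α]

theorem ls_look (v : List Bool) {f : α → ℕ} (hf : LS f) : LS (fun a => look v (f a)) := by
  induction v generalizing f with
  | nil => exact LS.const 0
  | cons b v ih =>
    have h := ih (f := fun a => f a - 1) (by fun_prop)
    show LS (fun a => ifz (f a) (lett (some b)) (look v (f a - 1)))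
    exact LS.ifz hf (LS.const _) h

/-- The letter number `u` of the word number `i` of the list. -/
def look2 : List (List Bool) → ℕ → ℕ → ℕ
  | [], _, _ => 0
  | v :: V, i, u => ifz i (look v u) (look2 V (i - 1) u)

theorem look2_eq {V : List (List Bool)} {i : ℕ} {v : List Bool} (h : V[i]? = some v) (u : ℕ) :
    look2 V i u = lett v[u]? := by
  induction V generalizing i with
  | nil => simp at h
  | cons v' V ih =>
    rcases i with _ | i
    · rw [List.getElem?_cons_zero, Option.some.injEq] at h
      subst h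
      show ifz 0 _ _ = _
      rw [ifz_zero, look_eq]
    · rw [List.getElem?_cons_succ] at h
      show ifz (i + 1) _ (look2 V (i + 1 - 1) u) = _
      rw [ifz_ne (Nat.succ_ne_zero i), Nat.add_sub_cancel, ih h]

theorem ls_look2 (V : List (List Bool)) {f g : α → ℕ} (hf : LS f) (hg : LS g) :
    LS (fun a => look2 V (f a) (g a)) := by
  induction V generalizing f with
  | nil => exact LS.const 0
  | cons v V ih =>
    have h := ih (f := fun a => f a - 1) (by fun_prop)
    show LS (fun a => ifz (f a) (look v (g a)) (look2 V (f a - 1) (g a)))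
    exact LS.ifz hf (ls_look v hg) h

/-! ### Closure -/

theorem loc_const (v : List Bool) : Loc fun _ => v := by
  refine ⟨fun _ => v.length, fun _ _ => 0, fun _ u _ => look v u, LS.const _, LS.const _,
    ls_look v (by fun_prop), ⟨v.length, fun n => Nat.le_mul_of_pos_right _ (Nat.succ_pos n)⟩,
    fun w => ⟨rfl, fun u => (look_eq v u).symm⟩⟩

theorem loc_append {F G : List Bool → List Bool} (hF : Loc F) (hG : Loc G) :
    Loc fun w => F w ++ G w := by
  obtain ⟨len, pos, lt, h1, h2, h3, ⟨a, h4⟩, h5⟩ := hF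
  obtain ⟨len', pos', lt', h1', h2', h3', ⟨a', h4'⟩, h5'⟩ := hG
  refine ⟨fun n => len n + len' n,
    fun n u => ifz (lt01 u (len n)) (pos' n (u - len n)) (pos n u),
    fun n u x => ifz (lt01 u (len n)) (lt' n (u - len n) x) (lt n u x), by fun_prop, ?_, ?_,
    ⟨a + a', fun n => ?_⟩, fun w => ⟨?_, fun u => ?_⟩⟩
  · have e1 : LS (fun z : ℕ × ℕ => len z.1) := LS.comp (g := len) h1 (by fun_prop)
    have e2 : LS (fun z : ℕ × ℕ => pos' z.1 (z.2 - len z.1)) :=
      LS.comp (g := fun z : ℕ × ℕ => pos' z.1 z.2) (f := fun z : ℕ × ℕ => (z.1, z.2 - len z.1)) h2'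
        (by fun_prop)
    exact LS.ifz (LS.lt01 (by fun_prop) e1) e2 h2
  · have e1 : LS (fun z : ℕ × ℕ × ℕ => len z.1) := LS.comp (g := len) h1 (by fun_prop)
    have e2 : LS (fun z : ℕ × ℕ × ℕ => lt' z.1 (z.2.1 - len z.1) z.2.2) :=
      LS.comp (g := fun z : ℕ × ℕ × ℕ => lt' z.1 z.2.1 z.2.2)
        (f := fun z : ℕ × ℕ × ℕ => (z.1, z.2.1 - len z.1, z.2.2)) h3' (by fun_prop)
    exact LS.ifz (LS.lt01 (by fun_prop) e1) e2 h3
  · rw [add_mul]
    exact Nat.add_le_add (h4 n) (h4' n)
  · rw [List.length_append, (h5 w).1, (h5' w).1]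
  · beta_reduce
    by_cases hu : u < len w.length
    · have e1 : lt01 u (len w.length) = 1 := by
        unfold lt01
        rw [if_pos hu]
      rw [e1, ifz_ne one_ne_zero, ifz_ne one_ne_zero, List.getElem?_append_left (by
        rw [(h5 w).1]; exact hu), (h5 w).2]
    · have e1 : lt01 u (len w.length) = 0 := by
        unfold lt01
        rw [if_neg hu]
      rw [e1, ifz_zero, ifz_zero, List.getElem?_append_right (by
        rw [(h5 w).1]; omega), (h5 w).1, (h5' w).2]

theorem flatMap_get {W : ℕ → List Bool} {B : ℕ} (hW : ∀ j, (W j).length = B) (k u : ℕ) :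
    ((List.range k).flatMap W)[u]? = if u < k * B then (W (u / B))[u % B]? else none := by
  induction k with
  | zero => simp
  | succ k ih =>
    have hlen : ((List.range k).flatMap W).length = k * B := by
      rw [List.length_flatMap]
      simp [hW]
    rw [List.range_succ, List.flatMap_append]
    have e1 : (k + 1) * B = k * B + B := by ring
    rcases lt_or_ge u (k * B) with h | h
    · rw [List.getElem?_append_left (by rw [hlen]; exact h), ih, if_pos h, if_pos (by omega)]
    · rw [List.getElem?_append_right (by rw [hlen]; exact h), hlen]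
      simp only [List.flatMap_cons, List.flatMap_nil, List.append_nil]
      by_cases h2 : u < (k + 1) * B
      · rw [if_pos h2]
        have hB : 0 < B := by
          rcases Nat.eq_zero_or_pos B with h0 | h0
          · subst h0
            omega
          · exact h0
        obtain ⟨r, hr⟩ := Nat.exists_eq_add_of_le h
        have e2 : u = r + B * k := by rw [hr]; ring
        have hrB : r < B := by omega
        have e3 : u / B = k := by
          rw [e2, Nat.add_mul_div_left _ _ hB, Nat.div_eq_of_lt hrB, zero_add]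
        have e4 : u % B = r := by
          rw [e2, Nat.add_mul_mod_self_left, Nat.mod_eq_of_lt hrB]
        rw [e3, e4]
        congr 1
        omega
      · rw [if_neg h2, List.getElem?_eq_none]
        rw [hW]
        omega

theorem loc_range {F : List Bool → List Bool} {V : List (List Bool)} {B : ℕ}
    (hV : ∀ v ∈ V, v.length = B) {g : ℕ → ℕ} (hg : LS g) {a : ℕ} (ha : ∀ n, g n ≤ a * (n + 1))
    {p : ℕ → ℕ → ℕ} (hp : LS (fun z : ℕ × ℕ => p z.1 z.2)) {τ : ℕ → ℕ → ℕ → ℕ}
    (hτ : LS (fun z : ℕ × ℕ × ℕ => τ z.1 z.2.1 z.2.2))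
    (hτV : ∀ n j x, x ≤ 2 → τ n j x < V.length)
    (hF : ∀ w, F w = (List.range (g w.length)).flatMap fun j =>
      V.getD (τ w.length j (lett w[p w.length j]?)) []) : Loc F := by
  have hlt : ∀ x, lett x ≤ 2 := by
    intro x
    rcases x with _ | _ | _ <;> simp [lett]
  have hW : ∀ w : List Bool, ∀ j : ℕ,
      (V.getD (τ w.length j (lett w[p w.length j]?)) []).length = B := by
    intro w j
    have h1 := hτV w.length j (lett w[p w.length j]?) (hlt _)
    rw [List.getD_eq_getElem _ _ h1]
    exact hV _ (List.getElem_mem h1)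
  have eg : LS (fun z : ℕ × ℕ => g z.1) := LS.comp (g := g) hg (by fun_prop)
  refine ⟨fun n => g n * B, fun n u => p n (u / B),
    fun n u x => ifz (lt01 u (g n * B)) 0 (look2 V (τ n (u / B) x) (u % B)), by fun_prop, ?_, ?_,
    ⟨a * B, fun n => ?_⟩, fun w => ⟨?_, fun u => ?_⟩⟩
  · exact LS.comp (g := fun z : ℕ × ℕ => p z.1 z.2) (f := fun z : ℕ × ℕ => (z.1, z.2 / B)) hp
      (by fun_prop)
  · have e1 : LS (fun z : ℕ × ℕ × ℕ => g z.1) := LS.comp (g := g) hg (by fun_prop)
    have e2 : LS (fun z : ℕ × ℕ × ℕ => τ z.1 (z.2.1 / B) z.2.2) :=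
      LS.comp (g := fun z : ℕ × ℕ × ℕ => τ z.1 z.2.1 z.2.2)
        (f := fun z : ℕ × ℕ × ℕ => (z.1, z.2.1 / B, z.2.2)) hτ (by fun_prop)
    have e3 : LS (fun z : ℕ × ℕ × ℕ => look2 V (τ z.1 (z.2.1 / B) z.2.2) (z.2.1 % B)) :=
      ls_look2 V e2 (by fun_prop)
    exact LS.ifz (LS.lt01 (by fun_prop) (by fun_prop)) (LS.const 0) e3
  · calc g n * B ≤ a * (n + 1) * B := Nat.mul_le_mul_right _ (ha n)
      _ = a * B * (n + 1) := by ring
  · rw [hF, List.length_flatMap]
    simp only [hW]
    simp
  · rw [hF, flatMap_get (hW w)]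
    beta_reduce
    by_cases hu : u < g w.length * B
    · have e1 : lt01 u (g w.length * B) = 1 := by
        unfold lt01
        rw [if_pos hu]
      rw [if_pos hu, e1, ifz_ne one_ne_zero]
      have h1 := hτV w.length (u / B) (lett w[p w.length (u / B)]?) (hlt _)
      rw [look2_eq (List.getElem?_eq_getElem h1), List.getD_eq_getElem _ _ h1]
    · have e1 : lt01 u (g w.length * B) = 0 := by
        unfold lt01
        rw [if_neg hu]
      rw [if_neg hu, e1, ifz_zero]
      rfl

theorem loc_rep (v : List Bool) {g : ℕ → ℕ} (hg : LS g) {a : ℕ} (ha : ∀ n, g n ≤ a * (n + 1)) :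
    Loc fun w => (List.replicate (g w.length) v).flatten := by
  refine loc_range (V := [v]) (B := v.length) (by simp) hg ha (p := fun _ _ => 0)
    (LS.const 0) (τ := fun _ _ _ => 0) (LS.const 0) (fun _ _ _ _ => Nat.one_pos) fun w => ?_
  show _ = (List.range (g w.length)).flatMap fun _ => v
  generalize g w.length = k
  induction k with
  | zero => rfl
  | succ k ih =>
    rw [List.replicate_succ', List.flatten_append, ih, List.range_succ, List.flatMap_append]
    simp

end Pool.Agent.Helper92.RE
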