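import Pool.Agent.Helper92.RE.Defs

/-!
# Regular expressions for the words which are not histories

`Γ` is a finite alphabet. For a word `P`, a number `m ≥ 2`, a list `l` of bad quadruples and a list `A` of
letters, the regular expression `hist` describes the words `u` which do not have the prefix `P`, or
contain a bad quadruple `x`, `y`, `z`, `y'` at the positions `p`, `p + 1`, `p + 2`, `p + 1 + m`, or have no
letter of `A` at a position `p` with `p + 2 m < |u|`.
-/

namespace Pool.Agent.Helper92.RE

open RegularExpression (zero epsilon char plus comp)

section

variable {Γ : Type}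

/-- One of the letters of the list. -/
def sumC (l : List Γ) : RegularExpression Γ := l.foldr (fun a r => plus (char a) r) zero

/-- `r ^ j s`. -/
def rep (r : RegularExpression Γ) : ℕ → RegularExpression Γ → RegularExpression Γ
  | 0, s => s
  | j + 1, s => comp r (rep r j s)

/-- The sum of the list. -/
def sumR (l : List (RegularExpression Γ)) : RegularExpression Γ := l.foldr (fun a r => plus a r) zero

end

section

variable {Γ : Type} [Fintype Γ] [DecidableEq Γ]

variable (Γ) in
/-- The list of all letters. -/
noncomputable def allL : List Γ := (Finset.univ : Finset Γ).toList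

variable (Γ) in
/-- One arbitrary letter. -/
noncomputable def anyC : RegularExpression Γ := sumC (allL Γ)

variable (Γ) in
/-- An arbitrary word. -/
noncomputable def anyS : RegularExpression Γ := .star (anyC Γ)

/-- The words which do not have the prefix `P`. -/
noncomputable def pre : List Γ → RegularExpression Γ
  | [] => zero
  | a :: P => plus epsilon (plus (comp (sumC ((allL Γ).erase a)) (anyS Γ)) (comp (char a) (pre P)))

/-- The words which contain `x y z`, followed by `m - 2` arbitrary letters and the letter `y'`. -/
noncomputable def term (m : ℕ) (t : Γ × Γ × Γ × Γ) : RegularExpression Γ :=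
  comp (anyS Γ) (comp (char t.1) (comp (char t.2.1) (comp (char t.2.2.1)
    (rep (anyC Γ) (m - 2) (comp (char t.2.2.2) (anyS Γ))))))

/-- The words which contain a bad quadruple. -/
noncomputable def bad (m : ℕ) (l : List (Γ × Γ × Γ × Γ)) : RegularExpression Γ :=
  sumR (l.map (term m))

/-- The words in which every letter of `A` is followed by less than `2 m` letters; `B` is the list of the
other letters. -/
noncomputable def noacc (m : ℕ) (A B : List Γ) : RegularExpression Γ :=
  comp (.star (sumC B)) (plus epsilon (comp (sumC A) (rep (plus epsilon (anyC Γ)) (2 * m - 1) epsilon)))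

/-- The words which are not histories. -/
noncomputable def hist (P : List Γ) (m : ℕ) (l : List (Γ × Γ × Γ × Γ)) (A B : List Γ) :
    RegularExpression Γ := plus (pre P) (plus (bad m l) (noacc m A B))

/-- The words with the properties of a history. -/
def IsHist (P : List Γ) (m : ℕ) (l : List (Γ × Γ × Γ × Γ)) (A : List Γ) (u : List Γ) : Prop :=
  P <+: u ∧
    (∀ t ∈ l, ∀ p, ¬(u[p]? = some t.1 ∧ u[p + 1]? = some t.2.1 ∧ u[p + 2]? = some t.2.2.1 ∧
      u[p + 1 + m]? = some t.2.2.2)) ∧
    ∃ p, ∃ a ∈ A, u[p]? = some a ∧ p + 2 * m < u.length

end

/-! ### Blocks of letters `0`, `1` -/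

/-- The word `v`. -/
def word : List Bool → RegularExpression Bool
  | [] => epsilon
  | b :: v => comp (char b) (word v)

/-- Every letter is replaced by a word. -/
def hom {Γ : Type} (code : Γ → List Bool) : RegularExpression Γ → RegularExpression Bool
  | .zero => .zero
  | .epsilon => .epsilon
  | .char a => word (code a)
  | .plus p q => .plus (hom code p) (hom code q)
  | .comp p q => .comp (hom code p) (hom code q)
  | .star p => .star (hom code p)

/-- One arbitrary letter `0` or `1`. -/
def bit : RegularExpression Bool := plus (char false) (char true)

/-- The words of length at least `1` and at most `j`. -/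
def low : ℕ → RegularExpression Bool
  | 0 => zero
  | j + 1 => plus (rep bit (j + 1) epsilon) (low j)

/-- The words whose length is not divisible by `b`. -/
def nonmult (b : ℕ) : RegularExpression Bool := comp (.star (rep bit b epsilon)) (low (b - 1))

/-- The code of a block. -/
def blk (b : ℕ) (v : Fin b → Bool) : List Bool := List.ofFn v

end Pool.Agent.Helper92.RE
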