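import Pool.Agent.Helper92.RE.Match

/-!
# Blocks of letters
-/

namespace Pool.Agent.Helper92.RE

open RegularExpression (zero epsilon char plus comp)

theorem mem_word (v u : List Bool) : u ∈ (word v).matches' ↔ u = v := by
  induction v generalizing u with
  | nil => exact mem_eps u
  | cons b v ih =>
    have h : word (b :: v) = comp (char b) (word v) := rfl
    rw [h, mem_comp]
    constructor
    · rintro ⟨x, hx, y, hy, rfl⟩
      rw [mem_char] at hx
      rw [ih] at hy
      rw [hx, hy]
      rfl
    · rintro rfl
      exact ⟨[b], rfl, v, (ih v).2 rfl, rfl⟩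

/-- The words of the image of a regular expression. -/
theorem mem_hom {Γ : Type} (code : Γ → List Bool) (r : RegularExpression Γ) (u : List Bool) :
    u ∈ (hom code r).matches' ↔ ∃ U ∈ r.matches', U.flatMap code = u := by
  induction r generalizing u with
  | zero =>
    show u ∈ (zero : RegularExpression Bool).matches' ↔ _
    rw [mem_zero]
    exact ⟨fun h => h.elim, fun ⟨U, hU, _⟩ => hU⟩
  | epsilon =>
    show u ∈ (epsilon : RegularExpression Bool).matches' ↔ _
    rw [mem_eps]
    constructor
    · rintro rfl
      exact ⟨[], rfl, rfl⟩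
    · rintro ⟨U, hU, rfl⟩
      rw [mem_eps] at hU
      rw [hU]
      rfl
  | char a =>
    show u ∈ (word (code a)).matches' ↔ _
    rw [mem_word]
    constructor
    · rintro rfl
      exact ⟨[a], rfl, by simp⟩
    · rintro ⟨U, hU, rfl⟩
      rw [mem_char] at hU
      rw [hU]
      simp
  | plus p q ihp ihq =>
    show u ∈ (plus (hom code p) (hom code q)).matches' ↔ _
    rw [mem_plus, ihp, ihq]
    constructor
    · rintro (⟨U, hU, h⟩ | ⟨U, hU, h⟩)
      · exact ⟨U, Or.inl hU, h⟩
      · exact ⟨U, Or.inr hU, h⟩
    · rintro ⟨U, hU | hU, h⟩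
      · exact Or.inl ⟨U, hU, h⟩
      · exact Or.inr ⟨U, hU, h⟩
  | comp p q ihp ihq =>
    show u ∈ (comp (hom code p) (hom code q)).matches' ↔ _
    rw [mem_comp]
    constructor
    · rintro ⟨v, hv, v', hv', rfl⟩
      obtain ⟨U, hU, rfl⟩ := (ihp v).1 hv
      obtain ⟨V, hV, rfl⟩ := (ihq v').1 hv'
      exact ⟨U ++ V, (mem_comp _ _ _).2 ⟨U, hU, V, hV, rfl⟩, by rw [List.flatMap_append]⟩
    · rintro ⟨W, hW, rfl⟩
      obtain ⟨U, hU, V, hV, rfl⟩ := (mem_comp _ _ _).1 hW
      exact ⟨_, (ihp _).2 ⟨U, hU, rfl⟩, _, (ihq _).2 ⟨V, hV, rfl⟩, by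
        rw [List.flatMap_append]⟩
  | star p ih =>
    show u ∈ (RegularExpression.star (hom code p)).matches' ↔ _
    rw [mem_star]
    constructor
    · rintro ⟨L, rfl, hL⟩
      induction L with
      | nil => exact ⟨[], (mem_star _ _).2 ⟨[], rfl, by simp⟩, rfl⟩
      | cons v L ihL =>
        obtain ⟨U, hU, h⟩ := ihL fun v hv => hL v (List.mem_cons_of_mem _ hv)
        obtain ⟨V, hV, rfl⟩ := (ih v).1 (hL v List.mem_cons_self)
        obtain ⟨K, rfl, hK⟩ := (mem_star _ _).1 hU
        refine ⟨V ++ K.flatten, (mem_star _ _).2 ⟨V :: K, rfl, ?_⟩, ?_⟩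
        · intro x hx
          rcases List.mem_cons.1 hx with rfl | hx
          · exact hV
          · exact hK x hx
        · rw [List.flatMap_append, h]
          rfl
    · rintro ⟨U, hU, rfl⟩
      obtain ⟨K, rfl, hK⟩ := (mem_star _ _).1 hU
      refine ⟨K.map fun V => V.flatMap code, ?_, ?_⟩
      · clear hU hK
        induction K with
        | nil => rfl
        | cons V K ihK =>
          rw [List.flatten_cons, List.flatMap_append, ihK]
          rfl
      · intro v hv
        obtain ⟨V, hV, rfl⟩ := List.mem_map.1 hv
        exact (ih _).2 ⟨V, hK V hV, rfl⟩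

theorem mem_bit (u : List Bool) : u ∈ bit.matches' ↔ u.length = 1 := by
  unfold bit
  rw [mem_plus, mem_char, mem_char, List.length_eq_one_iff]
  constructor
  · rintro (h | h)
    · exact ⟨_, h⟩
    · exact ⟨_, h⟩
  · rintro ⟨a, rfl⟩
    cases a
    · exact Or.inl rfl
    · exact Or.inr rfl

theorem mem_bits (j : ℕ) (u : List Bool) : u ∈ (rep bit j epsilon).matches' ↔ u.length = j := by
  rw [mem_rep mem_bit]
  constructor
  · rintro ⟨v, v', h, h', rfl⟩
    rw [mem_eps] at h'
    rw [h', List.append_nil, h]
  · intro h
    exact ⟨u, [], h, rfl, List.append_nil u⟩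

theorem mem_low (j : ℕ) (u : List Bool) : u ∈ (low j).matches' ↔ 1 ≤ u.length ∧ u.length ≤ j := by
  induction j with
  | zero =>
    show u ∈ (zero : RegularExpression Bool).matches' ↔ _
    rw [mem_zero]
    constructor
    · exact fun h => h.elim
    · rintro ⟨h1, h2⟩
      omega
  | succ j ih =>
    have h : low (j + 1) = plus (rep bit (j + 1) epsilon) (low j) := rfl
    rw [h, mem_plus, mem_bits, ih]
    omega

theorem mem_starbits {b : ℕ} (hb : 0 < b) (u : List Bool) :
    u ∈ (RegularExpression.star (rep bit b epsilon)).matches' ↔ b ∣ u.length := by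
  rw [mem_star]
  constructor
  · rintro ⟨L, rfl, hL⟩
    induction L with
    | nil => simp
    | cons v L ih =>
      rw [List.flatten_cons, List.length_append]
      exact dvd_add ((mem_bits b v).1 (hL v List.mem_cons_self) ▸ dvd_rfl)
        (ih fun v hv => hL v (List.mem_cons_of_mem _ hv))
  · rintro ⟨k, hk⟩
    induction k generalizing u with
    | zero =>
      rw [mul_zero, List.length_eq_zero_iff] at hk
      exact ⟨[], hk, by simp⟩
    | succ k ih =>
      have h1 : b ≤ u.length := by
        rw [hk]
        exact Nat.le_mul_of_pos_right _ (Nat.succ_pos k)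
      obtain ⟨L, h2, h3⟩ := ih (u.drop b) (by
        rw [List.length_drop, hk, Nat.mul_succ, Nat.add_sub_cancel])
      refine ⟨u.take b :: L, ?_, ?_⟩
      · rw [List.flatten_cons, ← h2, List.take_append_drop]
      · intro v hv
        rcases List.mem_cons.1 hv with rfl | hv
        · rw [mem_bits, List.length_take]
          omega
        · exact h3 v hv

theorem mem_nonmult {b : ℕ} (hb : 0 < b) (u : List Bool) :
    u ∈ (nonmult b).matches' ↔ ¬b ∣ u.length := by
  unfold nonmult
  rw [mem_comp]
  simp only [mem_starbits hb, mem_low]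
  constructor
  · rintro ⟨v, ⟨k, hk⟩, v', h1, rfl⟩ ⟨j, hj⟩
    rw [List.length_append, hk] at hj
    have h2 : v'.length % b = 0 := by
      have : (b * k + v'.length) % b = 0 := by rw [hj, Nat.mul_mod_right]
      rwa [Nat.mul_add_mod] at this
    rw [Nat.mod_eq_of_lt (by omega)] at h2
    omega
  · intro h
    have h1 := Nat.div_add_mod u.length b
    have h2 : u.length % b ≠ 0 := fun h3 => h (Nat.dvd_of_mod_eq_zero h3)
    have h3 := Nat.mod_lt u.length hb
    refine ⟨u.take (b * (u.length / b)), ?_, u.drop (b * (u.length / b)), ?_,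
      List.take_append_drop _ _⟩
    · rw [List.length_take, min_eq_left (by omega)]
      exact dvd_mul_right _ _
    · rw [List.length_drop]
      omega

theorem blk_length {b : ℕ} (v : Fin b → Bool) : (blk b v).length = b := by
  unfold blk
  rw [List.length_ofFn]

/-- Every word whose length is divisible by `b` is a word of blocks. -/
theorem exists_blocks {b : ℕ} (u : List Bool) (h : b ∣ u.length) :
    ∃ U : List (Fin b → Bool), U.flatMap (blk b) = u := by
  obtain ⟨k, hk⟩ := h
  induction k generalizing u with
  | zero =>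
    rw [mul_zero, List.length_eq_zero_iff] at hk
    exact ⟨[], hk.symm⟩
  | succ k ih =>
    have h1 : b ≤ u.length := by
      rw [hk]
      exact Nat.le_mul_of_pos_right _ (Nat.succ_pos k)
    obtain ⟨U, hU⟩ := ih (u.drop b) (by
      rw [List.length_drop, hk, Nat.mul_succ, Nat.add_sub_cancel])
    refine ⟨(fun i => u[(i : ℕ)]'(by omega)) :: U, ?_⟩
    rw [List.flatMap_cons, hU]
    have h2 : blk b (fun i => u[(i : ℕ)]'(by omega)) = u.take b := by
      unfold blk
      refine List.ext_getElem (by simp [h1]) fun i h3 h4 => ?_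
      simp
    rw [h2, List.take_append_drop]

theorem flatMap_inj {b : ℕ} (hb : 0 < b) {U V : List (Fin b → Bool)}
    (h : U.flatMap (blk b) = V.flatMap (blk b)) : U = V := by
  induction U generalizing V with
  | nil =>
    cases V with
    | nil => rfl
    | cons v V =>
      have := congrArg List.length h
      rw [List.flatMap_cons, List.length_append, blk_length] at this
      simp only [List.flatMap_nil, List.length_nil] at this
      omega
  | cons u U ih =>
    cases V with
    | nil =>
      have := congrArg List.length h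
      rw [List.flatMap_cons, List.length_append, blk_length] at this
      simp only [List.flatMap_nil, List.length_nil] at this
      omega
    | cons v V =>
      rw [List.flatMap_cons, List.flatMap_cons] at h
      obtain ⟨h1, h2⟩ := List.append_inj h (by rw [blk_length, blk_length])
      have h3 : u = v := List.ofFn_injective h1
      rw [h3, ih h2]

/-- **Words of blocks.** -/
theorem univ_iff {b : ℕ} (hb : 0 < b) (r : RegularExpression (Fin b → Bool)) :
    (plus (hom (blk b) r) (nonmult b)).matches' = ⊤ ↔ ∀ U, U ∈ r.matches' := by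
  constructor
  · intro h U
    have h1 : U.flatMap (blk b) ∈ (plus (hom (blk b) r) (nonmult b)).matches' := by
      rw [h]
      exact Set.mem_univ _
    rw [mem_plus, mem_hom, mem_nonmult hb] at h1
    rcases h1 with ⟨V, hV, h2⟩ | h1
    · rwa [← flatMap_inj hb h2]
    · exfalso
      refine h1 ?_
      clear h1 h
      induction U with
      | nil => simp
      | cons u U ih =>
        rw [List.flatMap_cons, List.length_append, blk_length]
        exact dvd_add dvd_rfl ih
  · intro h
    refine Set.eq_univ_of_forall fun u => ?_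
    show u ∈ (plus (hom (blk b) r) (nonmult b)).matches'
    rw [mem_plus, mem_hom, mem_nonmult hb]
    by_cases h1 : b ∣ u.length
    · obtain ⟨U, hU⟩ := exists_blocks u h1
      exact Or.inl ⟨U, h U, hU⟩
    · exact Or.inr h1

/-! ### Unique reading -/

theorem enc_append_inj (r : RegularExpression Bool) :
    ∀ (s : RegularExpression Bool) (x y : List Bool), enc r ++ x = enc s ++ y → r = s ∧ x = y := by
  induction r with
  | zero =>
    intro s x y h
    cases s <;> simp_all [enc]
  | epsilon =>
    intro s x y h
    cases s <;> simp_all [enc]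
  | char a =>
    intro s x y h
    cases s <;> simp_all [enc]
  | plus p q ihp ihq =>
    intro s x y h
    cases s with
    | plus p' q' =>
      simp only [enc, List.cons_append, List.append_assoc, List.cons.injEq, true_and] at h
      obtain ⟨h1, h2⟩ := ihp _ _ _ h
      obtain ⟨h3, h4⟩ := ihq _ _ _ h2
      exact ⟨by rw [h1, h3], h4⟩
    | _ => simp [enc] at h
  | comp p q ihp ihq =>
    intro s x y h
    cases s with
    | comp p' q' =>
      simp only [enc, List.cons_append, List.append_assoc, List.cons.injEq, true_and] at h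
      obtain ⟨h1, h2⟩ := ihp _ _ _ h
      obtain ⟨h3, h4⟩ := ihq _ _ _ h2
      exact ⟨by rw [h1, h3], h4⟩
    | _ => simp [enc] at h
  | star p ih =>
    intro s x y h
    cases s with
    | star p' =>
      simp only [enc, List.cons_append, List.cons.injEq, true_and] at h
      obtain ⟨h1, h2⟩ := ih _ _ _ h
      exact ⟨by rw [h1], h2⟩
    | _ => simp [enc] at h

/-- Different regular expressions have different codes. -/
theorem enc_injective : Function.Injective enc := fun r s h =>
  (enc_append_inj r s [] [] (by rw [h])).1

theorem enc_mem_universal (r : RegularExpression Bool) : enc r ∈ Universal ↔ r.matches' = ⊤ := by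
  constructor
  · rintro ⟨s, h, hs⟩
    rw [enc_injective h]
    exact hs
  · intro h
    exact ⟨r, rfl, h⟩

theorem enc_mem_nonUniversal (r : RegularExpression Bool) :
    enc r ∈ NonUniversal ↔ r.matches' ≠ ⊤ := by
  constructor
  · rintro ⟨s, h, hs⟩
    rw [enc_injective h]
    exact hs
  · intro h
    exact ⟨r, rfl, h⟩

end Pool.Agent.Helper92.RE
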