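import Pool.Agent.Helper92.RE.Loc

/-!
# Cellular automata: acceptance in short time
-/

namespace Pool.Agent.Helper92.RE

open Pool.Agent.Helper65.LinSpace

/-- The cellular automaton `A` on `ℤ ^ D` accepts the words `x` and `y` in at most
`C (N + 1) ^ (1 + 1 / D) / l ^ 3` steps, where `N` is the length of `x` and `l = ⌊log₂ N⌋ + 1`. -/
def Quick {D : ℕ} [NeZero D] (A : CA D) (C : ℝ) (x y : List Bool) : Prop :=
  ∃ t : ℕ, (t : ℝ) ≤ C * ((x.length : ℝ) + 1) ^ (1 + 1 / (D : ℝ)) /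
    ((Nat.log 2 x.length : ℝ) + 1) ^ 3 ∧ A.config x y t 0 ∈ A.accept

theorem loc_id : Loc fun w => w :=
  ⟨fun n => n, fun _ u => u, fun _ _ a => a, by fun_prop, by fun_prop, by fun_prop,
    ⟨1, fun n => by show n ≤ 1 * (n + 1); omega⟩, fun _ => ⟨rfl, fun _ => rfl⟩⟩

end Pool.Agent.Helper92.RE
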