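import Pool.Agent.Helper81.RP.Defs

/-!
# Regular expressions over `{0, 1}`, written as words, and fast computations
-/

namespace Pool.Agent.Helper92.RE

open Pool.Agent.Helper81.RP (Ins AcceptsAt conf)

/-- The word over `{0, 1}` which writes a regular expression over `{0, 1}` in Polish notation, with
three letters for every symbol. -/
def enc : RegularExpression Bool → List Bool
  | .zero => [false, false, false]
  | .epsilon => [false, false, true]
  | .char a => [false, true, a]
  | .plus p q => true :: false :: false :: (enc p ++ enc q)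
  | .comp p q => true :: false :: true :: (enc p ++ enc q)
  | .star p => true :: true :: false :: enc p

/-- The (words which write) regular expressions which describe all words. -/
def Universal : Set (List Bool) := {x | ∃ r : RegularExpression Bool, x = enc r ∧ r.matches' = ⊤}

/-- The (words which write) regular expressions which do not describe all words. -/
def NonUniversal : Set (List Bool) :=
  {x | ∃ r : RegularExpression Bool, x = enc r ∧ r.matches' ≠ ⊤}

/-- The program `P` accepts the word `x` of length `n`, with the second word `y`, after `t` steps, with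
numbers less than `2 ^ s` in the registers up to this time, where, for `l = ⌊log₂ n⌋ + 1 ≤ s`,
`t s l ^ 2 ≤ C (n + 1) ^ (3 / 2)` and `s l ^ 2 ≤ C (n + 1) ^ (1 / 2)`. For example, `P` accepts `x` in
`C n ^ (3 / 2) / log ^ 3 n` steps with numbers of `O(log n)` bits. -/
def Fast (P : List Ins) (C : ℝ) (x y : List Bool) : Prop :=
  ∃ t s : ℕ, Nat.log 2 x.length + 1 ≤ s ∧ AcceptsAt P x y t ∧
    (∀ u ≤ t, ∀ i, (conf P x y u).2 i < 2 ^ s) ∧
    (t : ℝ) * s * ((Nat.log 2 x.length : ℝ) + 1) ^ 2 ≤ C * ((x.length : ℝ) + 1) ^ ((3 : ℝ) / 2) ∧
    (s : ℝ) * ((Nat.log 2 x.length : ℝ) + 1) ^ 2 ≤ C * ((x.length : ℝ) + 1) ^ ((1 : ℝ) / 2)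

end Pool.Agent.Helper92.RE
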