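import Pool.Agent.Helper92.RE.Hist
import Pool.Agent.Helper65.LinSpace.Defs

/-!
# Histories of a Turing machine as words

The configuration at the time `t` is written as a word of `m = 2 o + 1` letters. The letter number `j`
contains the work cell number `j - o` of every tape, the input cell number `j`, marks for the heads in
these cells, marks for `j = 0` and for the end `n + 1` of the input, and a copy of the state and of all
symbols which are read.
-/

namespace Pool.Agent.Helper92.RE

open Pool.Agent.Helper65.LinSpace

variable {k : ℕ} (M : TM k)

/-- The copy: the state and the symbols which are read. -/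
structure Copy where
  q : M.State
  a : Option Bool
  s : Fin k → M.Sym

/-- A cell. -/
structure Cell where
  first : Bool
  last : Bool
  a : Option Bool
  inp : Bool
  s : Fin k → M.Sym
  hd : Fin k → Bool

/-- A letter of a history. -/
structure Letter where
  c : Copy M
  d : Cell M

variable {M}

/-- The action for a copy. -/
def Copy.act (c : Copy M) : Option (M.State × Dir × (Fin k → M.Sym × Dir)) := M.step c.q c.a c.s

/-- The next state. -/
def Copy.nq (c : Copy M) : M.State := (c.act).elim c.q fun r => r.1

/-- The next cell, for the copy `c`, between the cells `x` and `z`. -/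
def nextCell (c : Copy M) (x y z : Cell M) : Cell M :=
  match c.act with
  | none => y
  | some r =>
    { first := y.first
      last := y.last
      a := y.a
      inp := match r.2.1 with
        | .left => (y.first && y.inp) || (!z.first && z.inp)
        | .stay => y.inp
        | .right => (y.last && y.inp) || (!y.first && (!x.last && x.inp))
      s := fun i => if y.hd i then (r.2.2 i).1 else y.s i
      hd := fun i => match (r.2.2 i).2 with
        | .left => !z.first && z.hd i
        | .stay => y.hd i
        | .right => !y.first && x.hd i }

/-- A bad quadruple. -/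
def BadL (x y z y' : Letter M) : Prop :=
  (y.d.first = false ∧ x.c ≠ y.c) ∨ (y.d.inp = true ∧ y.d.a ≠ y.c.a) ∨
    (∃ i, y.d.hd i = true ∧ y.d.s i ≠ y.c.s i) ∨ y'.d ≠ nextCell y.c x.d y.d z.d ∨
    y'.c.q ≠ y.c.nq

/-- An accepting letter. -/
def AccL (y : Letter M) : Prop := y.c.act = none ∧ y.c.q ∈ M.accept

/-- The copy of a configuration. -/
def copyOf (w : List Bool) (c : M.Cfg) : Copy M :=
  ⟨c.state, inputSym w c.inp, fun i => c.tape i (c.head i)⟩

/-- The cell number `j` of a configuration. -/
noncomputable def cellOf (w : List Bool) (o : ℕ) (c : M.Cfg) (j : ℕ) : Cell M where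
  first := decide (j = 0)
  last := decide (j = w.length + 1)
  a := inputSym w j
  inp := decide (c.inp = j)
  s := fun i => c.tape i ((j : ℤ) - o)
  hd := fun i => decide (c.head i = (j : ℤ) - o)

/-- The letter number `j` of a configuration. -/
noncomputable def letterOf (w : List Bool) (o : ℕ) (c : M.Cfg) (j : ℕ) : Letter M :=
  ⟨copyOf w c, cellOf w o c j⟩

/-- The word of a configuration. -/
noncomputable def cfgW (w : List Bool) (o : ℕ) (c : M.Cfg) : List (Letter M) :=
  (List.range (2 * o + 1)).map (letterOf w o c)

/-- The initial word: one additional letter, and the initial configuration. -/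
noncomputable def initW (M : TM k) (w : List Bool) (o : ℕ) : List (Letter M) :=
  letterOf w o (M.run w 0) 0 :: cfgW w o (M.run w 0)

/-- The words with the properties of a history. -/
def IsHistL (w : List Bool) (o : ℕ) (u : List (Letter M)) : Prop :=
  initW M w o <+: u ∧
    (∀ (p : ℕ) (x y z y' : Letter M), BadL x y z y' → ¬(u[p]? = some x ∧ u[p + 1]? = some y ∧
      u[p + 2]? = some z ∧ u[p + 1 + (2 * o + 1)]? = some y')) ∧
    ∃ (p : ℕ) (a : Letter M), AccL a ∧ u[p]? = some a ∧ p + 2 * (2 * o + 1) < u.length

end Pool.Agent.Helper92.RE
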