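import Pool.Agent.Helper92.RE.Hist

/-!
# The words described by the regular expressions of `Hist.lean`
-/

namespace Pool.Agent.Helper92.RE

open RegularExpression (zero epsilon char plus comp)

section

variable {Γ : Type}

theorem mem_zero (u : List Γ) : u ∈ (zero : RegularExpression Γ).matches' ↔ False := Iff.rfl

theorem mem_eps (u : List Γ) : u ∈ (epsilon : RegularExpression Γ).matches' ↔ u = [] := Iff.rfl

theorem mem_char (a : Γ) (u : List Γ) : u ∈ (char a).matches' ↔ u = [a] := Iff.rfl

theorem mem_plus (p q : RegularExpression Γ) (u : List Γ) :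
    u ∈ (plus p q).matches' ↔ u ∈ p.matches' ∨ u ∈ q.matches' := Iff.rfl

theorem mem_comp (p q : RegularExpression Γ) (u : List Γ) :
    u ∈ (comp p q).matches' ↔ ∃ v ∈ p.matches', ∃ v' ∈ q.matches', v ++ v' = u := by
  show u ∈ p.matches' * q.matches' ↔ _
  rw [Language.mem_mul]

theorem mem_star (p : RegularExpression Γ) (u : List Γ) :
    u ∈ (RegularExpression.star p).matches' ↔
      ∃ L : List (List Γ), u = L.flatten ∧ ∀ v ∈ L, v ∈ p.matches' := by
  show u ∈ KStar.kstar p.matches' ↔ _
  rw [Language.mem_kstar]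

theorem mem_sumC (l : List Γ) (u : List Γ) : u ∈ (sumC l).matches' ↔ ∃ a ∈ l, u = [a] := by
  induction l with
  | nil => simp [sumC]
  | cons a l ih =>
    have h : sumC (a :: l) = plus (char a) (sumC l) := rfl
    rw [h, mem_plus, mem_char, ih]
    simp

theorem mem_sumR (l : List (RegularExpression Γ)) (u : List Γ) :
    u ∈ (sumR l).matches' ↔ ∃ r ∈ l, u ∈ r.matches' := by
  induction l with
  | nil => simp [sumR]
  | cons a l ih =>
    have h : sumR (a :: l) = plus a (sumR l) := rfl
    rw [h, mem_plus, ih]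
    simp

/-- Words of `r ^ j s` if `r` describes all words of length `1`. -/
theorem mem_rep {r s : RegularExpression Γ} (hr : ∀ u, u ∈ r.matches' ↔ u.length = 1) (j : ℕ)
    (u : List Γ) : u ∈ (rep r j s).matches' ↔ ∃ v v', v.length = j ∧ v' ∈ s.matches' ∧ v ++ v' = u := by
  induction j generalizing u with
  | zero =>
    constructor
    · intro h
      exact ⟨[], u, rfl, h, rfl⟩
    · rintro ⟨v, v', h1, h2, rfl⟩
      rw [List.length_eq_zero_iff.1 h1]
      exact h2
  | succ j ih =>
    have h : rep r (j + 1) s = comp r (rep r j s) := rfl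
    rw [h, mem_comp]
    constructor
    · rintro ⟨v, hv, v', hv', rfl⟩
      obtain ⟨x, y, h1, h2, rfl⟩ := (ih v').1 hv'
      refine ⟨v ++ x, y, ?_, h2, by rw [List.append_assoc]⟩
      rw [List.length_append, (hr v).1 hv, h1, add_comm]
    · rintro ⟨v, v', h1, h2, rfl⟩
      cases v with
      | nil => simp at h1
      | cons a v =>
        refine ⟨[a], (hr [a]).2 rfl, v ++ v', (ih _).2 ⟨v, v', by simpa using h1, h2, rfl⟩, rfl⟩

/-- Words of `r ^ j` if `r` describes all words of length at most `1`. -/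
theorem mem_rep_le {r : RegularExpression Γ} (hr : ∀ u, u ∈ r.matches' ↔ u.length ≤ 1) (j : ℕ)
    (u : List Γ) : u ∈ (rep r j epsilon).matches' ↔ u.length ≤ j := by
  induction j generalizing u with
  | zero =>
    show u ∈ (epsilon : RegularExpression Γ).matches' ↔ _
    rw [mem_eps, Nat.le_zero, List.length_eq_zero_iff]
  | succ j ih =>
    have h : rep r (j + 1) epsilon = comp r (rep r j epsilon) := rfl
    rw [h, mem_comp]
    constructor
    · rintro ⟨v, hv, v', hv', rfl⟩
      have h1 := (hr v).1 hv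
      have h2 := (ih v').1 hv'
      rw [List.length_append]
      omega
    · intro h1
      refine ⟨u.take 1, (hr _).2 ?_, u.drop 1, (ih _).2 ?_, List.take_append_drop 1 u⟩
      · rw [List.length_take]
        omega
      · rw [List.length_drop]
        omega

end

section

variable {Γ : Type} [Fintype Γ] [DecidableEq Γ]

omit [DecidableEq Γ] in
theorem mem_allL (a : Γ) : a ∈ allL Γ := Finset.mem_toList.2 (Finset.mem_univ a)

omit [DecidableEq Γ] in
theorem mem_anyC (u : List Γ) : u ∈ (anyC Γ).matches' ↔ u.length = 1 := by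
  unfold anyC
  rw [mem_sumC, List.length_eq_one_iff]
  exact ⟨fun ⟨a, _, h⟩ => ⟨a, h⟩, fun ⟨a, h⟩ => ⟨a, mem_allL a, h⟩⟩

theorem mem_anyS (u : List Γ) : u ∈ (anyS Γ).matches' := by
  unfold anyS
  rw [mem_star]
  refine ⟨u.map fun a => [a], ?_, fun v hv => ?_⟩
  · induction u with
    | nil => rfl
    | cons a u ih => simpa using ih
  · obtain ⟨a, _, rfl⟩ := List.mem_map.1 hv
    exact (mem_anyC _).2 rfl

theorem mem_erase_iff (a b : Γ) : b ∈ (allL Γ).erase a ↔ b ≠ a := by
  have h : (allL Γ).Nodup := Finset.nodup_toList _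
  rw [List.Nodup.mem_erase_iff h]
  exact ⟨fun h => h.1, fun h => ⟨h, mem_allL b⟩⟩

theorem mem_pre (P u : List Γ) : u ∈ (pre P).matches' ↔ ¬P <+: u := by
  induction P generalizing u with
  | nil =>
    show u ∈ (zero : RegularExpression Γ).matches' ↔ _
    rw [mem_zero]
    exact ⟨fun h => h.elim, fun h => h (List.nil_prefix)⟩
  | cons a P ih =>
    have h : pre (a :: P) = plus epsilon (plus (comp (sumC ((allL Γ).erase a)) (anyS Γ))
      (comp (char a) (pre P))) := rfl
    rw [h, mem_plus, mem_plus, mem_eps, mem_comp, mem_comp]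
    cases u with
    | nil =>
      simp
    | cons b u =>
      rw [List.cons_prefix_cons]
      constructor
      · rintro (h1 | ⟨v, hv, v', _, h2⟩ | ⟨v, hv, v', hv', h2⟩) ⟨rfl, h3⟩
        · simp at h1
        · obtain ⟨c, hc, rfl⟩ := (mem_sumC _ _).1 hv
          rw [mem_erase_iff] at hc
          simp only [List.singleton_append, List.cons.injEq] at h2
          exact hc h2.1
        · rw [mem_char] at hv
          subst hv
          simp only [List.singleton_append, List.cons.injEq] at h2
          rw [ih, h2.2] at hv'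
          exact hv' h3
      · intro h1
        by_cases hab : a = b
        · subst hab
          refine Or.inr (Or.inr ⟨[a], rfl, u, (ih u).2 fun h2 => h1 ⟨rfl, h2⟩, rfl⟩)
        · refine Or.inr (Or.inl ⟨[b], (mem_sumC _ _).2 ⟨b, (mem_erase_iff a b).2
            (Ne.symm hab), rfl⟩, u, mem_anyS u, rfl⟩)

theorem mem_term {m : ℕ} (hm : 2 ≤ m) (t : Γ × Γ × Γ × Γ) (u : List Γ) :
    u ∈ (term m t).matches' ↔ ∃ p, u[p]? = some t.1 ∧ u[p + 1]? = some t.2.1 ∧
      u[p + 2]? = some t.2.2.1 ∧ u[p + 1 + m]? = some t.2.2.2 := by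
  obtain ⟨x, y, z, y'⟩ := t
  unfold term
  simp only [mem_comp, mem_char, mem_rep mem_anyC]
  constructor
  · rintro ⟨v, _, v', ⟨_, rfl, w1, ⟨_, rfl, w2, ⟨_, rfl, w3, ⟨s, s', hs, ⟨_, rfl, w4, _, rfl⟩,
      rfl⟩, rfl⟩, rfl⟩, rfl⟩, rfl⟩
    refine ⟨v.length, ?_, ?_, ?_, ?_⟩
    · simp
    · rw [List.getElem?_append_right (by omega)]
      simp
    · rw [List.getElem?_append_right (by omega)]
      simp
    · rw [List.getElem?_append_right (by omega)]
      have e1 : v.length + 1 + m - v.length = 3 + (m - 2) := by omega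
      rw [e1]
      have e2 : 3 + (m - 2) = (m - 2) + 1 + 1 + 1 := by omega
      rw [e2]
      simp only [List.singleton_append, List.getElem?_cons_succ]
      rw [List.getElem?_append_right (by omega), hs]
      simp
  · rintro ⟨p, h1, h2, h3, h4⟩
    have hl : p + 1 + m < u.length := (List.getElem?_eq_some_iff.1 h4).1
    have d1 : u = u.take p ++ u.drop p := (List.take_append_drop p u).symm
    have d2 : u.drop p = x :: u.drop (p + 1) := by
      rw [List.drop_eq_getElem_cons (by omega)]
      rw [List.getElem?_eq_getElem (by omega)] at h1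
      rw [Option.some.inj h1]
    have d3 : u.drop (p + 1) = y :: u.drop (p + 2) := by
      rw [List.drop_eq_getElem_cons (by omega)]
      rw [List.getElem?_eq_getElem (by omega)] at h2
      rw [Option.some.inj h2]
    have d4 : u.drop (p + 2) = z :: u.drop (p + 3) := by
      rw [List.drop_eq_getElem_cons (by omega)]
      rw [List.getElem?_eq_getElem (by omega)] at h3
      rw [Option.some.inj h3]
    have d5 : u.drop (p + 3) = (u.drop (p + 3)).take (m - 2) ++ u.drop (p + 1 + m) := by
      conv_lhs => rw [← List.take_append_drop (m - 2) (u.drop (p + 3))]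
      rw [List.drop_drop]
      congr 2
      omega
    have d6 : u.drop (p + 1 + m) = y' :: u.drop (p + 1 + m + 1) := by
      rw [List.drop_eq_getElem_cons (by omega)]
      rw [List.getElem?_eq_getElem (by omega)] at h4
      rw [Option.some.inj h4]
    refine ⟨u.take p, mem_anyS _, u.drop p, ⟨[x], rfl, u.drop (p + 1), ⟨[y], rfl, u.drop (p + 2),
      ⟨[z], rfl, u.drop (p + 3), ⟨(u.drop (p + 3)).take (m - 2), u.drop (p + 1 + m), ?_,
        ⟨[y'], rfl, u.drop (p + 1 + m + 1), mem_anyS _, d6.symm⟩, d5.symm⟩, d4.symm⟩, d3.symm⟩,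
      d2.symm⟩, d1.symm⟩
    rw [List.length_take, List.length_drop]
    omega

theorem mem_bad {m : ℕ} (hm : 2 ≤ m) (l : List (Γ × Γ × Γ × Γ)) (u : List Γ) :
    u ∈ (bad m l).matches' ↔ ∃ t ∈ l, ∃ p, u[p]? = some t.1 ∧ u[p + 1]? = some t.2.1 ∧
      u[p + 2]? = some t.2.2.1 ∧ u[p + 1 + m]? = some t.2.2.2 := by
  unfold bad
  rw [mem_sumR]
  constructor
  · rintro ⟨r, hr, hu⟩
    obtain ⟨t, ht, rfl⟩ := List.mem_map.1 hr
    exact ⟨t, ht, (mem_term hm t u).1 hu⟩
  · rintro ⟨t, ht, hu⟩
    exact ⟨term m t, List.mem_map.2 ⟨t, ht, rfl⟩, (mem_term hm t u).2 hu⟩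

omit [Fintype Γ] [DecidableEq Γ] in
theorem mem_starC (B u : List Γ) : u ∈ (RegularExpression.star (sumC B)).matches' ↔
    ∀ a ∈ u, a ∈ B := by
  rw [mem_star]
  constructor
  · rintro ⟨L, rfl, hL⟩ a ha
    obtain ⟨v, hv, hav⟩ := List.mem_flatten.1 ha
    obtain ⟨b, hb, rfl⟩ := (mem_sumC _ _).1 (hL v hv)
    rw [List.mem_singleton] at hav
    rwa [hav]
  · intro h
    refine ⟨u.map fun a => [a], ?_, fun v hv => ?_⟩
    · clear h
      induction u with
      | nil => rfl
      | cons a u ih => simpa using ih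
    · obtain ⟨a, ha, rfl⟩ := List.mem_map.1 hv
      exact (mem_sumC _ _).2 ⟨a, h a ha, rfl⟩

theorem mem_noacc {m : ℕ} (hm : 2 ≤ m) {A B : List Γ} (hAB : ∀ a, a ∈ A ↔ a ∉ B) (u : List Γ) :
    u ∈ (noacc m A B).matches' ↔ ¬∃ p, ∃ a ∈ A, u[p]? = some a ∧ p + 2 * m < u.length := by
  have hany : ∀ u : List Γ, u ∈ (plus epsilon (anyC Γ)).matches' ↔ u.length ≤ 1 := by
    intro u
    rw [mem_plus, mem_eps, mem_anyC, ← List.length_eq_zero_iff]
    omega
  unfold noacc
  rw [mem_comp]
  simp only [mem_plus, mem_eps, mem_comp, mem_rep_le hany, mem_starC, mem_sumC]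
  constructor
  · rintro ⟨v, hv, v', h, rfl⟩ ⟨p, a, ha, h1, h2⟩
    have h3 : v.length ≤ p := by
      by_contra h4
      rw [List.getElem?_append_left (by omega)] at h1
      exact (hAB a).1 ha (hv a (List.mem_of_getElem? h1))
    rcases h with rfl | ⟨_, ⟨b, hb, rfl⟩, v'', h5, rfl⟩
    · rw [List.append_nil] at h2
      omega
    · rw [List.length_append, List.length_append, List.length_singleton] at h2
      omega
  · intro h
    by_cases h1 : ∃ p : ℕ, ∃ a ∈ A, u[p]? = some a
    · classical
      have h2 := Nat.find_spec h1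
      have h3 : ∀ q < Nat.find h1, ¬∃ a ∈ A, u[q]? = some a := fun q => Nat.find_min h1
      generalize Nat.find h1 = p at *
      obtain ⟨a, ha, hp⟩ := h2
      have hp' : p < u.length := (List.getElem?_eq_some_iff.1 hp).1
      refine ⟨u.take p, ?_, u.drop p, Or.inr ⟨[a], ⟨a, ha, rfl⟩, u.drop (p + 1), ?_, ?_⟩,
        List.take_append_drop p u⟩
      · intro b hb
        obtain ⟨q, hq, hq'⟩ := List.mem_iff_getElem.1 hb
        rw [List.length_take] at hq
        by_contra hb'
        refine h3 q (by omega) ⟨b, (hAB b).2 hb', ?_⟩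
        rw [List.getElem?_eq_getElem (by omega)]
        rw [List.getElem_take] at hq'
        rw [hq']
      · have h4 : ¬p + 2 * m < u.length := fun h5 => h ⟨p, a, ha, hp, h5⟩
        rw [List.length_drop]
        omega
      · rw [List.drop_eq_getElem_cons hp']
        rw [List.getElem?_eq_getElem hp'] at hp
        rw [Option.some.inj hp]
        rfl
    · push Not at h1
      refine ⟨u, fun b hb => ?_, [], Or.inl rfl, List.append_nil u⟩
      by_contra hb'
      obtain ⟨q, hq⟩ := List.mem_iff_getElem?.1 hb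
      exact h1 q b ((hAB b).2 hb') hq

/-- **The words which are not histories.** -/
theorem mem_hist {P : List Γ} {m : ℕ} (hm : 2 ≤ m) {l : List (Γ × Γ × Γ × Γ)} {A B : List Γ}
    (hAB : ∀ a, a ∈ A ↔ a ∉ B) (u : List Γ) :
    u ∈ (hist P m l A B).matches' ↔ ¬IsHist P m l A u := by
  unfold hist IsHist
  rw [mem_plus, mem_plus, mem_pre, mem_bad hm, mem_noacc hm hAB]
  constructor
  · rintro (h | ⟨t, ht, p, hp⟩ | h) ⟨h1, h2, h3⟩
    · exact h h1
    · exact h2 t ht p hp
    · exact h h3
  · intro h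
    by_cases h1 : P <+: u
    · by_cases h2 : ∃ t ∈ l, ∃ p, u[p]? = some t.1 ∧ u[p + 1]? = some t.2.1 ∧
        u[p + 2]? = some t.2.2.1 ∧ u[p + 1 + m]? = some t.2.2.2
      · exact Or.inr (Or.inl h2)
      · refine Or.inr (Or.inr fun h3 => h ⟨h1, fun t ht p hp => h2 ⟨t, ht, p, hp⟩, h3⟩)
    · exact Or.inl h1

end

end Pool.Agent.Helper92.RE
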