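import Pool.Agent.Helper92.RE.Run
import Pool.Agent.Helper92.RE.Block

/-!
# The reduction to the universality of regular expressions
-/

namespace Pool.Agent.Helper92.RE

open Pool.Agent.Helper65.LinSpace
open RegularExpression (zero epsilon char plus comp)

variable {k : ℕ} (M : TM k)

theorem finite_letter : Finite (Letter M) := by
  have h1 : Finite M.State := M.finState
  have h2 : Finite M.Sym := M.finSym
  refine Finite.of_injective (fun l : Letter M => ((l.c.q, l.c.a, l.c.s),
    (l.d.first, l.d.last, l.d.a, l.d.inp, l.d.s, l.d.hd))) ?_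
  rintro ⟨⟨q, a, s⟩, ⟨x1, x2, x3, x4, x5, x6⟩⟩ ⟨⟨q', a', s'⟩, ⟨y1, y2, y3, y4, y5, y6⟩⟩ h
  simp only [Prod.mk.injEq] at h
  obtain ⟨⟨rfl, rfl, rfl⟩, rfl, rfl, rfl, rfl, rfl, rfl⟩ := h
  rfl

/-- The letters are words of the length `b`. -/
theorem exists_code : ∃ (b : ℕ) (code : Letter M → Fin b → Bool), 0 < b ∧
    Function.Injective code := by
  have := finite_letter M
  obtain ⟨n, ⟨e⟩⟩ := Finite.exists_equiv_fin (Letter M)
  refine ⟨n + 1, fun a j => decide ((e a : ℕ) = j), Nat.succ_pos n, fun a a' h => ?_⟩
  have h1 := congrFun h ⟨(e a : ℕ), by have := (e a).2; omega⟩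
  simp only [decide_true] at h1
  have h2 := of_decide_eq_true h1.symm
  exact e.injective (Fin.ext h2.symm)

instance : Nonempty (Letter M) := ⟨letterOf [] 0 (M.run [] 0) 0⟩

section

variable {M} {b : ℕ} (code : Letter M → Fin b → Bool)

/-- The letter of a block. -/
noncomputable def dec (g : Fin b → Bool) : Letter M := Function.invFun code g

open Classical in
/-- The bad quadruples of blocks. -/
noncomputable def lBad : List ((Fin b → Bool) × (Fin b → Bool) × (Fin b → Bool) × (Fin b → Bool)) :=
  (Finset.univ.filter fun t => BadL (dec code t.1) (dec code t.2.1) (dec code t.2.2.1)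
    (dec code t.2.2.2)).toList

theorem mem_lBad (t : (Fin b → Bool) × (Fin b → Bool) × (Fin b → Bool) × (Fin b → Bool)) :
    t ∈ lBad code ↔ BadL (dec code t.1) (dec code t.2.1) (dec code t.2.2.1)
      (dec code t.2.2.2) := by
  unfold lBad
  simp

open Classical in
/-- The accepting blocks. -/
noncomputable def lAcc : List (Fin b → Bool) :=
  (Finset.univ.filter fun g => AccL (dec code g)).toList

theorem mem_lAcc (g : Fin b → Bool) : g ∈ lAcc code ↔ AccL (dec code g) := by
  unfold lAcc
  simp

open Classical in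
/-- The other blocks. -/
noncomputable def lOth : List (Fin b → Bool) :=
  (Finset.univ.filter fun g => ¬AccL (dec code g)).toList

theorem mem_lOth (g : Fin b → Bool) : g ∈ lOth code ↔ ¬AccL (dec code g) := by
  unfold lOth
  simp

/-- The regular expression for the words of blocks which are not histories. -/
noncomputable def histB (w : List Bool) (o : ℕ) : RegularExpression (Fin b → Bool) :=
  hist ((initW M w o).map code) (2 * o + 1) (lBad code) (lAcc code) (lOth code)

/-- The regular expression for the words over `{0, 1}` which are not histories. -/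
noncomputable def redB (w : List Bool) (o : ℕ) : RegularExpression Bool :=
  plus (hom (blk b) (histB code w o)) (nonmult b)

variable {code} (hinj : Function.Injective code)

theorem dec_code (a : Letter M) (hinj : Function.Injective code) : dec code (code a) = a :=
  Function.leftInverse_invFun hinj a

/-- Histories as words of blocks. -/
theorem isHist_iff (hinj : Function.Injective code) (w : List Bool) (o : ℕ) :
    (∃ u, IsHist ((initW M w o).map code) (2 * o + 1) (lBad code) (lAcc code) u) ↔
      ∃ u : List (Letter M), IsHistL w o u := by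
  constructor
  · rintro ⟨u, ⟨v, hv⟩, h2, p, a, ha, h3, h4⟩
    refine ⟨u.map (dec code), ⟨v.map (dec code), ?_⟩, ?_, p, dec code a, (mem_lAcc code a).1 ha,
      ?_, by rw [List.length_map]; exact h4⟩
    · rw [← hv, List.map_append, List.map_map]
      congr 1
      conv_lhs => rw [← List.map_id (initW M w o)]
      exact List.map_congr_left fun a _ => (dec_code a hinj).symm
    · rintro q x y z y' hbad ⟨g1, g2, g3, g4⟩
      rw [List.getElem?_map, Option.map_eq_some_iff] at g1 g2 g3 g4
      obtain ⟨X, g1, rfl⟩ := g1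
      obtain ⟨Y, g2, rfl⟩ := g2
      obtain ⟨Z, g3, rfl⟩ := g3
      obtain ⟨Y', g4, rfl⟩ := g4
      exact h2 (X, Y, Z, Y') ((mem_lBad code _).2 hbad) q ⟨g1, g2, g3, g4⟩
    · rw [List.getElem?_map, h3]
      rfl
  · rintro ⟨u, ⟨v, hv⟩, h2, p, a, ha, h3, h4⟩
    refine ⟨u.map code, ⟨v.map code, ?_⟩, ?_, p, code a, (mem_lAcc code _).2 ?_,
      ?_, by rw [List.length_map]; exact h4⟩
    · rw [← hv, List.map_append]
    · rintro ⟨X, Y, Z, Y'⟩ ht q ⟨g1, g2, g3, g4⟩
      rw [mem_lBad] at ht
      simp only [List.getElem?_map, Option.map_eq_some_iff] at g1 g2 g3 g4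
      obtain ⟨x, g1, rfl⟩ := g1
      obtain ⟨y, g2, rfl⟩ := g2
      obtain ⟨z, g3, rfl⟩ := g3
      obtain ⟨y', g4, rfl⟩ := g4
      simp only [dec_code _ hinj] at ht
      exact h2 q x y z y' ht ⟨g1, g2, g3, g4⟩
    · rw [dec_code a hinj]
      exact ha
    · rw [List.getElem?_map, h3]
      rfl

/-- **The reduction.** -/
theorem redB_iff (hb : 0 < b) (hinj : Function.Injective code) {w : List Bool} {o : ℕ}
    (ho : 0 < o) : (redB code w o).matches' = ⊤ ↔ ¬∃ u : List (Letter M), IsHistL w o u := by
  unfold redB histB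
  rw [univ_iff hb, ← isHist_iff hinj]
  have hAB : ∀ a, a ∈ lAcc code ↔ a ∉ lOth code := by
    intro a
    rw [mem_lAcc, mem_lOth, not_not]
  simp only [mem_hist (show 2 ≤ 2 * o + 1 by omega) hAB]
  push Not
  rfl

end

/-! ### Languages in linear space -/

theorem run_halt {w : List Bool} {t : ℕ} (h : M.next w (M.run w t) = none) (d : ℕ) :
    M.run w (t + d) = M.run w t := by
  induction d with
  | zero => rfl
  | succ d ih =>
    show (M.next w (M.run w (t + d))).getD (M.run w (t + d)) = _
    rw [ih, h]
    rfl

variable {M}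

/-- **The reduction of a language in linear space.** -/
theorem exists_red {L : Set (List Bool)} {c : ℕ} (hL : ∀ w : List Bool,
      (∃ t, M.next w (M.run w t) = none ∧ (w ∈ L ↔ (M.run w t).state ∈ M.accept)) ∧
      ∀ t i, |(M.run w t).head i| ≤ c * (w.length + 1)) {b : ℕ} {code : Letter M → Fin b → Bool}
    (hb : 0 < b) (hinj : Function.Injective code) (w : List Bool) :
    (redB code w ((c + 1) * (w.length + 1))).matches' = ⊤ ↔ w ∉ L := by
  have ho : w.length + 1 ≤ (c + 1) * (w.length + 1) := Nat.le_mul_of_pos_left _ (Nat.succ_pos c)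
  rw [redB_iff hb hinj (by omega), not_iff_not, hist_iff (fun t i => ?_) (by omega)]
  · obtain ⟨t, h1, h2⟩ := (hL w).1
    rw [h2]
    constructor
    · rintro ⟨t', h3, h4⟩
      have h5 : M.run w t' = M.run w t := by
        rcases le_total t t' with h | h
        · obtain ⟨d, rfl⟩ := Nat.exists_eq_add_of_le h
          exact run_halt M h1 d
        · obtain ⟨d, rfl⟩ := Nat.exists_eq_add_of_le h
          exact (run_halt M h3 d).symm
      rwa [h5] at h4
    · exact fun h => ⟨t, h1, h⟩
  · refine ((hL w).2 t i).trans ?_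
    push_cast
    have : (0 : ℤ) ≤ (w.length : ℤ) + 1 := by positivity
    nlinarith

end Pool.Agent.Helper92.RE
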