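import Pool.Agent.Helper92.RE.Letters

/-!
# Histories of a Turing machine: correctness
-/

namespace Pool.Agent.Helper92.RE

open Pool.Agent.Helper65.LinSpace

variable {k : ℕ} {M : TM k}

/-- The heads of a configuration are within distance `o` of the origin. -/
def InR (o : ℕ) (c : M.Cfg) : Prop := ∀ i, |c.head i| ≤ (o : ℤ)

theorem inputMove_le (w : List Bool) (d : Dir) {i : ℕ} (hi : i ≤ w.length + 1) :
    inputMove w d i ≤ w.length + 1 := by
  cases d
  · show i - 1 ≤ _
    omega
  · exact hi
  · exact min_le_right _ _

/-- The next cell. -/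
theorem cell_next {w : List Bool} {o : ℕ} {c : M.Cfg} (hc : InR o c) (hin : c.inp ≤ w.length + 1)
    {j : ℕ} {x z : Cell M} (hx : j ≠ 0 → x = cellOf w o c (j - 1))
    (hz : j + 1 < 2 * o + 1 → z = cellOf w o c (j + 1)) (hz' : j + 1 = 2 * o + 1 → z.first = true)
    (hj : j < 2 * o + 1) (hn : w.length + 1 < 2 * o + 1) :
    nextCell (copyOf w c) x (cellOf w o c j) z = cellOf w o ((M.next w c).getD c) j := by
  have hact : (copyOf w c).act = M.step c.state (inputSym w c.inp) fun i => c.tape i (c.head i) :=
    rfl
  unfold nextCell
  rw [hact]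
  unfold TM.next
  rcases hr : M.step c.state (inputSym w c.inp) (fun i => c.tape i (c.head i)) with _ | r
  · rfl
  · show ({ first := _, last := _, a := _, inp := _, s := _, hd := _ } : Cell M) =
      cellOf w o { state := r.1
                   inp := inputMove w r.2.1 c.inp
                   tape := fun i => Function.update (c.tape i) (c.head i) (r.2.2 i).1
                   head := fun i => c.head i + (r.2.2 i).2.toInt } j
    unfold cellOf
    congr 1
    · -- the input head
      show (match r.2.1 with
        | .left => (decide (j = 0) && decide (c.inp = j)) || (!z.first && z.inp)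
        | .stay => decide (c.inp = j)
        | .right => (decide (j = w.length + 1) && decide (c.inp = j)) ||
          (!decide (j = 0) && (!x.last && x.inp))) = decide (inputMove w r.2.1 c.inp = j)
      rcases r.2.1 with _ | _ | _
      · show (_ || _) = decide (c.inp - 1 = j)
        rcases Nat.lt_or_ge (j + 1) (2 * o + 1) with h1 | h1
        · rw [hz h1]
          show (decide (j = 0) && decide (c.inp = j) ||
            (!decide (j + 1 = 0) && decide (c.inp = j + 1))) = _
          rw [Bool.eq_iff_iff]
          simp only [Bool.or_eq_true, Bool.and_eq_true, decide_eq_true_eq, Bool.not_eq_true',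
            decide_eq_false_iff_not]
          omega
        · rw [hz' (by omega)]
          rw [Bool.eq_iff_iff]
          simp only [Bool.or_eq_true, Bool.and_eq_true, decide_eq_true_eq, Bool.not_true,
            Bool.false_eq_true, false_and, or_false]
          omega
      · rfl
      · show (_ || _) = decide (min (c.inp + 1) (w.length + 1) = j)
        by_cases h0 : j = 0
        · rw [Bool.eq_iff_iff]
          simp only [Bool.or_eq_true, Bool.and_eq_true, decide_eq_true_eq, Bool.not_eq_true',
            decide_eq_false_iff_not, h0, not_true, false_and, or_false]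
          omega
        · rw [hx h0]
          show (decide (j = w.length + 1) && decide (c.inp = j) || (!decide (j = 0) &&
            (!decide (j - 1 = w.length + 1) && decide (c.inp = j - 1)))) = _
          rw [Bool.eq_iff_iff]
          simp only [Bool.or_eq_true, Bool.and_eq_true, decide_eq_true_eq, Bool.not_eq_true',
            decide_eq_false_iff_not]
          omega
    · -- the symbols
      funext i
      show (if decide (c.head i = (j : ℤ) - o) = true then (r.2.2 i).1 else c.tape i ((j : ℤ) - o)) =
        Function.update (c.tape i) (c.head i) (r.2.2 i).1 ((j : ℤ) - o)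
      by_cases h : c.head i = (j : ℤ) - o
      · rw [← h, Function.update_self]
        simp
      · rw [Function.update_of_ne (Ne.symm h)]
        simp [h]
    · -- the work heads
      funext i
      show (match (r.2.2 i).2 with
        | .left => !z.first && z.hd i
        | .stay => decide (c.head i = (j : ℤ) - o)
        | .right => !decide (j = 0) && x.hd i) =
          decide (c.head i + (r.2.2 i).2.toInt = (j : ℤ) - o)
      have hb := abs_le.1 (hc i)
      rcases (r.2.2 i).2 with _ | _ | _
      · show (_ && _) = decide (c.head i + -1 = (j : ℤ) - o)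
        rcases Nat.lt_or_ge (j + 1) (2 * o + 1) with h1 | h1
        · rw [hz h1]
          show (!decide (j + 1 = 0) && decide (c.head i = ((j + 1 : ℕ) : ℤ) - o)) = _
          rw [Bool.eq_iff_iff]
          simp only [Bool.and_eq_true, decide_eq_true_eq, Bool.not_eq_true',
            decide_eq_false_iff_not]
          omega
        · rw [hz' (by omega)]
          have h2 : ¬c.head i + -1 = (j : ℤ) - o := by omega
          rw [decide_eq_false h2]
          rfl
      · show _ = decide (c.head i + 0 = (j : ℤ) - o)
        rw [add_zero]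
      · show (_ && _) = decide (c.head i + 1 = (j : ℤ) - o)
        by_cases h0 : j = 0
        · have h2 : ¬c.head i + 1 = (j : ℤ) - o := by omega
          rw [decide_eq_false h2, decide_eq_true h0]
          rfl
        · rw [hx h0]
          show (!decide (j = 0) && decide (c.head i = ((j - 1 : ℕ) : ℤ) - o)) = _
          rw [Bool.eq_iff_iff]
          simp only [Bool.and_eq_true, decide_eq_true_eq, Bool.not_eq_true',
            decide_eq_false_iff_not]
          omega

theorem nextCell_first (c : Copy M) (x y z : Cell M) : (nextCell c x y z).first = y.first := by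
  unfold nextCell
  rcases c.act with _ | r
  · rfl
  · rfl

/-- The next state. -/
theorem state_next (w : List Bool) (c : M.Cfg) :
    (copyOf w c).nq = ((M.next w c).getD c).state := by
  have hact : (copyOf w c).act = M.step c.state (inputSym w c.inp) fun i => c.tape i (c.head i) :=
    rfl
  unfold Copy.nq TM.next
  rw [hact]
  rcases M.step c.state (inputSym w c.inp) (fun i => c.tape i (c.head i)) with _ | r
  · rfl
  · rfl

theorem next_none_iff (w : List Bool) (c : M.Cfg) : (copyOf w c).act = none ↔ M.next w c = none := by
  have hact : (copyOf w c).act = M.step c.state (inputSym w c.inp) fun i => c.tape i (c.head i) :=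
    rfl
  unfold TM.next
  rw [hact]
  rcases M.step c.state (inputSym w c.inp) (fun i => c.tape i (c.head i)) with _ | r
  · simp
  · simp

theorem inp_le (w : List Bool) (t : ℕ) : (M.run w t).inp ≤ w.length + 1 := by
  induction t with
  | zero => exact Nat.zero_le _
  | succ t ih =>
    show ((M.next w (M.run w t)).getD (M.run w t)).inp ≤ _
    unfold TM.next
    rcases M.step (M.run w t).state (inputSym w (M.run w t).inp)
      (fun i => (M.run w t).tape i ((M.run w t).head i)) with _ | r
    · exact ih
    · exact inputMove_le _ _ ih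

/-! ### The true history -/

/-- The letters of the true history. -/
noncomputable def trueL (M : TM k) (w : List Bool) (o p : ℕ) : Letter M :=
  letterOf w o (M.run w ((p - 1) / (2 * o + 1))) ((p - 1) % (2 * o + 1))

theorem trueL_eq (w : List Bool) (o t j : ℕ) (hj : j < 2 * o + 1) :
    trueL M w o (1 + t * (2 * o + 1) + j) = letterOf w o (M.run w t) j := by
  unfold trueL
  have e1 : 1 + t * (2 * o + 1) + j - 1 = j + (2 * o + 1) * t := by
    rw [mul_comm (2 * o + 1) t]
    omega
  rw [e1, Nat.add_mul_div_left _ _ (by omega), Nat.div_eq_of_lt hj, zero_add,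
    Nat.add_mul_mod_self_left, Nat.mod_eq_of_lt hj]

theorem trueL_zero (w : List Bool) (o : ℕ) : trueL M w o 0 = letterOf w o (M.run w 0) 0 := by
  unfold trueL
  simp

/-- The true history has no bad quadruple. -/
theorem true_not_bad {w : List Bool} {o : ℕ} (hR : ∀ t, InR o (M.run w t))
    (hn : w.length + 1 < 2 * o + 1) (p : ℕ) :
    ¬BadL (trueL M w o p) (trueL M w o (p + 1)) (trueL M w o (p + 2))
      (trueL M w o (p + 1 + (2 * o + 1))) := by
  have hm := Nat.div_add_mod p (2 * o + 1)
  have hj := Nat.mod_lt p (show 0 < 2 * o + 1 by omega)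
  set t := p / (2 * o + 1) with ht
  set j := p % (2 * o + 1) with hjd
  rw [mul_comm] at hm
  have ey : trueL M w o (p + 1) = letterOf w o (M.run w t) j := by
    rw [← trueL_eq w o t j hj]
    congr 1
    omega
  have hsm : (t + 1) * (2 * o + 1) = t * (2 * o + 1) + (2 * o + 1) := by ring
  have ey' : trueL M w o (p + 1 + (2 * o + 1)) = letterOf w o (M.run w (t + 1)) j := by
    rw [← trueL_eq w o (t + 1) j hj]
    congr 1
    omega
  have ex : j ≠ 0 → trueL M w o p = letterOf w o (M.run w t) (j - 1) := by
    intro h0
    rw [← trueL_eq w o t (j - 1) (by omega)]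
    congr 1
    omega
  have ez : j + 1 < 2 * o + 1 → trueL M w o (p + 2) = letterOf w o (M.run w t) (j + 1) := by
    intro h1
    rw [← trueL_eq w o t (j + 1) h1]
    congr 1
    omega
  have ez' : j + 1 = 2 * o + 1 → (trueL M w o (p + 2)).d.first = true := by
    intro h1
    have : trueL M w o (p + 2) = letterOf w o (M.run w (t + 1)) 0 := by
      rw [← trueL_eq w o (t + 1) 0 (by omega)]
      congr 1
      omega
    rw [this]
    rfl
  rw [ey, ey']
  rintro (⟨h1, h2⟩ | ⟨h1, h2⟩ | ⟨i, h1, h2⟩ | h1 | h1)
  · have h3 : decide (j = 0) = false := h1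
    rw [decide_eq_false_iff_not] at h3
    rw [ex h3] at h2
    exact h2 rfl
  · have h3 : decide ((M.run w t).inp = j) = true := h1
    rw [decide_eq_true_eq] at h3
    refine h2 ?_
    show inputSym w j = inputSym w (M.run w t).inp
    rw [h3]
  · have h3 : decide ((M.run w t).head i = (j : ℤ) - o) = true := h1
    rw [decide_eq_true_eq] at h3
    refine h2 ?_
    show (M.run w t).tape i ((j : ℤ) - o) = (M.run w t).tape i ((M.run w t).head i)
    rw [h3]
  · refine h1 ?_
    exact (cell_next (hR t) (inp_le w t) (fun h0 => by rw [ex h0]; rfl)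
      (fun h0 => by rw [ez h0]; rfl) ez' hj hn).symm
  · exact h1 (state_next w (M.run w t)).symm

/-- The first `N` letters of the true history. -/
noncomputable def trueW (M : TM k) (w : List Bool) (o N : ℕ) : List (Letter M) :=
  (List.range N).map (trueL M w o)

theorem trueW_get {w : List Bool} {o N p : ℕ} {a : Letter M} (h : (trueW M w o N)[p]? = some a) :
    p < N ∧ a = trueL M w o p := by
  have h1 := (List.getElem?_eq_some_iff.1 h).1
  unfold trueW at h h1
  rw [List.length_map, List.length_range] at h1
  rw [List.getElem?_map, List.getElem?_range h1] at h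
  exact ⟨h1, (Option.some.inj h).symm⟩

theorem initW_eq (w : List Bool) (o : ℕ) : initW M w o = trueW M w o (1 + (2 * o + 1)) := by
  unfold initW cfgW trueW
  have e1 : List.range (1 + (2 * o + 1)) = 0 :: (List.range (2 * o + 1)).map Nat.succ := by
    rw [add_comm 1]
    exact List.range_succ_eq_map
  rw [e1, List.map_cons, trueL_zero, List.map_map]
  congr 1
  refine List.map_congr_left fun j hj => ?_
  rw [List.mem_range] at hj
  have := trueL_eq (M := M) w o 0 j hj
  rw [← this]
  show _ = trueL M w o (j + 1)
  congr 1
  omega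

/-- **The true history of an accepting run.** -/
theorem exists_hist {w : List Bool} {o : ℕ} (hR : ∀ t, InR o (M.run w t))
    (hn : w.length + 1 < 2 * o + 1) {t : ℕ} (ht : M.next w (M.run w t) = none)
    (ha : (M.run w t).state ∈ M.accept) : ∃ u : List (Letter M), IsHistL w o u := by
  refine ⟨trueW M w o (1 + t * (2 * o + 1) + 2 * (2 * o + 1) + 1), ?_, ?_, ?_⟩
  · rw [initW_eq]
    unfold trueW
    refine List.IsPrefix.map _ ?_
    have h1 : 1 + t * (2 * o + 1) + 2 * (2 * o + 1) + 1 =
      1 + (2 * o + 1) + (t * (2 * o + 1) + (2 * o + 1) + 1) := by ring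
    rw [h1, List.range_add (n := 1 + (2 * o + 1)) (m := t * (2 * o + 1) + (2 * o + 1) + 1)]
    exact List.prefix_append _ _
  · rintro p x y z y' hbad ⟨h1, h2, h3, h4⟩
    rw [(trueW_get h1).2, (trueW_get h2).2, (trueW_get h3).2, (trueW_get h4).2] at hbad
    exact true_not_bad hR hn p hbad
  · refine ⟨1 + t * (2 * o + 1), letterOf w o (M.run w t) 0, ⟨?_, ha⟩, ?_, ?_⟩
    · exact (next_none_iff w _).2 ht
    · unfold trueW
      rw [List.getElem?_map, List.getElem?_range (by omega)]
      have := trueL_eq (M := M) w o t 0 (by omega)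
      rw [← this]
      rfl
    · unfold trueW
      rw [List.length_map, List.length_range]
      omega

/-! ### Histories are true -/

section

variable {w : List Bool} {o : ℕ} {u : List (Letter M)}

theorem getElem?_some {α : Type} {u : List α} {p : ℕ} (h : p < u.length) : ∃ a, u[p]? = some a :=
  ⟨u[p], List.getElem?_eq_getElem h⟩

/-- The cells and the states of a complete configuration are right. -/
def Right (w : List Bool) (o : ℕ) (u : List (Letter M)) (t : ℕ) : Prop :=
  ∀ j < 2 * o + 1, ∃ a, u[1 + t * (2 * o + 1) + j]? = some a ∧ a.d = cellOf w o (M.run w t) j ∧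
    a.c.q = (M.run w t).state

theorem copies (hu : IsHistL w o u) (hR : ∀ t, InR o (M.run w t)) (hn : w.length + 1 < 2 * o + 1)
    {t : ℕ} (h : Right w o u t) (hl : 1 + (t + 2) * (2 * o + 1) ≤ u.length) :
    ∀ j < 2 * o + 1, u[1 + t * (2 * o + 1) + j]? = some (letterOf w o (M.run w t) j) := by
  have hl' : 1 + t * (2 * o + 1) + 2 * (2 * o + 1) ≤ u.length := by
    refine le_trans (le_of_eq ?_) hl
    ring
  have : Nonempty (Letter M) := ⟨letterOf w o (M.run w 0) 0⟩
  choose! f hf using h
  -- the next configuration
  have hnb : ∀ j < 2 * o + 1, ∀ x, u[t * (2 * o + 1) + j]? = some x →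
      ∃ z y', ¬BadL x (f j) z y' := by
    intro j hj x hx
    obtain ⟨z, hz⟩ := getElem?_some (u := u) (p := t * (2 * o + 1) + j + 2) (by omega)
    obtain ⟨y', hy'⟩ := getElem?_some (u := u) (p := t * (2 * o + 1) + j + 1 + (2 * o + 1))
      (by omega)
    refine ⟨z, y', fun hb => hu.2.1 _ x (f j) z y' hb ⟨hx, ?_, hz, hy'⟩⟩
    have e1 : t * (2 * o + 1) + j + 1 = 1 + t * (2 * o + 1) + j := by ring
    rw [e1]
    exact (hf j hj).1
  have hcopy : ∀ j < 2 * o + 1, (f j).c = (f 0).c := by
    intro j
    induction j with
    | zero => exact fun _ => rfl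
    | succ j ih =>
      intro hj
      rw [← ih (by omega)]
      have hx : u[t * (2 * o + 1) + (j + 1)]? = some (f j) := by
        have := (hf j (by omega)).1
        have e1 : 1 + t * (2 * o + 1) + j = t * (2 * o + 1) + (j + 1) := by ring
        rwa [e1] at this
      obtain ⟨z, y', hb⟩ := hnb (j + 1) hj (f j) hx
      by_contra hne
      refine hb (Or.inl ⟨?_, Ne.symm hne⟩)
      rw [(hf (j + 1) hj).2.1]
      show decide (j + 1 = 0) = false
      simp
  have hc0 : (f 0).c = copyOf w (M.run w t) := by
    have hq := (hf 0 (by omega)).2.2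
    have hinp := inp_le (M := M) w t
    have ha : (f 0).c.a = inputSym w (M.run w t).inp := by
      have hj : (M.run w t).inp < 2 * o + 1 := by omega
      rw [← hcopy _ hj]
      obtain ⟨x, hx⟩ := getElem?_some (u := u) (p := t * (2 * o + 1) + (M.run w t).inp) (by omega)
      obtain ⟨z, y', hb⟩ := hnb _ hj x hx
      by_contra hne
      refine hb (Or.inr (Or.inl ⟨?_, ?_⟩))
      · rw [(hf _ hj).2.1]
        show decide ((M.run w t).inp = (M.run w t).inp) = true
        simp
      · rw [(hf _ hj).2.1]
        exact Ne.symm hne
    have hs : ∀ i, (f 0).c.s i = (M.run w t).tape i ((M.run w t).head i) := by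
      intro i
      have hb1 := abs_le.1 (hR t i)
      obtain ⟨j, hj⟩ := Int.eq_ofNat_of_zero_le (show 0 ≤ (M.run w t).head i + o by omega)
      have hjlt : j < 2 * o + 1 := by omega
      rw [← hcopy _ hjlt]
      obtain ⟨x, hx⟩ := getElem?_some (u := u) (p := t * (2 * o + 1) + j) (by omega)
      obtain ⟨z, y', hb⟩ := hnb _ hjlt x hx
      have hh : (M.run w t).head i = (j : ℤ) - o := by omega
      by_contra hne
      refine hb (Or.inr (Or.inr (Or.inl ⟨i, ?_, ?_⟩)))
      · rw [(hf _ hjlt).2.1]
        show decide ((M.run w t).head i = (j : ℤ) - o) = true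
        rw [decide_eq_true_eq]
        exact hh
      · rw [(hf _ hjlt).2.1]
        show (M.run w t).tape i ((j : ℤ) - o) ≠ _
        rw [← hh]
        exact Ne.symm hne
    have hs' : (f 0).c.s = fun i => (M.run w t).tape i ((M.run w t).head i) := funext hs
    show (f 0).c = ⟨(M.run w t).state, inputSym w (M.run w t).inp,
      fun i => (M.run w t).tape i ((M.run w t).head i)⟩
    rw [← hq, ← ha, ← hs']
  intro j hj
  rw [(hf j hj).1]
  have h1 : f j = ⟨(f j).c, (f j).d⟩ := rfl
  rw [h1, hcopy j hj, hc0, (hf j hj).2.1]
  rfl

theorem right_all (hu : IsHistL w o u) (hR : ∀ t, InR o (M.run w t))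
    (hn : w.length + 1 < 2 * o + 1) (t : ℕ) (hl : 1 + (t + 1) * (2 * o + 1) ≤ u.length) :
    Right w o u t := by
  induction t with
  | zero =>
    intro j hj
    obtain ⟨v, hv⟩ := hu.1
    refine ⟨letterOf w o (M.run w 0) j, ?_, rfl, rfl⟩
    rw [← hv, initW_eq, zero_mul, add_zero]
    rw [List.getElem?_append_left (by
      unfold trueW
      rw [List.length_map, List.length_range]
      omega)]
    unfold trueW
    rw [List.getElem?_map, List.getElem?_range (by omega)]
    have := trueL_eq (M := M) w o 0 j hj
    rw [zero_mul, add_zero] at this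
    rw [← this]
    rfl
  | succ t ih =>
    have hm : 1 + (t + 1) * (2 * o + 1) ≤ u.length := by
      refine le_trans ?_ hl
      have : (t + 1) * (2 * o + 1) ≤ (t + 1 + 1) * (2 * o + 1) := Nat.mul_le_mul_right _ (by omega)
      omega
    have hc := copies hu hR hn (ih hm) hl
    have hl' : 1 + t * (2 * o + 1) + 2 * (2 * o + 1) ≤ u.length := by
      refine le_trans (le_of_eq ?_) hl
      ring
    intro j hj
    obtain ⟨x, hx⟩ := getElem?_some (u := u) (p := t * (2 * o + 1) + j) (by omega)
    obtain ⟨z, hz⟩ := getElem?_some (u := u) (p := t * (2 * o + 1) + j + 2) (by omega)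
    obtain ⟨y', hy'⟩ := getElem?_some (u := u) (p := t * (2 * o + 1) + j + 1 + (2 * o + 1))
      (by omega)
    have hy : u[t * (2 * o + 1) + j + 1]? = some (letterOf w o (M.run w t) j) := by
      have e1 : t * (2 * o + 1) + j + 1 = 1 + t * (2 * o + 1) + j := by ring
      rw [e1]
      exact hc j hj
    have hb : ¬BadL x (letterOf w o (M.run w t) j) z y' :=
      fun hb => hu.2.1 _ x _ z y' hb ⟨hx, hy, hz, hy'⟩
    refine ⟨y', ?_, ?_, ?_⟩
    · rw [← hy']
      congr 1
      ring
    · have h1 : y'.d = nextCell (copyOf w (M.run w t)) x.d (cellOf w o (M.run w t) j) z.d := by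
        by_contra hne
        exact hb (Or.inr (Or.inr (Or.inr (Or.inl hne))))
      rw [h1]
      refine cell_next (hR t) (inp_le w t) (fun h0 => ?_) (fun h0 => ?_) (fun h0 => ?_) hj hn
      · have := hc (j - 1) (by omega)
        have e1 : 1 + t * (2 * o + 1) + (j - 1) = t * (2 * o + 1) + j := by omega
        rw [e1, hx] at this
        rw [Option.some.inj this]
        rfl
      · have := hc (j + 1) h0
        have e1 : 1 + t * (2 * o + 1) + (j + 1) = t * (2 * o + 1) + j + 2 := by omega
        rw [e1, hz] at this
        rw [Option.some.inj this]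
        rfl
      · -- the first letter of the next configuration
        obtain ⟨x0, hx0⟩ := getElem?_some (u := u) (p := t * (2 * o + 1)) (by omega)
        obtain ⟨z0, hz0⟩ := getElem?_some (u := u) (p := t * (2 * o + 1) + 2) (by omega)
        have hy0 : u[t * (2 * o + 1) + 1]? = some (letterOf w o (M.run w t) 0) := by
          have e1 : t * (2 * o + 1) + 1 = 1 + t * (2 * o + 1) + 0 := by ring
          rw [e1]
          exact hc 0 (by omega)
        have hz1 : u[t * (2 * o + 1) + 1 + (2 * o + 1)]? = some z := by
          rw [← hz]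
          congr 1
          omega
        have hb0 : ¬BadL x0 (letterOf w o (M.run w t) 0) z0 z :=
          fun hb0 => hu.2.1 _ x0 _ z0 z hb0 ⟨hx0, hy0, hz0, hz1⟩
        have h2 : z.d = nextCell (copyOf w (M.run w t)) x0.d (cellOf w o (M.run w t) 0) z0.d := by
          by_contra hne
          exact hb0 (Or.inr (Or.inr (Or.inr (Or.inl hne))))
        rw [h2, nextCell_first]
        rfl
    · have h1 : y'.c.q = (copyOf w (M.run w t)).nq := by
        by_contra hne
        exact hb (Or.inr (Or.inr (Or.inr (Or.inr hne))))
      rw [h1]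
      exact state_next w (M.run w t)

end

/-- **Histories.** -/
theorem hist_iff {w : List Bool} {o : ℕ} (hR : ∀ t, InR o (M.run w t))
    (hn : w.length + 1 < 2 * o + 1) : (∃ u : List (Letter M), IsHistL w o u) ↔
      ∃ t, M.next w (M.run w t) = none ∧ (M.run w t).state ∈ M.accept := by
  constructor
  · rintro ⟨u, hu⟩
    obtain ⟨p, a, ha, hp, hl⟩ := hu.2.2
    rcases Nat.eq_zero_or_pos p with h0 | h0
    · -- the additional letter
      subst h0
      obtain ⟨v, hv⟩ := hu.1
      have h1 : a = letterOf w o (M.run w 0) 0 := by
        rw [← hv] at hp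
        unfold initW at hp
        rw [List.cons_append, List.getElem?_cons_zero] at hp
        exact (Option.some.inj hp).symm
      rw [h1] at ha
      exact ⟨0, (next_none_iff w _).1 ha.1, ha.2⟩
    · have hm := Nat.div_add_mod (p - 1) (2 * o + 1)
      have hj := Nat.mod_lt (p - 1) (show 0 < 2 * o + 1 by omega)
      set t := (p - 1) / (2 * o + 1) with ht
      set j := (p - 1) % (2 * o + 1) with hjd
      rw [mul_comm] at hm
      have hsm : (t + 1) * (2 * o + 1) = t * (2 * o + 1) + (2 * o + 1) := by ring
      have hsm2 : (t + 2) * (2 * o + 1) = t * (2 * o + 1) + 2 * (2 * o + 1) := by ring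
      have h1 := copies hu hR hn (right_all hu hR hn t (by omega)) (by omega) j hj
      have e1 : 1 + t * (2 * o + 1) + j = p := by omega
      rw [e1, hp] at h1
      rw [Option.some.inj h1] at ha
      exact ⟨t, (next_none_iff w _).1 ha.1, ha.2⟩
  · rintro ⟨t, h1, h2⟩
    exact exists_hist hR hn h1 h2

end Pool.Agent.Helper92.RE
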